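import Pool.Agent.Lib.DK.B.Spec

/-!
# Theorem DK, Part B, module Scl: scaling and complex conjugation
-/

set_option autoImplicit false

noncomputable section

namespace Pool.Agent.DKB

open Complex Filter Topology

/-- Reindexing by the multiplication by `c`. -/
private theorem Scl_mul {L M : PeriodPair} {c : ℂ} (hc : c ≠ 0) (h : ∀ z, inL M z ↔ inL L (c * z))
    (g : ℂ → ℂ) : ∑' l : L.lattice, g l = ∑' l : M.lattice, g (c * l) := by
  have h1 : ∀ w : ℂ, inL L w → inL M (c⁻¹ * w) := by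
    intro w hw
    rw [h, mul_inv_cancel_left₀ hc]
    exact hw
  let e : M.lattice ≃ L.lattice :=
    { toFun := fun v => ⟨c * v, (h v).1 v.2⟩
      invFun := fun w => ⟨c⁻¹ * w, h1 w w.2⟩
      left_inv := fun v => Subtype.ext (inv_mul_cancel_left₀ hc (v : ℂ))
      right_inv := fun w => Subtype.ext (mul_inv_cancel_left₀ hc (w : ℂ)) }
  exact (e.tsum_eq (fun l : L.lattice => g l)).symm

/-- Reindexing by complex conjugation. -/
private theorem Scl_conj {L M : PeriodPair} (h : ∀ z, inL M z ↔ inL L ((starRingEnd ℂ) z))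
    (g : ℂ → ℂ) : ∑' l : L.lattice, g l = ∑' l : M.lattice, g ((starRingEnd ℂ) l) := by
  have h1 : ∀ w : ℂ, inL L w → inL M ((starRingEnd ℂ) w) := by
    intro w hw
    rw [h, Complex.conj_conj]
    exact hw
  let e : M.lattice ≃ L.lattice :=
    { toFun := fun v => ⟨(starRingEnd ℂ) v, (h v).1 v.2⟩
      invFun := fun w => ⟨(starRingEnd ℂ) w, h1 w w.2⟩
      left_inv := fun v => Subtype.ext (Complex.conj_conj (v : ℂ))
      right_inv := fun w => Subtype.ext (Complex.conj_conj (w : ℂ)) }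
  exact (e.tsum_eq (fun l : L.lattice => g l)).symm

private theorem Scl_one {L M : PeriodPair} {c : ℂ} (hc : c ≠ 0)
    (h : ∀ z, inL M z ↔ inL L (c * z)) :
    (∀ z, wp M z = c ^ 2 * wp L (c * z)) ∧ (∀ z, wd M z = c ^ 3 * wd L (c * z)) ∧
    (∀ (t : ℝ) (z : ℂ), KK M t z = c * KK L (t / ‖c‖ ^ 2) (c * z)) ∧
    M.g₂ = c ^ 4 * L.g₂ ∧ M.g₃ = c ^ 6 * L.g₃ := by
  have hG : ∀ n : ℕ, M.G n = c ^ n * L.G n := by
    intro n
    unfold PeriodPair.G
    rw [Scl_mul hc h (fun l => (l ^ n)⁻¹), ← tsum_mul_left]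
    refine tsum_congr fun l => ?_
    rw [mul_pow, mul_inv, mul_inv_cancel_left₀ (pow_ne_zero n hc)]
  refine ⟨?_, ?_, ?_, ?_, ?_⟩
  · intro z
    unfold wp PeriodPair.weierstrassP
    rw [Scl_mul hc h (fun l => 1 / (c * z - l) ^ 2 - 1 / l ^ 2), ← tsum_mul_left]
    refine tsum_congr fun l => ?_
    rw [← mul_sub, mul_pow, mul_pow, one_div, one_div, one_div, one_div, mul_inv, mul_inv, ← mul_sub,
      mul_inv_cancel_left₀ (pow_ne_zero 2 hc)]
  · intro z
    unfold wd PeriodPair.derivWeierstrassP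
    rw [Scl_mul hc h (fun l => 2 / (c * z - l) ^ 3), mul_neg, ← tsum_mul_left]
    refine congrArg Neg.neg (tsum_congr fun l => ?_)
    rw [← mul_sub, mul_pow, div_eq_mul_inv, div_eq_mul_inv, mul_inv, mul_left_comm 2,
      mul_inv_cancel_left₀ (pow_ne_zero 3 hc)]
  · intro t z
    unfold KK
    rw [Scl_mul hc h (fun v => (c * z + v)⁻¹ * (Real.exp (-(t / ‖c‖ ^ 2) * ‖c * z + v‖ ^ 2) : ℝ)),
      ← tsum_mul_left]
    refine tsum_congr fun l => ?_
    have hn : ‖c‖ ^ 2 ≠ 0 := pow_ne_zero 2 (norm_ne_zero_iff.2 hc)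
    have h2 : -(t / ‖c‖ ^ 2) * ‖c * z + c * (l : ℂ)‖ ^ 2 = -t * ‖z + (l : ℂ)‖ ^ 2 := by
      rw [← mul_add, norm_mul, mul_pow]
      field_simp
    rw [h2, ← mul_add, mul_inv, mul_assoc, mul_inv_cancel_left₀ hc]
  · unfold PeriodPair.g₂
    rw [hG]
    ring
  · unfold PeriodPair.g₃
    rw [hG]
    ring

private theorem Scl_two {L M : PeriodPair} (h : ∀ z, inL M z ↔ inL L ((starRingEnd ℂ) z)) :
    (∀ z, wp M z = (starRingEnd ℂ) (wp L ((starRingEnd ℂ) z))) ∧
    (∀ z, wd M z = (starRingEnd ℂ) (wd L ((starRingEnd ℂ) z))) ∧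
    (∀ (t : ℝ) (z : ℂ), KK M t z = (starRingEnd ℂ) (KK L t ((starRingEnd ℂ) z))) ∧
    M.g₂ = (starRingEnd ℂ) L.g₂ ∧ M.g₃ = (starRingEnd ℂ) L.g₃ := by
  have hG : ∀ n : ℕ, M.G n = (starRingEnd ℂ) (L.G n) := by
    intro n
    unfold PeriodPair.G
    rw [Scl_conj h (fun l => (l ^ n)⁻¹), Complex.conj_tsum]
    refine tsum_congr fun l => ?_
    rw [map_inv₀, map_pow, Complex.conj_conj]
  refine ⟨?_, ?_, ?_, ?_, ?_⟩
  · intro z
    unfold wp PeriodPair.weierstrassP
    rw [Scl_conj h (fun l => 1 / ((starRingEnd ℂ) z - l) ^ 2 - 1 / l ^ 2), Complex.conj_tsum]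
    refine tsum_congr fun l => ?_
    simp only [map_sub, map_div₀, map_one, map_pow, Complex.conj_conj]
  · intro z
    unfold wd PeriodPair.derivWeierstrassP
    rw [Scl_conj h (fun l => 2 / ((starRingEnd ℂ) z - l) ^ 3), map_neg, Complex.conj_tsum]
    refine congrArg Neg.neg (tsum_congr fun l => ?_)
    simp only [map_sub, map_div₀, map_ofNat, map_pow, Complex.conj_conj]
  · intro t z
    unfold KK
    rw [Scl_conj h (fun v => ((starRingEnd ℂ) z + v)⁻¹ *
      (Real.exp (-t * ‖(starRingEnd ℂ) z + v‖ ^ 2) : ℝ)), Complex.conj_tsum]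
    refine tsum_congr fun l => ?_
    rw [← map_add, map_mul, map_inv₀, Complex.conj_ofReal, Complex.conj_conj, RCLike.norm_conj]
  · unfold PeriodPair.g₂
    rw [hG, map_mul, map_ofNat]
  · unfold PeriodPair.g₃
    rw [hG, map_mul, map_ofNat]

private theorem Scl_three (L : PeriodPair) {c : ℂ} (hc : c ≠ 0) :
    ∃ M : PeriodPair, ∀ z, inL M z ↔ inL L (c * z) := by
  have hi : LinearIndependent ℝ ![L.ω₁ / c, L.ω₂ / c] := by
    rw [LinearIndependent.pair_iff]
    intro s t h1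
    refine (LinearIndependent.pair_iff.1 L.indep) s t ?_
    rw [Complex.real_smul, Complex.real_smul] at h1 ⊢
    have h2 : (s : ℂ) * L.ω₁ + t * L.ω₂ = c * ((s : ℂ) * (L.ω₁ / c) + t * (L.ω₂ / c)) := by
      field_simp
    rw [h2, h1, mul_zero]
  refine ⟨⟨L.ω₁ / c, L.ω₂ / c, hi⟩, fun z => ?_⟩
  rw [inL_iff, inL_iff]
  refine exists_congr fun m => exists_congr fun n => ?_
  constructor
  · intro h3
    rw [h3]
    field_simp
  · intro h3
    have h4 : z = c⁻¹ * (m * L.ω₁ + n * L.ω₂) := by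
      rw [← h3, inv_mul_cancel_left₀ hc]
    rw [h4]
    field_simp

theorem tScl : G_Scl :=
  ⟨fun _ _ _ hc h => Scl_one hc h, fun _ _ h => Scl_two h, fun L _ hc => Scl_three L hc⟩

end Pool.Agent.DKB
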