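import Pool.Agent.Lib.DK.B.Spec

/-! # Theorem DK, Part B: the addition theorem and the duplication formula (`G_Add`) -/

set_option autoImplicit false

namespace Pool.Agent.DKB

open Complex Filter Topology

private lemma Add_A (h3 : G_ZadA) (h4 : G_ZadB) {L : PeriodPair} {z z' : ℂ} (hz : ¬ inL L z)
    (hz' : ¬ inL L z') (hzz : ¬ inL L (z + z')) :
    4 * (wp L (z + z') + wp L z + wp L z') * (wp L z - wp L z') ^ 2 =
      (wd L z - wd L z') ^ 2 := by
  have e1 := h3 L z z' hz hz' hzz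
  have e2 := h4 L z z' hz hz' hzz
  rw [← e2]
  have e3 : wd L z - wd L z' =
      2 * ((zt L (z + z') - zt L z - zt L z') * (wp L z - wp L z')) := by
    rw [e1]
    ring
  rw [e3]
  ring

private lemma Add_C (h2 : G_Zet) (h3 : G_ZadA) {L : PeriodPair} {z z' : ℂ} (hz : ¬ inL L z)
    (hz' : ¬ inL L z') (hzz : ¬ inL L (z + z')) (hzs : ¬ inL L (z - z')) :
    (zt L (z + z') + zt L (z - z') - 2 * zt L z) * (wp L z - wp L z') = wd L z := by
  have e1 := h3 L z z' hz hz' hzz
  have hn : ¬ inL L (-z') := fun h => hz' (inL_neg_iff.1 h)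
  have e2 := h3 L z (-z') hz hn (by rwa [← sub_eq_add_neg])
  rw [← sub_eq_add_neg, (h2 L).2.1, wp_neg, wd_neg] at e2
  linear_combination e1 + e2

private lemma Add_tan (h1 : G_Exp) (h2 : G_Zet) (h3 : G_ZadA) {L : PeriodPair} {z : ℂ}
    (hz : ¬ inL L z) (hzz : ¬ inL L (z + z)) :
    (zt L (z + z) - 2 * zt L z) * wd L z = (6 * wp L z ^ 2 - L.g₂ / 2) / 2 := by
  have hder := (h1 L).2.1
  have l1 : Tendsto (fun w : ℂ => w⁻¹ * (wp L (z + w) - wp L z)) (𝓝[≠] 0) (𝓝 (wd L z)) := by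
    have d3 := hasDerivAt_iff_tendsto_slope_zero.1 (hasDerivAt_wp hz)
    exact d3.congr' (Eventually.of_forall fun w => by rw [smul_eq_mul])
  have l2 : Tendsto (fun w : ℂ => w⁻¹ * (wd L (z + w) - wd L z)) (𝓝[≠] 0)
      (𝓝 (6 * wp L z ^ 2 - L.g₂ / 2)) := by
    have d3 := hasDerivAt_iff_tendsto_slope_zero.1 (hder z hz)
    exact d3.congr' (Eventually.of_forall fun w => by rw [smul_eq_mul])
  have l3 : Tendsto (fun w : ℂ => zt L (z + (z + w)) - zt L z - zt L (z + w)) (𝓝[≠] 0)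
      (𝓝 (zt L (z + z) - 2 * zt L z)) := by
    have c1 : ContinuousAt (fun w : ℂ => zt L (z + (z + w))) 0 := by
      have d1 : ContinuousAt (zt L) (z + (z + 0)) := by
        rw [add_zero]
        exact ((h2 L).1 _ hzz).continuousAt
      exact ContinuousAt.comp (f := fun w : ℂ => z + (z + w)) d1 (by fun_prop)
    have c2 : ContinuousAt (fun w : ℂ => zt L (z + w)) 0 := by
      have d1 : ContinuousAt (zt L) (z + 0) := by
        rw [add_zero]
        exact ((h2 L).1 _ hz).continuousAt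
      exact ContinuousAt.comp (f := fun w : ℂ => z + w) d1 (by fun_prop)
    have c3 : ContinuousAt (fun w : ℂ => zt L (z + (z + w)) - zt L z - zt L (z + w)) 0 :=
      (c1.sub continuousAt_const).sub c2
    have c4 := c3.tendsto
    simp only [add_zero] at c4
    have e : zt L (z + z) - 2 * zt L z = zt L (z + z) - zt L z - zt L z := by ring
    rw [e]
    exact c4.mono_left nhdsWithin_le_nhds
  have e1 : ∀ᶠ w in 𝓝[≠] (0 : ℂ), ¬ inL L (z + w) := by
    have h := (ev_notL (z := z + 0) (by rwa [add_zero]))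
    have hc : ContinuousAt (fun w : ℂ => z + w) 0 := by fun_prop
    exact (hc.tendsto.eventually h).filter_mono nhdsWithin_le_nhds
  have e2 : ∀ᶠ w in 𝓝[≠] (0 : ℂ), ¬ inL L (z + (z + w)) := by
    have h := (ev_notL (z := z + (z + 0)) (by rwa [add_zero]))
    have hc : ContinuousAt (fun w : ℂ => z + (z + w)) 0 := by fun_prop
    exact (hc.tendsto.eventually h).filter_mono nhdsWithin_le_nhds
  have l4 := l3.mul l1
  have l5 : Tendsto (fun w : ℂ => (w⁻¹ * (wd L (z + w) - wd L z)) / 2) (𝓝[≠] 0)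
      (𝓝 ((6 * wp L z ^ 2 - L.g₂ / 2) / 2)) := l2.div_const 2
  have l6 : Tendsto (fun w : ℂ => (zt L (z + (z + w)) - zt L z - zt L (z + w)) *
      (w⁻¹ * (wp L (z + w) - wp L z))) (𝓝[≠] 0) (𝓝 ((6 * wp L z ^ 2 - L.g₂ / 2) / 2)) := by
    refine l5.congr' ?_
    filter_upwards [e1, e2] with w w1 w2
    have h6 := h3 L z (z + w) hz w1 w2
    linear_combination w⁻¹ * h6
  exact tendsto_nhds_unique l4 l6

theorem tAdd (h1 : G_Exp) (h2 : G_Zet) (h3 : G_ZadA) (h4 : G_ZadB) : G_Add := by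
  intro L
  refine ⟨fun z z' hz hz' hzz => Add_A h3 h4 hz hz' hzz, fun z z' hz hz' hzs => ?_,
    fun z z' hz hz' hzz hzs => Add_C h2 h3 hz hz' hzz hzs, fun z hzz => ?_⟩
  · have hn : ¬ inL L (-z') := fun h => hz' (inL_neg_iff.1 h)
    have e := Add_A h3 h4 hz hn (by rwa [← sub_eq_add_neg])
    rw [← sub_eq_add_neg, wp_neg, wd_neg, sub_neg_eq_add] at e
    exact e
  · have hz : ¬ inL L z := fun h => hzz (inL_add h h)
    have e1 := Add_tan h1 h2 h3 hz hzz
    have e2 := h4 L z z hz hz hzz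
    have e3 : wp L (z + z) + 2 * wp L z = (zt L (z + z) - 2 * zt L z) ^ 2 := by
      linear_combination -e2
    rw [e3]
    linear_combination (4 * ((zt L (z + z) - 2 * zt L z) * wd L z) +
      2 * (6 * wp L z ^ 2 - L.g₂ / 2)) * e1

end Pool.Agent.DKB
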