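import Pool.Agent.Lib.DK.B.Spec

/-! # Theorem DK, Part B: the discriminant is not zero (module Dis) -/

set_option autoImplicit false

namespace Pool.Agent.DKB

open Complex Filter Topology

/-- `℘` does not take a given value near `0`. -/
private theorem Dis_near (h1 : G_Exp) (L : PeriodPair) (e : ℂ) :
    ∀ᶠ h in 𝓝[≠] (0 : ℂ), wp L h ≠ e := by
  obtain ⟨⟨r, r1, hr, -, hE⟩, -, -⟩ := h1 L
  have hrc := hr.continuousAt
  have hc : ContinuousAt (fun h : ℂ => 1 + ca L * h ^ 4 + cb L * h ^ 6 + h ^ 8 * r h - e * h ^ 2)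
      0 := by fun_prop
  have h0 : (fun h : ℂ => 1 + ca L * h ^ 4 + cb L * h ^ 6 + h ^ 8 * r h - e * h ^ 2) 0 ≠ 0 := by
    norm_num
  have hev := (hc.eventually_ne h0).filter_mono (nhdsWithin_le_nhds (s := {(0 : ℂ)}ᶜ))
  filter_upwards [hev, self_mem_nhdsWithin] with h hh hne heq
  have hne' : h ≠ 0 := hne
  apply hh
  have h2 := (hE h hne').1
  rw [heq] at h2
  have h3 : h ^ 2 * (h ^ 2)⁻¹ = 1 := mul_inv_cancel₀ (pow_ne_zero _ hne')
  linear_combination (-h ^ 2) * h2 - h3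

private theorem Dis_first (h1 : G_Exp) (h2 : G_MulB) (L : PeriodPair) (t : ℂ) (ht : ¬ inL L t)
    (htt : inL L (t + t)) : 3 * wp L t ^ 2 - L.g₂ / 4 ≠ 0 := by
  intro hK
  have hne := Dis_near h1 L (wp L t)
  -- near `t` the function is constant
  have ev : ∀ᶠ h in 𝓝[≠] (0 : ℂ), wp L (h + t) = wp L t := by
    filter_upwards [hne, ev_inL L 0, ev_add L t 0] with h k1 k2 k3
    have h4 := (h2 L t ht htt h k2 k3).1
    rw [hK] at h4
    rcases mul_eq_zero.1 h4 with h5 | h5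
    · exact sub_eq_zero.1 h5
    · exact absurd (sub_eq_zero.1 h5) k1
  have ev2 : ∀ᶠ u in 𝓝[≠] t, wp L u = wp L t := by
    have h5 := tendsto_shift (-t) t
    rw [add_neg_cancel] at h5
    filter_upwards [h5.eventually ev] with u hu
    rwa [neg_add_cancel_right] at hu
  have ev3 : wp L =ᶠ[𝓝 t] fun _ => wp L t := by
    rw [eventually_nhdsWithin_iff] at ev2
    filter_upwards [ev2] with u hu
    by_cases hut : u = t
    · rw [hut]
    · exact hu hut
  have hall := AnalyticOnNhd.eqOn_of_preconnected_of_eventuallyEq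
    (f := wp L) (g := fun _ => wp L t) (U := {z : ℂ | ¬ inL L z}) (fun z hz => analyticAt_wp hz)
    (fun z _ => analyticAt_const) preconn_notL ht ev3
  obtain ⟨h, hh⟩ := (hne.and (ev_inL L 0)).exists
  exact hh.1 (hall hh.2)

private theorem Dis_second (h1 : G_Exp) (h2 : G_MulB) (L : PeriodPair) (S T : ℂ)
    (hSS : inL L (S + S)) (hTT : inL L (T + T)) (hS : ¬ inL L S) (hT : ¬ inL L T)
    (hST : ¬ inL L (S + T)) :
    wp L S ≠ wp L T ∧ wp L (S + T) ≠ wp L S ∧ wp L (S + T) ≠ wp L T ∧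
    wp L S + wp L T + wp L (S + T) = 0 ∧
    L.g₂ = 4 * (wp L S ^ 2 + wp L S * wp L T + wp L T ^ 2) ∧
    L.g₃ = 4 * wp L S * wp L T * wp L (S + T) := by
  have hTn := Dis_first h1 h2 L T hT hTT
  have hSn := Dis_first h1 h2 L S hS hSS
  have a1 := (h2 L T hT hTT S hS hST).1
  have hTS : ¬ inL L (T + S) := by rwa [add_comm]
  have a2 := (h2 L S hS hSS T hT hTS).1
  have b1 : wp L S ≠ wp L T := by
    intro h
    apply hTn
    rw [← a1, h, sub_self, mul_zero]
  have b2 : wp L (S + T) ≠ wp L S := by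
    intro h
    apply hSn
    rw [← a2, add_comm T S, h, sub_self, zero_mul]
  have b3 : wp L (S + T) ≠ wp L T := by
    intro h
    apply hTn
    rw [← a1, h, sub_self, zero_mul]
  have hSTST : inL L ((S + T) + (S + T)) := by
    have := inL_add hSS hTT
    have e : S + S + (T + T) = S + T + (S + T) := by ring
    rwa [e] at this
  have c1 := wd_sq hS
  have c2 := wd_sq hT
  have c3 := wd_sq hST
  rw [wd_half hSS] at c1
  rw [wd_half hTT] at c2
  rw [wd_half hSTST] at c3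
  obtain ⟨a, ha⟩ : ∃ a, a = wp L S := ⟨_, rfl⟩
  obtain ⟨b, hb⟩ : ∃ b, b = wp L T := ⟨_, rfl⟩
  obtain ⟨c, hc⟩ : ∃ c, c = wp L (S + T) := ⟨_, rfl⟩
  rw [← ha] at c1 b1 b2
  rw [← hb] at c2 b1 b3
  rw [← hc] at c3 b2 b3
  rw [← ha, ← hb, ← hc]
  have d1 : (a - b) * (4 * (a ^ 2 + a * b + b ^ 2) - L.g₂) = 0 := by
    linear_combination c2 - c1
  have d2 : (a - c) * (4 * (a ^ 2 + a * c + c ^ 2) - L.g₂) = 0 := by
    linear_combination c3 - c1
  have e1 : 4 * (a ^ 2 + a * b + b ^ 2) - L.g₂ = 0 :=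
    (mul_eq_zero.1 d1).resolve_left (sub_ne_zero.2 b1)
  have e2 : 4 * (a ^ 2 + a * c + c ^ 2) - L.g₂ = 0 :=
    (mul_eq_zero.1 d2).resolve_left (sub_ne_zero.2 (Ne.symm b2))
  have e3 : (b - c) * (a + b + c) = 0 := by
    linear_combination (1 / 4 : ℂ) * e1 - (1 / 4 : ℂ) * e2
  have e4 : a + b + c = 0 := (mul_eq_zero.1 e3).resolve_left (sub_ne_zero.2 (Ne.symm b3))
  refine ⟨b1, b2, b3, e4, ?_, ?_⟩
  · linear_combination -e1
  · linear_combination c1 + a * e1 - 4 * a * b * e4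

theorem tDis (h1 : G_Exp) (h2 : G_MulB) : G_Dis := by
  intro L
  refine ⟨Dis_first h1 h2 L, Dis_second h1 h2 L, ?_⟩
  intro z hz hd hK
  have hS2 : inL L (L.ω₁ / 2 + L.ω₁ / 2) := by
    rw [add_halves]
    exact inL_o1
  have hT2 : inL L (L.ω₂ / 2 + L.ω₂ / 2) := by
    rw [add_halves]
    exact inL_o2
  have hST : ¬ inL L (L.ω₁ / 2 + L.ω₂ / 2) := by
    intro h
    have h3 : (((1 / 2 : ℚ)) : ℂ) * L.ω₁ + (((1 / 2 : ℚ)) : ℂ) * L.ω₂ ∈ L.lattice := by
      have e : (((1 / 2 : ℚ)) : ℂ) * L.ω₁ + (((1 / 2 : ℚ)) : ℂ) * L.ω₂ =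
          L.ω₁ / 2 + L.ω₂ / 2 := by
        push_cast
        ring
      rw [e]
      exact h
    have h4 := (PeriodPair.mul_ω₁_add_mul_ω₂_mem_lattice).1 h3
    norm_num at h4
  have hs := wd_sq hz
  rw [hd] at hs
  obtain ⟨e, he⟩ : ∃ e, e = wp L z := ⟨_, rfl⟩
  rw [← he] at hs hK
  have g2 : L.g₂ = 12 * e ^ 2 := by linear_combination (-2 : ℂ) * hK
  have g3 : L.g₃ = -8 * e ^ 3 := by linear_combination hs - e * g2
  -- every point of order two has the value `-2 e`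
  have key : ∀ t : ℂ, ¬ inL L t → inL L (t + t) → wp L t = -2 * e := by
    intro t ht htt
    have a1 := Dis_first h1 h2 L t ht htt
    have a2 := wd_sq ht
    rw [wd_half htt, g2, g3] at a2
    rw [g2] at a1
    have a3 : (wp L t - e) ^ 2 * (wp L t - -2 * e) = 0 := by linear_combination (-1 / 4 : ℂ) * a2
    rcases mul_eq_zero.1 a3 with h | h
    · exfalso
      apply a1
      have h5 := sub_eq_zero.1 ((pow_eq_zero_iff two_ne_zero).1 h)
      rw [h5]
      ring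
    · exact sub_eq_zero.1 h
  have hne := (Dis_second h1 h2 L _ _ hS2 hT2 notL_h1 notL_h2 hST).1
  apply hne
  rw [key _ notL_h1 hS2, key _ notL_h2 hT2]

end Pool.Agent.DKB
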