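import Pool.Agent.Lib.DK.B.Spec

/-! # Theorem DK, Part B: injectivity of `℘` modulo `±1` and the lattice (module Inj) -/

set_option autoImplicit false

namespace Pool.Agent.DKB

open Complex Filter Topology

variable {L : PeriodPair}

private theorem Inj_A (h2 : G_ZadA) (h3 : G_ZadB) {z z' : ℂ} (hz : ¬ inL L z) (hz' : ¬ inL L z')
    (hs : ¬ inL L (z + z')) :
    (wp L z - wp L z') ^ 2 * (wp L (z + z') + wp L z + wp L z') = (wd L z - wd L z') ^ 2 / 4 := by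
  have a := h2 L z z' hz hz' hs
  have b := h3 L z z' hz hz' hs
  rw [← b]
  linear_combination
    ((zt L (z + z') - zt L z - zt L z') * (wp L z - wp L z') + (wd L z - wd L z') / 2) * a

private theorem Inj_key (h1 : G_Exp) (h2 : G_ZadA) (h3 : G_ZadB) (h4 : G_Dis) {z₁ z₂ : ℂ}
    (n1 : ¬ inL L z₁) (n2 : ¬ inL L z₂) (n3 : ¬ inL L (z₁ + z₂)) (e : wp L z₁ = wp L z₂)
    (e1 : wd L z₁ = 0) (e2 : wd L z₂ = 0) : False := by
  have hD := (h4 L).2.2 z₁ n1 e1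
  obtain ⟨-, -, hE⟩ := h1 L
  obtain ⟨r, r1, hr, hr1, hh⟩ := hE z₁ n1
  have ev : (fun h : ℂ => h ^ 2 * ((3 * wp L z₁ ^ 2 - L.g₂ / 4) + h * r h) ^ 2 *
      (wp L (z₁ + z₂ + h) + wp L (z₁ + h) + wp L z₂)) =ᶠ[𝓝[≠] (0 : ℂ)]
      fun h : ℂ => ((6 * wp L z₁ ^ 2 - L.g₂ / 2) + h * r1 h) ^ 2 / 4 := by
    have c1 : ∀ᶠ h in 𝓝[≠] (0 : ℂ), ¬ inL L (h + z₁) := ev_add L z₁ 0
    have c2 : ∀ᶠ h in 𝓝[≠] (0 : ℂ), ¬ inL L (h + (z₁ + z₂)) := ev_add L _ 0
    filter_upwards [c1, c2, self_mem_nhdsWithin] with h k1 k2 k3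
    have k3' : h ≠ 0 := k3
    have hA := Inj_A h2 h3 (z := z₁ + h) (z' := z₂) (by rwa [add_comm]) n2
      (by rwa [show z₁ + h + z₂ = h + (z₁ + z₂) by ring])
    obtain ⟨a1, a2⟩ := hh h
    rw [show z₁ + h + z₂ = z₁ + z₂ + h by ring] at hA
    have b1 : wp L (z₁ + h) - wp L z₂ = h ^ 2 * ((3 * wp L z₁ ^ 2 - L.g₂ / 4) + h * r h) := by
      rw [a1, ← e, e1]
      ring
    have b2 : wd L (z₁ + h) - wd L z₂ = h * ((6 * wp L z₁ ^ 2 - L.g₂ / 2) + h * r1 h) := by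
      rw [a2, e2, e1]
      ring
    rw [b1, b2] at hA
    have h2ne : h ^ 2 ≠ 0 := pow_ne_zero _ k3'
    refine mul_left_cancel₀ h2ne ?_
    linear_combination hA
  have w1 : ContinuousAt (fun h : ℂ => wp L (z₁ + z₂ + h)) 0 := by
    refine ContinuousAt.comp (f := fun h : ℂ => z₁ + z₂ + h) (g := wp L) ?_ (by fun_prop)
    rw [add_zero]
    exact (analyticAt_wp n3).continuousAt
  have w2 : ContinuousAt (fun h : ℂ => wp L (z₁ + h)) 0 := by
    refine ContinuousAt.comp (f := fun h : ℂ => z₁ + h) (g := wp L) ?_ (by fun_prop)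
    rw [add_zero]
    exact (analyticAt_wp n1).continuousAt
  have hrc := hr.continuousAt
  have hrc1 := hr1.continuousAt
  have cl : ContinuousAt (fun h : ℂ => h ^ 2 * ((3 * wp L z₁ ^ 2 - L.g₂ / 4) + h * r h) ^ 2 *
      (wp L (z₁ + z₂ + h) + wp L (z₁ + h) + wp L z₂)) 0 := by fun_prop
  have cr : ContinuousAt (fun h : ℂ => ((6 * wp L z₁ ^ 2 - L.g₂ / 2) + h * r1 h) ^ 2 / 4) 0 := by
    fun_prop
  have t1 := (cl.tendsto.mono_left nhdsWithin_le_nhds).congr' ev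
  have t2 := cr.tendsto.mono_left (nhdsWithin_le_nhds (s := {(0 : ℂ)}ᶜ))
  have t3 := tendsto_nhds_unique t1 t2
  have t4 : (6 * wp L z₁ ^ 2 - L.g₂ / 2) ^ 2 = 0 := by
    linear_combination (-4 : ℂ) * t3
  exact hD ((pow_eq_zero_iff two_ne_zero).1 t4)

theorem tInj (h1 : G_Exp) (h2 : G_ZadA) (h3 : G_ZadB) (h4 : G_Dis) : G_Inj := by
  intro L
  refine ⟨?_, ?_⟩
  · intro z z' hz hz'
    constructor
    · intro e
      by_contra hcon
      rw [not_or] at hcon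
      obtain ⟨n1, n2⟩ := hcon
      have a1 := Inj_A h2 h3 hz hz' n2
      have hz'' : ¬ inL L (-z') := fun h => hz' (inL_neg_iff.1 h)
      have a2 := Inj_A h2 h3 hz hz'' (by rwa [← sub_eq_add_neg])
      rw [wp_neg, wd_neg] at a2
      rw [e, sub_self] at a1 a2
      have b1 : (wd L z - wd L z') ^ 2 = 0 := by linear_combination (-4 : ℂ) * a1
      have b2 : (wd L z - -wd L z') ^ 2 = 0 := by linear_combination (-4 : ℂ) * a2
      have c1 := (pow_eq_zero_iff two_ne_zero).1 b1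
      have c2 := (pow_eq_zero_iff two_ne_zero).1 b2
      have d1 : wd L z = 0 := by linear_combination (1 / 2 : ℂ) * c1 + (1 / 2 : ℂ) * c2
      have d2 : wd L z' = 0 := by linear_combination (-1 / 2 : ℂ) * c1 + (1 / 2 : ℂ) * c2
      exact Inj_key h1 h2 h3 h4 hz hz' n2 e d1 d2
    · rintro (h | h)
      · exact wp_congr h
      · rw [← wp_neg z']
        exact wp_congr (by rwa [sub_neg_eq_add])
  · intro z hz
    constructor
    · intro h0
      by_contra hn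
      exact Inj_key h1 h2 h3 h4 hz hz hn rfl h0 h0
    · exact wd_half

end Pool.Agent.DKB
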