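import Pool.Agent.Lib.DK.B.Spec

/-! # Theorem DK, Part B, module KA: the limit of the regularised series (an arbitrary lattice) -/

set_option autoImplicit false

namespace Pool.Agent.DKB

open Complex Filter Topology
open DI (S_KQ qq)

private theorem KA_ne {L : PeriodPair} {v : L.lattice} (hv : v ≠ 0) : (v : ℂ) ≠ 0 := fun h =>
  hv (Subtype.ext h)

private theorem KA_ev_ne (L : PeriodPair) : ∀ᶠ v : L.lattice in cofinite, v ≠ 0 := by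
  have h : ({0}ᶜ : Set L.lattice) ∈ (cofinite : Filter L.lattice) :=
    (Set.finite_singleton (0 : L.lattice)).compl_mem_cofinite
  filter_upwards [h] with v hv
  exact hv

private theorem KA_ev_norm (L : PeriodPair) (R : ℝ) : ∀ᶠ v : L.lattice in cofinite, R ≤ ‖(v : ℂ)‖ := by
  have h := (sum3 L 0).tendsto_cofinite_zero
  have hR : 0 < ((|R| + 1) ^ 3)⁻¹ := by positivity
  have h1 : ∀ᶠ v : L.lattice in cofinite, (‖0 + (v : ℂ)‖ ^ 3)⁻¹ < ((|R| + 1) ^ 3)⁻¹ :=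
    h.eventually (gt_mem_nhds hR)
  filter_upwards [h1, KA_ev_ne L] with v hv hv0
  by_contra h2
  rw [not_le] at h2
  rw [zero_add] at hv
  have h3 : 0 < ‖(v : ℂ)‖ := norm_pos_iff.2 (KA_ne hv0)
  have h4 : ‖(v : ℂ)‖ ≤ |R| + 1 := by
    have := le_abs_self R
    linarith
  have h5 : ‖(v : ℂ)‖ ^ 3 ≤ (|R| + 1) ^ 3 := pow_le_pow_left₀ h3.le h4 3
  have h6 : ((|R| + 1) ^ 3)⁻¹ ≤ (‖(v : ℂ)‖ ^ 3)⁻¹ := inv_anti₀ (by positivity) h5
  linarith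

private theorem KA_norm_exp (x : ℝ) : ‖((Real.exp x : ℝ) : ℂ)‖ = Real.exp x := by
  rw [Complex.norm_real, Real.norm_of_nonneg (Real.exp_pos x).le]

private theorem KA_exp_bound {x : ℝ} (hx : 0 < x) : Real.exp (-x) ≤ 2 / x ^ 2 := by
  have h1 := Real.quadratic_le_exp_of_nonneg hx.le
  have h2 : x ^ 2 / 2 ≤ Real.exp x := by linarith
  rw [Real.exp_neg, le_div_iff₀ (by positivity), inv_mul_le_iff₀ (Real.exp_pos x)]
  linarith

/-- The sum of the exponentials converges. -/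
private theorem KA_sumE (L : PeriodPair) {t : ℝ} (ht : 0 < t) :
    Summable fun v : L.lattice => ((Real.exp (-t * ‖(v : ℂ)‖ ^ 2) : ℝ) : ℂ) := by
  obtain ⟨δ, hδ, hδv⟩ := norm_ge L
  refine Summable.of_norm_bounded_eventually
    (g := fun v : L.lattice => 2 / (t ^ 2 * δ) * (‖0 + (v : ℂ)‖ ^ 3)⁻¹) ((sum3 L 0).mul_left _) ?_
  filter_upwards [KA_ev_ne L] with v hv
  rw [KA_norm_exp, zero_add]
  have h1 : δ ≤ ‖(v : ℂ)‖ := hδv _ v.2 (KA_ne hv)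
  have h0 : 0 < ‖(v : ℂ)‖ := lt_of_lt_of_le hδ h1
  have h2 : 0 < t * ‖(v : ℂ)‖ ^ 2 := by positivity
  have h3 := KA_exp_bound h2
  rw [← neg_mul] at h3
  refine h3.trans ?_
  have h4 : 2 / (t ^ 2 * δ) * (‖(v : ℂ)‖ ^ 3)⁻¹ = 2 / (t ^ 2 * ‖(v : ℂ)‖ ^ 3 * δ) := by
    field_simp
  rw [h4]
  refine div_le_div_of_nonneg_left (by norm_num) (by positivity) ?_
  have h5 : (t * ‖(v : ℂ)‖ ^ 2) ^ 2 = t ^ 2 * ‖(v : ℂ)‖ ^ 3 * ‖(v : ℂ)‖ := by ring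
  rw [h5]
  exact mul_le_mul_of_nonneg_left h1 (by positivity)

private theorem KA_sumA (L : PeriodPair) {t : ℝ} (ht : 0 < t) :
    Summable fun v : L.lattice => (Real.exp (-t * ‖(v : ℂ)‖ ^ 2) : ℂ) / (v : ℂ) ^ 2 +
      t * ((starRingEnd ℂ) (v : ℂ) / (v : ℂ)) * (Real.exp (-t * ‖(v : ℂ)‖ ^ 2) : ℂ) := by
  obtain ⟨δ, hδ, hδv⟩ := norm_ge L
  refine Summable.of_norm_bounded
    (g := fun v : L.lattice => ((δ ^ 2)⁻¹ + t) * ‖((Real.exp (-t * ‖(v : ℂ)‖ ^ 2) : ℝ) : ℂ)‖)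
    ((KA_sumE L ht).norm.mul_left _) fun v => ?_
  by_cases hv : v = 0
  · rw [hv]
    simp only [ZeroMemClass.coe_zero, ne_eq, OfNat.ofNat_ne_zero, not_false_eq_true, zero_pow, div_zero,
      map_zero, mul_zero, zero_mul, add_zero, norm_zero]
    positivity
  · have h1 : δ ≤ ‖(v : ℂ)‖ := hδv _ v.2 (KA_ne hv)
    have h0 : 0 < ‖(v : ℂ)‖ := lt_of_lt_of_le hδ h1
    have ht' : ‖(t : ℂ)‖ = t := by rw [Complex.norm_real, Real.norm_of_nonneg ht.le]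
    refine (norm_add_le _ _).trans ?_
    rw [norm_div, norm_mul, norm_mul, norm_div, norm_pow, Complex.norm_conj, ht', div_self h0.ne',
      mul_one, add_mul]
    refine add_le_add ?_ le_rfl
    rw [div_eq_inv_mul]
    refine mul_le_mul_of_nonneg_right ?_ (norm_nonneg _)
    exact inv_anti₀ (by positivity) (pow_le_pow_left₀ hδ.le h1 2)

private theorem KA_sumZ {L : PeriodPair} {z : ℂ} (hz : ¬ inL L z) :
    HasSum (fun v : L.lattice => (z + (v : ℂ))⁻¹ - (v : ℂ)⁻¹ + z / (v : ℂ) ^ 2) (zt L z) := by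
  have h1 : Summable (fun v : L.lattice => (z + (v : ℂ))⁻¹ - (v : ℂ)⁻¹ + z / (v : ℂ) ^ 2) := by
    refine Summable.of_norm_bounded_eventually
      (g := fun v : L.lattice => 2 * ‖z‖ ^ 2 * (‖0 + (v : ℂ)‖ ^ 3)⁻¹) ((sum3 L 0).mul_left _) ?_
    filter_upwards [KA_ev_ne L, KA_ev_norm L (2 * ‖z‖)] with v hv hv2
    have h2 : (v : ℂ) ≠ 0 := KA_ne hv
    have h3 : z + (v : ℂ) ≠ 0 := by
      intro h4
      refine hz ?_
      have h5 : z = -(v : ℂ) := by linear_combination h4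
      rw [h5]
      exact inL_neg (inL_coe v)
    have h4 : (z + (v : ℂ))⁻¹ - (v : ℂ)⁻¹ + z / (v : ℂ) ^ 2 =
        z ^ 2 / ((v : ℂ) ^ 2 * (z + (v : ℂ))) := by
      field_simp
      ring
    have h5 : 0 < ‖(v : ℂ)‖ := norm_pos_iff.2 h2
    have h6 : ‖(v : ℂ)‖ / 2 ≤ ‖z + (v : ℂ)‖ := by
      have h7 : ‖(v : ℂ)‖ ≤ ‖z + (v : ℂ)‖ + ‖z‖ := by
        have h8 : (v : ℂ) = (z + (v : ℂ)) - z := by ring
        calc ‖(v : ℂ)‖ = ‖(z + (v : ℂ)) - z‖ := by rw [← h8]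
          _ ≤ ‖z + (v : ℂ)‖ + ‖z‖ := norm_sub_le _ _
      linarith
    rw [h4, zero_add, norm_div, norm_mul, norm_pow, norm_pow, div_le_iff₀ (by positivity)]
    have h7 : 2 * ‖z‖ ^ 2 * (‖(v : ℂ)‖ ^ 3)⁻¹ * (‖(v : ℂ)‖ ^ 2 * (‖(v : ℂ)‖ / 2)) = ‖z‖ ^ 2 := by
      field_simp
    calc ‖z‖ ^ 2 = 2 * ‖z‖ ^ 2 * (‖(v : ℂ)‖ ^ 3)⁻¹ * (‖(v : ℂ)‖ ^ 2 * (‖(v : ℂ)‖ / 2)) := h7.symm
      _ ≤ 2 * ‖z‖ ^ 2 * (‖(v : ℂ)‖ ^ 3)⁻¹ * (‖(v : ℂ)‖ ^ 2 * ‖z + (v : ℂ)‖) := by gcongr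
  have h2 : ∑' v : L.lattice, ((z + (v : ℂ))⁻¹ - (v : ℂ)⁻¹ + z / (v : ℂ) ^ 2) = zt L z := by
    unfold zt
    rw [← Equiv.tsum_eq (Equiv.neg L.lattice)]
    refine tsum_congr fun v => ?_
    rw [Equiv.neg_apply, NegMemClass.coe_neg, ← sub_eq_add_neg, neg_sq, one_div, one_div, inv_neg]
    ring
  rw [← h2]
  exact h1.hasSum

private theorem KA_qq_cont (z x : ℂ) : Continuous fun t : ℝ => qq z t x := by
  unfold qq
  fun_prop

private theorem KA_qq_zero (z x : ℂ) : qq z 0 x = 0 := by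
  unfold qq
  simp only [neg_zero, zero_mul, Real.exp_zero, Complex.ofReal_one, Complex.ofReal_zero, mul_zero,
    add_zero, mul_one, one_div]
  ring

/-- **The limit of the regularised series**, up to a linear function. -/
theorem tKA (h1 : G_KS) (h2 : DI.S_KQ) : G_KA := by
  intro L
  refine ⟨fun t => ∑' v : L.lattice, ((Real.exp (-t * ‖(v : ℂ)‖ ^ 2) : ℂ) / (v : ℂ) ^ 2 +
      t * ((starRingEnd ℂ) (v : ℂ) / (v : ℂ)) * (Real.exp (-t * ‖(v : ℂ)‖ ^ 2) : ℂ)),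
    fun t => ∑' v : L.lattice, (t : ℂ) * (Real.exp (-t * ‖(v : ℂ)‖ ^ 2) : ℂ), fun z hz => ?_⟩
  obtain ⟨k1, -, k3⟩ := h1 L
  have hK0 : ∀ t : ℝ, KK L t 0 = 0 := by
    intro t
    have h3 := k3 t 0
    rw [neg_zero] at h3
    have h4 : KK L t 0 + KK L t 0 = 0 := by linear_combination h3
    have h5 : (2 : ℂ) * KK L t 0 = 0 := by rw [two_mul]; exact h4
    rcases mul_eq_zero.1 h5 with h6 | h6
    · norm_num at h6
    · exact h6
  -- the identity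
  have key : ∀ t : ℝ, 0 < t →
      KK L t z + (∑' v : L.lattice, ((Real.exp (-t * ‖(v : ℂ)‖ ^ 2) : ℂ) / (v : ℂ) ^ 2 +
        t * ((starRingEnd ℂ) (v : ℂ) / (v : ℂ)) * (Real.exp (-t * ‖(v : ℂ)‖ ^ 2) : ℂ))) * z +
      (∑' v : L.lattice, (t : ℂ) * (Real.exp (-t * ‖(v : ℂ)‖ ^ 2) : ℂ)) * (starRingEnd ℂ) z =
      (∑' v : L.lattice, qq z t (v : ℂ)) + zt L z := by
    intro t ht
    have s1 : HasSum (fun v : L.lattice => (z + (v : ℂ))⁻¹ *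
        (Real.exp (-t * ‖z + (v : ℂ)‖ ^ 2) : ℂ)) (KK L t z) := (k1 t ht z).hasSum
    have s2 := (KA_sumA L ht).hasSum
    have s3 := ((KA_sumE L ht).mul_left (t : ℂ)).hasSum
    have s4 : HasSum (fun v : L.lattice => (Real.exp (-t * ‖(v : ℂ)‖ ^ 2) : ℂ) / (v : ℂ)) 0 := by
      have h5 := (k1 t ht 0).hasSum
      have h6 : ∑' v : L.lattice, (0 + (v : ℂ))⁻¹ * (Real.exp (-t * ‖0 + (v : ℂ)‖ ^ 2) : ℂ) = 0 :=
        hK0 t
      rw [h6] at h5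
      refine h5.congr_fun ?_
      intro v
      rw [zero_add, div_eq_mul_inv, mul_comm]
    have s5 := KA_sumZ hz
    have s6 := (((s1.add (s2.mul_left z)).add (s3.mul_left ((starRingEnd ℂ) z))).sub s4).sub s5
    have s7 : ∑' v : L.lattice, qq z t (v : ℂ) = _ := s6.tsum_eq
    rw [s7]
    ring
  have lim : Tendsto (fun t : ℝ => ∑' v : L.lattice, qq z t (v : ℂ)) (𝓝[>] 0)
      (𝓝 (∑' _ : L.lattice, (0 : ℂ))) := by
    have hM : ∀ v : L.lattice, ∃ C : ℝ, ∀ t ∈ Set.Icc (0 : ℝ) 1, ‖qq z t (v : ℂ)‖ ≤ C := fun v =>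
      isCompact_Icc.exists_bound_of_continuousOn (KA_qq_cont z (v : ℂ)).continuousOn
    choose M hM using hM
    classical
    refine tendsto_tsum_of_dominated_convergence
      (bound := fun v : L.lattice =>
        if v ≠ 0 ∧ 5 * ‖z‖ ≤ ‖(v : ℂ)‖ then 300 * ‖z‖ ^ 2 / ‖(v : ℂ)‖ ^ 3 else M v) ?_ ?_ ?_
    · have h3 : Summable fun v : L.lattice => 300 * ‖z‖ ^ 2 / ‖(v : ℂ)‖ ^ 3 := by
        have h4 := (sum3 L 0).mul_left (300 * ‖z‖ ^ 2)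
        refine h4.congr fun v => ?_
        rw [zero_add, div_eq_mul_inv]
      refine h3.congr_cofinite ?_
      filter_upwards [KA_ev_ne L, KA_ev_norm L (5 * ‖z‖)] with v hv hv2
      rw [if_pos ⟨hv, hv2⟩]
    · intro v
      have h3 := (KA_qq_cont z (v : ℂ)).tendsto 0
      rw [KA_qq_zero] at h3
      exact h3.mono_left nhdsWithin_le_nhds
    · have h3 : Set.Ioc (0 : ℝ) 1 ∈ 𝓝[>] (0 : ℝ) := Ioc_mem_nhdsGT one_pos
      filter_upwards [h3] with t ht v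
      by_cases hv : v ≠ 0 ∧ 5 * ‖z‖ ≤ ‖(v : ℂ)‖
      · rw [if_pos hv]
        exact h2 z (v : ℂ) t ht.1 (KA_ne hv.1) hv.2
      · rw [if_neg hv]
        exact hM v t ⟨ht.1.le, ht.2⟩
  rw [tsum_zero] at lim
  have lim2 := lim.add_const (zt L z)
  rw [zero_add] at lim2
  refine lim2.congr' ?_
  filter_upwards [self_mem_nhdsWithin] with t ht
  exact (key t ht).symm

end Pool.Agent.DKB
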