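import Pool.Agent.Lib.DK.B.Spec

/-! # Theorem DK, Part B, module KB: the periodic zeta function -/

set_option autoImplicit false

namespace Pool.Agent.DKB

open Complex Filter Topology

private theorem KB_diff (h1 : G_Zet) (h2 : G_KS) (L : PeriodPair) {A B : ℝ → ℂ}
    (hAB : ∀ z : ℂ, ¬ inL L z →
      Tendsto (fun t : ℝ => KK L t z + A t * z + B t * (starRingEnd ℂ) z) (𝓝[>] 0) (𝓝 (zt L z)))
    (v : ℂ) (hv : inL L v) : Tendsto (fun t : ℝ => A t * v + B t * (starRingEnd ℂ) v) (𝓝[>] 0)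
      (𝓝 (al L * v + be L * (starRingEnd ℂ) v)) := by
  have e1 := hAB (L.ω₁ / 2 + v) (fun h => notL_h1 ((inL_add_iff hv).1 h))
  have e2 := hAB (L.ω₁ / 2) notL_h1
  have e3 := e1.sub e2
  rw [(h1 L).2.2.1 (L.ω₁ / 2) v notL_h1 hv, add_sub_cancel_left] at e3
  refine e3.congr fun t => ?_
  rw [(h2 L).2.1 t (L.ω₁ / 2) v hv, map_add]
  ring

private theorem KB_lim (h1 : G_Zet) (h2 : G_KS) (h3 : G_KA) (L : PeriodPair) :
    ∀ z : ℂ, ¬ inL L z → Tendsto (fun t : ℝ => KK L t z) (𝓝[>] 0) (𝓝 (kz L z)) := by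
  obtain ⟨A, B, hAB⟩ := h3 L
  have e1 := KB_diff h1 h2 L hAB L.ω₁ inL_o1
  have e2 := KB_diff h1 h2 L hAB L.ω₂ inL_o2
  have hne := im_ne L
  have ho1 := o1_ne L
  have e3 : Tendsto B (𝓝[>] 0) (𝓝 (be L)) := by
    have h := ((e2.mul_const L.ω₁).sub (e1.mul_const L.ω₂)).div_const
      ((starRingEnd ℂ) L.ω₂ * L.ω₁ - (starRingEnd ℂ) L.ω₁ * L.ω₂)
    have e : ((al L * L.ω₂ + be L * (starRingEnd ℂ) L.ω₂) * L.ω₁ -
        (al L * L.ω₁ + be L * (starRingEnd ℂ) L.ω₁) * L.ω₂) /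
        ((starRingEnd ℂ) L.ω₂ * L.ω₁ - (starRingEnd ℂ) L.ω₁ * L.ω₂) = be L := by
      rw [div_eq_iff hne]
      ring
    rw [e] at h
    refine h.congr fun t => ?_
    rw [div_eq_iff hne]
    ring
  have e4 : Tendsto A (𝓝[>] 0) (𝓝 (al L)) := by
    have h := (e1.sub (e3.mul_const ((starRingEnd ℂ) L.ω₁))).div_const L.ω₁
    have e : (al L * L.ω₁ + be L * (starRingEnd ℂ) L.ω₁ - be L * (starRingEnd ℂ) L.ω₁) / L.ω₁ =
        al L := by
      rw [div_eq_iff ho1]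
      ring
    rw [e] at h
    refine h.congr fun t => ?_
    rw [div_eq_iff ho1]
    ring
  intro z hz
  have h := ((hAB z hz).sub (e4.mul_const z)).sub (e3.mul_const ((starRingEnd ℂ) z))
  refine h.congr fun t => ?_
  ring

theorem tKB (h1 : G_Zet) (h2 : G_KS) (h3 : G_KA) (h4 : G_KD) : G_KB := by
  intro L
  have hlim := KB_lim h1 h2 h3
  refine ⟨hlim L, ?_, ?_, ?_⟩
  · intro z v hz hv
    have hz' : ¬ inL L (z + v) := fun h => hz ((inL_add_iff hv).1 h)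
    refine tendsto_nhds_unique (hlim L (z + v) hz') ((hlim L z hz).congr fun t => ?_)
    rw [(h2 L).2.1 t z v hv]
  · intro z
    unfold kz
    rw [(h1 L).2.1 z, map_neg]
    ring
  · intro M R hR z hz
    have e1 : Tendsto (fun t : ℝ => ∑ u ∈ R, KK L t (z + u)) (𝓝[>] 0)
        (𝓝 (∑ u ∈ R, kz L (z + u))) := by
      refine tendsto_finsetSum R fun u hu => hlim L (z + u) fun h => hz ?_
      exact (inL_add_iff (hR.mem u hu)).1 (hR.le _ h)
    refine tendsto_nhds_unique (hlim M z hz) (e1.congr' ?_)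
    filter_upwards [self_mem_nhdsWithin] with t ht
    rw [h4 L M R hR t ht z]

end Pool.Agent.DKB
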