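import Pool.Agent.Lib.DK.B.Spec

/-! # Theorem DK, Part B, module KD: distribution of the regularised series (helper84) -/

set_option autoImplicit false

noncomputable section

namespace Pool.Agent.DKB

open Complex Filter Topology

theorem tKD (h1 : G_KS) : G_KD := by
  intro L M R hR t ht z
  obtain ⟨g, hgd⟩ : ∃ g : R × L.lattice → M.lattice, ∀ p, (g p : ℂ) = (p.1 : ℂ) + (p.2 : ℂ) :=
    ⟨fun p => ⟨(p.1 : ℂ) + (p.2 : ℂ),
      inL_add (hR.mem p.1.1 p.1.2) (hR.le _ (inL_coe p.2))⟩, fun p => rfl⟩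
  have hbij : Function.Bijective g := by
    constructor
    · rintro ⟨u, v⟩ ⟨u', v'⟩ h
      have h3 : (u : ℂ) + (v : ℂ) = (u' : ℂ) + (v' : ℂ) := by
        have h2 := congrArg (fun x : M.lattice => (x : ℂ)) h
        simp only [hgd] at h2
        exact h2
      have h4 : inL L ((u : ℂ) - u') := by
        have h5 : (u : ℂ) - u' = (v' : ℂ) - (v : ℂ) := by linear_combination h3
        rw [h5]
        exact inL_sub (inL_coe v') (inL_coe v)
      have h5 : u = u' := Subtype.ext (hR.uni u u.2 u' u'.2 h4)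
      rw [h5] at h3
      have h6 : v = v' := Subtype.ext (add_left_cancel h3)
      rw [h5, h6]
    · intro m
      obtain ⟨u, hu, h⟩ := hR.ex (m : ℂ) (inL_coe m)
      refine ⟨(⟨u, hu⟩, ⟨(m : ℂ) - u, h⟩), Subtype.ext ?_⟩
      rw [hgd]
      exact add_sub_cancel u (m : ℂ)
  have hs := (h1 M).1 t ht z
  have hterm : ∀ p : R × L.lattice, (z + (((Equiv.ofBijective g hbij) p : M.lattice) : ℂ))⁻¹ *
      ((Real.exp (-t * ‖z + (((Equiv.ofBijective g hbij) p : M.lattice) : ℂ)‖ ^ 2) : ℝ) : ℂ) =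
      (z + (p.1 : ℂ) + (p.2 : ℂ))⁻¹ *
        ((Real.exp (-t * ‖z + (p.1 : ℂ) + (p.2 : ℂ)‖ ^ 2) : ℝ) : ℂ) := by
    intro p
    rw [Equiv.ofBijective_apply, hgd, add_assoc]
  have hs2 : Summable fun p : R × L.lattice =>
      (z + (p.1 : ℂ) + (p.2 : ℂ))⁻¹ *
        ((Real.exp (-t * ‖z + (p.1 : ℂ) + (p.2 : ℂ)‖ ^ 2) : ℝ) : ℂ) := by
    refine ((Equiv.summable_iff (Equiv.ofBijective g hbij)).2 hs).congr fun p => ?_
    exact hterm p
  unfold KK
  rw [← Equiv.tsum_eq (Equiv.ofBijective g hbij), tsum_congr hterm, hs2.tsum_prod,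
    tsum_fintype, ← Finset.sum_coe_sort R]

end Pool.Agent.DKB
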