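import Pool.Agent.Lib.DK.B.Spec

/-! # Theorem DK, Part B, module KS: the regularised series -/

set_option autoImplicit false

namespace Pool.Agent.DKB

open Complex Filter Topology

/-- the summand -/
private noncomputable def KS_f (t : ℝ) (x : ℂ) : ℂ := x⁻¹ * (Real.exp (-t * ‖x‖ ^ 2) : ℂ)

private theorem KS_KK (L : PeriodPair) (t : ℝ) (z : ℂ) :
    KK L t z = ∑' v : L.lattice, KS_f t (z + (v : ℂ)) := rfl

private theorem KS_exp {s : ℝ} (hs : 0 < s) : Real.exp (-s) ≤ s⁻¹ := by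
  rw [Real.exp_neg]
  have h := Real.add_one_le_exp s
  exact inv_anti₀ hs (by linarith)

private theorem KS_bound {t : ℝ} (ht : 0 < t) (x : ℂ) : ‖KS_f t x‖ ≤ t⁻¹ * (‖x‖ ^ 3)⁻¹ := by
  unfold KS_f
  by_cases hx : x = 0
  · rw [hx]
    simp
  · have h0 : 0 < ‖x‖ := norm_pos_iff.mpr hx
    have h1 : 0 < t * ‖x‖ ^ 2 := by positivity
    rw [norm_mul, norm_inv, Complex.norm_real, Real.norm_of_nonneg (Real.exp_nonneg _)]
    have h2 := KS_exp h1
    rw [neg_mul]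
    calc ‖x‖⁻¹ * Real.exp (-(t * ‖x‖ ^ 2)) ≤ ‖x‖⁻¹ * (t * ‖x‖ ^ 2)⁻¹ :=
          mul_le_mul_of_nonneg_left h2 (inv_nonneg.mpr h0.le)
      _ = t⁻¹ * (‖x‖ ^ 3)⁻¹ := by
          field_simp

private theorem KS_neg (t : ℝ) (x : ℂ) : KS_f t (-x) = -KS_f t x := by
  unfold KS_f
  rw [norm_neg, inv_neg, neg_mul]

/-- MODULE `KS`. -/
theorem tKS : G_KS := by
  intro L
  refine ⟨?_, ?_, ?_⟩
  · intro t ht z
    exact Summable.of_norm_bounded ((sum3 L z).mul_left t⁻¹) (fun v => KS_bound ht (z + (v : ℂ)))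
  · intro t z v hv
    rw [KS_KK, KS_KK,
      ← Equiv.tsum_eq (Equiv.addLeft (⟨v, hv⟩ : L.lattice)) (fun w : L.lattice => KS_f t (z + (w : ℂ)))]
    refine tsum_congr fun u => ?_
    rw [Equiv.coe_addLeft, Submodule.coe_add, add_assoc]
  · intro t z
    rw [KS_KK, KS_KK, ← tsum_neg,
      ← Equiv.tsum_eq (Equiv.neg L.lattice) (fun w : L.lattice => KS_f t (-z + (w : ℂ)))]
    refine tsum_congr fun u => ?_
    rw [Equiv.neg_apply, Submodule.coe_neg, ← neg_add, KS_neg]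

end Pool.Agent.DKB
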