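import Pool.Agent.Lib.DK.B.Spec

/-!
# Theorem DK, Part B: Liouville for functions periodic with respect to a lattice (helper24)

Port of `DI/B/Lio.lean` to an arbitrary lattice.
-/

set_option autoImplicit false

namespace Pool.Agent.DKB

open Complex Filter Topology

private lemma Lio_cover (L : PeriodPair) (z : ℂ) : ∃ (v : ℂ) (x y : ℝ), inL L v ∧
    x ∈ Set.Icc (0 : ℝ) 1 ∧ y ∈ Set.Icc (0 : ℝ) 1 ∧ z = (x : ℂ) * L.ω₁ + (y : ℂ) * L.ω₂ + v := by
  have h := L.basis.sum_repr z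
  rw [Fin.sum_univ_two, PeriodPair.basis_zero, PeriodPair.basis_one, Complex.real_smul,
    Complex.real_smul] at h
  obtain ⟨a, ha⟩ : ∃ a : ℝ, a = L.basis.repr z 0 := ⟨_, rfl⟩
  obtain ⟨b, hb⟩ : ∃ b : ℝ, b = L.basis.repr z 1 := ⟨_, rfl⟩
  rw [← ha, ← hb] at h
  refine ⟨(⌊a⌋ : ℂ) * L.ω₁ + (⌊b⌋ : ℂ) * L.ω₂, Int.fract a, Int.fract b,
    inL_iff.2 ⟨⌊a⌋, ⌊b⌋, rfl⟩, ⟨Int.fract_nonneg _, (Int.fract_lt_one _).le⟩,
    ⟨Int.fract_nonneg _, (Int.fract_lt_one _).le⟩, ?_⟩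
  have h1 : (Int.fract a : ℝ) = a - ⌊a⌋ := rfl
  have h2 : (Int.fract b : ℝ) = b - ⌊b⌋ := rfl
  rw [h1, h2, ← h]
  push_cast
  ring

theorem tLio : G_Lio := by
  intro L f hd hl hp
  -- limits exist at every point
  have h1 : ∀ z, ∃ c : ℂ, Tendsto f (𝓝[≠] z) (𝓝 c) := by
    intro z
    obtain ⟨v, c, hv, hc⟩ := hl z
    refine ⟨c, ?_⟩
    have h2 := hc.comp (tendsto_shift v z)
    exact h2.congr' (hp v hv z)
  choose g hg using h1
  -- `g = f` off a discrete set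
  have h2 : ∀ z, ∀ᶠ u in 𝓝[≠] z, g u = f u := by
    intro z
    filter_upwards [hd z] with u hu
    have h3 : Tendsto f (𝓝[≠] u) (𝓝 (f u)) :=
      hu.continuousAt.tendsto.mono_left nhdsWithin_le_nhds
    exact tendsto_nhds_unique (hg u) h3
  have h3 : ∀ z, ∀ᶠ u in 𝓝[≠] z, DifferentiableAt ℂ g u := by
    intro z
    have h5 := eventually_eventually_nhdsWithin.2 (h2 z)
    filter_upwards [h5, hd z, self_mem_nhdsWithin] with u hu hdu hne
    have h6 : 𝓝[{z}ᶜ] u = 𝓝 u := IsOpen.nhdsWithin_eq isOpen_compl_singleton hne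
    rw [h6] at hu
    have h7 : g =ᶠ[𝓝 u] f := hu
    exact hdu.congr_of_eventuallyEq h7
  have h4 : ∀ z, ContinuousAt g z := by
    intro z
    rw [continuousAt_iff_punctured_nhds]
    exact (hg z).congr' ((h2 z).mono fun u hu => hu.symm)
  have h5 : Differentiable ℂ g := fun z =>
    (Complex.analyticAt_of_differentiable_on_punctured_nhds_of_continuousAt (h3 z)
      (h4 z)).differentiableAt
  have h6 : ∀ v : ℂ, inL L v → ∀ z : ℂ, g (z + v) = g z := by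
    intro v hv z
    have h7 := (hg (z + v)).comp (tendsto_shift v z)
    exact tendsto_nhds_unique (h7.congr' (hp v hv z)) (hg z)
  -- boundedness
  have h7 : Bornology.IsBounded (Set.range g) := by
    have hK : IsCompact ((fun q : ℝ × ℝ => (q.1 : ℂ) * L.ω₁ + (q.2 : ℂ) * L.ω₂) ''
        (Set.Icc (0 : ℝ) 1 ×ˢ Set.Icc (0 : ℝ) 1)) :=
      (isCompact_Icc.prod isCompact_Icc).image (by fun_prop)
    have hK2 := (hK.image h5.continuous).isBounded
    refine hK2.subset ?_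
    rintro _ ⟨z, rfl⟩
    obtain ⟨v, x, y, hv, hx, hy, hz⟩ := Lio_cover L z
    refine ⟨(x : ℂ) * L.ω₁ + (y : ℂ) * L.ω₂, ⟨(x, y), ⟨hx, hy⟩, rfl⟩, ?_⟩
    conv_rhs => rw [hz, h6 v hv]
  refine ⟨g 0, fun z => ?_⟩
  rw [← h5.apply_eq_apply_of_bounded h7 z 0]
  exact hg z

end Pool.Agent.DKB
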