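import Pool.Agent.Lib.DK.B.Spec

/-! # Theorem DK, Part B, module MulB: translation by a 2-torsion point -/

set_option autoImplicit false

namespace Pool.Agent.DKB

open Complex Filter Topology

private noncomputable def MulB_f (L : PeriodPair) (t u : ℂ) : ℂ :=
  (wp L (u + t) - wp L t) * (wp L u - wp L t)

private theorem MulB_diff (L : PeriodPair) (t u : ℂ) (h : ¬ inL L u) (h1 : ¬ inL L (u + t)) :
    HasDerivAt (MulB_f L t)
      (wd L (u + t) * (wp L u - wp L t) + (wp L (u + t) - wp L t) * wd L u) u := by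
  have h2 : HasDerivAt (fun x => wp L (x + t) - wp L t) (wd L (u + t)) u :=
    ((hasDerivAt_wp h1).comp_add_const u t).sub_const _
  have h3 : HasDerivAt (fun x => wp L x - wp L t) (wd L u) u := (hasDerivAt_wp h).sub_const _
  exact h2.mul h3

private theorem MulB_shift (L : PeriodPair) (t : ℂ) (ht : inL L (t + t)) (u : ℂ) :
    MulB_f L t (u + t) = MulB_f L t u := by
  unfold MulB_f
  have h : wp L (u + t + t) = wp L u := by
    rw [add_assoc]
    exact wp_add u ht
  rw [h]
  ring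

private theorem MulB_zero (h2 : G_Exp) (L : PeriodPair) (t : ℂ) (hnt : ¬ inL L t)
    (ht : inL L (t + t)) :
    Tendsto (MulB_f L t) (𝓝[≠] 0) (𝓝 (3 * wp L t ^ 2 - L.g₂ / 4)) := by
  obtain ⟨⟨r, r1, hr, -, hexp⟩, -, hthird⟩ := h2 L
  obtain ⟨s, s1, hs, -, hexp2⟩ := hthird t hnt
  set K : ℂ := 3 * wp L t ^ 2 - L.g₂ / 4 with hK
  have hc : ContinuousAt (fun h : ℂ => (K + h * s h) *
      (1 + ca L * h ^ 4 + cb L * h ^ 6 + h ^ 8 * r h - wp L t * h ^ 2)) 0 := by
    have hsc : ContinuousAt s 0 := hs.continuousAt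
    have hrc : ContinuousAt r 0 := hr.continuousAt
    fun_prop
  have h3 : Tendsto (fun h : ℂ => (K + h * s h) *
      (1 + ca L * h ^ 4 + cb L * h ^ 6 + h ^ 8 * r h - wp L t * h ^ 2)) (𝓝[≠] 0) (𝓝 K) := by
    have := hc.tendsto
    have h4 : (K + 0 * s 0) *
        (1 + ca L * 0 ^ 4 + cb L * 0 ^ 6 + 0 ^ 8 * r 0 - wp L t * 0 ^ 2) = K := by
      ring
    rw [h4] at this
    exact this.mono_left nhdsWithin_le_nhds
  refine h3.congr' ?_
  filter_upwards [self_mem_nhdsWithin] with h hh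
  have hh0 : h ≠ 0 := hh
  have h5 := (hexp h hh0).1
  have h6 := (hexp2 h).1
  rw [wd_half ht, zero_mul, add_zero] at h6
  unfold MulB_f
  rw [add_comm h t, h6, h5]
  field_simp
  ring

theorem tMulB (h1 : G_Lio) (h2 : G_Exp) : G_MulB := by
  intro L t hnt ht
  have hd : ∀ z, ∀ᶠ u in 𝓝[≠] z, DifferentiableAt ℂ (MulB_f L t) u := by
    intro z
    filter_upwards [ev_inL L z, ev_add L t z] with u hu hu1
    exact (MulB_diff L t u hu hu1).differentiableAt
  have h0 := MulB_zero h2 L t hnt ht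
  have hl : ∀ z, ∃ v c : ℂ, inL L v ∧ Tendsto (MulB_f L t) (𝓝[≠] (z + v)) (𝓝 c) := by
    intro z
    by_cases hz : inL L z
    · refine ⟨-z, 3 * wp L t ^ 2 - L.g₂ / 4, inL_neg hz, ?_⟩
      rw [add_neg_cancel]
      exact h0
    by_cases hzt : inL L (z + t)
    · refine ⟨-(z + t), 3 * wp L t ^ 2 - L.g₂ / 4, inL_neg hzt, ?_⟩
      have h3 : z + -(z + t) = -t := by ring
      rw [h3]
      have h4 : Tendsto (fun u : ℂ => u + t) (𝓝[≠] (-t)) (𝓝[≠] 0) := by
        refine tendsto_nhdsWithin_of_tendsto_nhds_of_eventually_within _ ?_ ?_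
        · have := (by fun_prop : Continuous fun u : ℂ => u + t).tendsto (-t)
          rw [neg_add_cancel] at this
          exact this.mono_left nhdsWithin_le_nhds
        · rw [eventually_nhdsWithin_iff]
          refine Eventually.of_forall fun u hu h5 => hu ?_
          exact eq_neg_of_add_eq_zero_left h5
      refine (h0.comp h4).congr fun u => ?_
      exact MulB_shift L t ht u
    · refine ⟨0, MulB_f L t z, inL_zero, ?_⟩
      rw [add_zero]
      exact (MulB_diff L t z hz hzt).continuousAt.tendsto.mono_left nhdsWithin_le_nhds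
  have hp : ∀ v, inL L v → ∀ z : ℂ, ∀ᶠ u in 𝓝[≠] z, MulB_f L t (u + v) = MulB_f L t u := by
    intro v hv z
    refine Eventually.of_forall fun u => ?_
    unfold MulB_f
    rw [add_right_comm, wp_add _ hv, wp_add _ hv]
  obtain ⟨c, hc⟩ := h1 L (MulB_f L t) hd hl hp
  have hcK : c = 3 * wp L t ^ 2 - L.g₂ / 4 := tendsto_nhds_unique (hc 0) h0
  have key : ∀ z, ¬ inL L z → ¬ inL L (z + t) → MulB_f L t z = 3 * wp L t ^ 2 - L.g₂ / 4 := by
    intro z hz hzt
    rw [← hcK]
    exact tendsto_nhds_unique ((MulB_diff L t z hz hzt).continuousAt.tendsto.mono_left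
      nhdsWithin_le_nhds) (hc z)
  intro z hz hzt
  refine ⟨key z hz hzt, ?_⟩
  have h6 := MulB_diff L t z hz hzt
  have h7 : MulB_f L t =ᶠ[𝓝 z] fun _ => 3 * wp L t ^ 2 - L.g₂ / 4 := by
    have h8 : ∀ᶠ u in 𝓝 z, ¬ inL L (u + t) :=
      ((by fun_prop : Continuous fun u : ℂ => u + t).tendsto z).eventually (ev_notL hzt)
    filter_upwards [ev_notL hz, h8] with u hu hu1
    exact key u hu hu1
  exact h6.unique ((hasDerivAt_const z _).congr_of_eventuallyEq h7)

end Pool.Agent.DKB
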