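import Pool.Agent.Lib.DK.B.Spec

/-! # Theorem DK, Part B, module PrA: the product formula (port of `DI/B/PrA.lean` of helper92) -/

set_option autoImplicit false

namespace Pool.Agent.DKB

open Complex Filter Topology

private theorem PrA_ind_pos {P : Prop} (h : P) : DI.ind P = 1 := by
  unfold DI.ind
  exact if_pos h

private theorem PrA_ind_neg {P : Prop} (h : ¬ P) : DI.ind P = 0 := by
  unfold DI.ind
  exact if_neg h

private theorem PrA_sum {L M : PeriodPair} {R : Finset ℂ} (hR : IsRp L M R) (y : ℂ) :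
    ∑ u ∈ R, DI.ind (inL L (y + u)) = DI.ind (inL M y) := by
  by_cases h : inL M y
  · rw [PrA_ind_pos h]
    obtain ⟨u, hu, h2⟩ := hR.ex (-y) (inL_neg h)
    have h3 : inL L (y + u) := by
      have := inL_neg h2
      rwa [neg_sub, sub_neg_eq_add, add_comm] at this
    rw [Finset.sum_eq_single u, PrA_ind_pos h3]
    · intro v hv hne
      refine PrA_ind_neg fun h4 => hne (hR.uni v hv u hu ?_)
      have := inL_sub h4 h3
      rwa [add_sub_add_left_eq_sub] at this
    · exact fun h4 => absurd hu h4
  · rw [PrA_ind_neg h]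
    refine Finset.sum_eq_zero fun u hu => PrA_ind_neg fun h1 => h ?_
    have := inL_sub (hR.le _ h1) (hR.mem u hu)
    rwa [add_sub_cancel_right] at this

theorem tPrA (h1 : G_Ord) (h2 : G_Quo) : G_PrA := by
  intro L M R hR b hb
  have hbL : ¬ inL L b := fun h => hb (hR.le b h)
  have hsum := PrA_sum hR
  have hF : ∀ z : ℂ, ∀ u ∈ R, MeromorphicAt (fun w => wp L (w + u) - wp L b) z ∧
      meromorphicOrderAt (fun w => wp L (w + u) - wp L b) z =
        ((DI.ind (inL L (z - b + u)) + DI.ind (inL L (z + b + u)) -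
          2 * DI.ind (inL L (z + u)) : ℤ) : WithTop ℤ) := by
    intro z u _
    have h4 := h1 L u b hbL z
    refine ⟨h4.1, h4.2.trans ?_⟩
    rw [show z + u - b = z - b + u by ring, show z + u + b = z + b + u by ring]
  have hG : ∀ z : ℂ, MeromorphicAt (fun w => wp M w - wp M b) z ∧
      meromorphicOrderAt (fun w => wp M w - wp M b) z =
        ((DI.ind (inL M (z - b)) + DI.ind (inL M (z + b)) -
          2 * DI.ind (inL M z) : ℤ) : WithTop ℤ) := by
    intro z
    have h4 := h1 M 0 b hb z
    simp only [add_zero] at h4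
    exact h4
  have hFm : ∀ z : ℂ, MeromorphicAt (fun w => ∏ u ∈ R, (wp L (w + u) - wp L b)) z := fun z =>
    MeromorphicAt.fun_prod fun u hu => (hF z u hu).1
  have hFo : ∀ z : ℂ, meromorphicOrderAt (fun w => ∏ u ∈ R, (wp L (w + u) - wp L b)) z =
      ((DI.ind (inL M (z - b)) + DI.ind (inL M (z + b)) -
        2 * DI.ind (inL M z) : ℤ) : WithTop ℤ) := by
    intro z
    rw [meromorphicOrderAt_fun_prod fun u hu => (hF z u hu).1,
      Finset.sum_congr rfl fun u hu => (hF z u hu).2, ← WithTop.coe_sum, Finset.sum_sub_distrib,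
      Finset.sum_add_distrib, ← Finset.mul_sum, hsum, hsum, hsum]
  obtain ⟨c, hc, hFG⟩ := h2 L _ _ hFm (fun z => (hG z).1)
    (fun z => ⟨(hFo z).trans (hG z).2.symm, by rw [hFo z]; exact WithTop.coe_ne_top⟩) (by
      intro v hv z
      refine ⟨Finset.prod_congr rfl fun u _ => ?_, ?_⟩
      · rw [add_right_comm, wp_add (z + u) hv]
      · rw [wp_add z (hR.le v hv)])
  refine ⟨c, hc, fun z hz => ?_⟩
  have hzu : ∀ u ∈ R, ¬ inL L (z + u) := by
    intro u hu h4
    refine hz ?_
    have := inL_sub (hR.le _ h4) (hR.mem u hu)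
    rwa [add_sub_cancel_right] at this
  have c1 : ContinuousAt (fun w => ∏ u ∈ R, (wp L (w + u) - wp L b)) z := by
    refine tendsto_finsetProd _ fun u hu => ?_
    refine Tendsto.sub_const ?_ _
    exact (ContinuousAt.comp (f := fun w => w + u) (analyticAt_wp (hzu u hu)).continuousAt
      (continuous_add_const u).continuousAt)
  have c2 : ContinuousAt (fun w => c * (wp M w - wp M b)) z := by
    refine Tendsto.const_mul _ (Tendsto.sub_const ?_ _)
    exact (analyticAt_wp hz).continuousAt
  exact tendsto_nhds_unique_of_eventuallyEq (c1.tendsto.mono_left nhdsWithin_le_nhds)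
    (c2.tendsto.mono_left nhdsWithin_le_nhds) (hFG z)

end Pool.Agent.DKB
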