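import Pool.Agent.Lib.DK.B.Spec

/-! # Theorem DK, Part B, module PrB: the constant of the product formula -/

set_option autoImplicit false

namespace Pool.Agent.DKB

open Complex Filter Topology

private theorem PrB_lim (h1 : G_Exp) (L : PeriodPair) :
    Tendsto (fun h : ℂ => h ^ 2 * wp L h) (𝓝[≠] 0) (𝓝 1) := by
  obtain ⟨⟨r, r1, hr, -, h⟩, -, -⟩ := h1 L
  have hc : ContinuousAt (fun z : ℂ => 1 + ca L * z ^ 4 + cb L * z ^ 6 + z ^ 8 * r z) 0 := by
    have := hr.continuousAt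
    fun_prop
  have h2 : Tendsto (fun z : ℂ => 1 + ca L * z ^ 4 + cb L * z ^ 6 + z ^ 8 * r z) (𝓝[≠] 0)
      (𝓝 1) := by
    have h3 := hc.tendsto.mono_left (nhdsWithin_le_nhds (s := {(0 : ℂ)}ᶜ))
    have h4 : 1 + ca L * (0 : ℂ) ^ 4 + cb L * (0 : ℂ) ^ 6 + (0 : ℂ) ^ 8 * r 0 = 1 := by
      norm_num
    rw [h4] at h3
    exact h3
  refine h2.congr' ?_
  rw [EventuallyEq, eventually_nhdsWithin_iff]
  refine Eventually.of_forall fun z hz => ?_
  have hz0 : z ≠ 0 := hz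
  rw [(h z hz0).1]
  field_simp

private theorem PrB_cont (L : PeriodPair) {u : ℂ} (hu : ¬ inL L u) (b : ℂ) :
    Tendsto (fun h : ℂ => wp L (h + u) - wp L b) (𝓝[≠] 0) (𝓝 (wp L u - wp L b)) := by
  have h1 : ContinuousAt (wp L) u := (analyticAt_wp hu).continuousAt
  have h2 : ContinuousAt (fun h : ℂ => wp L (h + u) - wp L b) 0 := by
    have h3 : ContinuousAt (fun h : ℂ => wp L (h + u)) 0 := by
      apply ContinuousAt.comp (g := wp L)
      · rw [zero_add]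
        exact h1
      · fun_prop
    fun_prop
  have h3 := h2.tendsto.mono_left (nhdsWithin_le_nhds (s := {(0 : ℂ)}ᶜ))
  rw [zero_add] at h3
  exact h3

theorem tPrB (h1 : G_Exp) : G_PrB := by
  classical
  intro L M R hR b c hb hprod
  obtain ⟨u0, hu0, hu0'⟩ := hR.ex 0 inL_zero
  rw [zero_sub, inL_neg_iff] at hu0'
  have huni : ∀ u ∈ R.erase u0, ¬ inL L u := by
    intro u hu h
    obtain ⟨hne, huR⟩ := Finset.mem_erase.1 hu
    exact hne (hR.uni u huR u0 hu0 (inL_sub h hu0'))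
  have hX0 : ∀ h : ℂ, wp L (h + u0) = wp L h := fun h => wp_add h hu0'
  -- the two limits
  have hsq : ∀ x : ℂ, Tendsto (fun h : ℂ => h ^ 2 * x) (𝓝[≠] 0) (𝓝 0) := by
    intro x
    have hc : ContinuousAt (fun h : ℂ => h ^ 2 * x) 0 := by fun_prop
    have h4 := hc.tendsto.mono_left (nhdsWithin_le_nhds (s := {(0 : ℂ)}ᶜ))
    have h5 : (0 : ℂ) ^ 2 * x = 0 := by ring
    rw [h5] at h4
    exact h4
  have hL : Tendsto (fun h : ℂ => (h ^ 2 * wp L h - h ^ 2 * wp L b) *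
      ∏ u ∈ R.erase u0, (wp L (h + u) - wp L b)) (𝓝[≠] 0)
      (𝓝 ((1 - 0) * ∏ u ∈ R.erase u0, (wp L u - wp L b))) :=
    ((PrB_lim h1 L).sub (hsq _)).mul (tendsto_finsetProd _ fun u hu => PrB_cont L (huni u hu) b)
  have hRt : Tendsto (fun h : ℂ => c * (h ^ 2 * wp M h - h ^ 2 * wp M b)) (𝓝[≠] 0)
      (𝓝 (c * (1 - 0))) :=
    ((PrB_lim h1 M).sub (hsq _)).const_mul c
  have heq : (fun h : ℂ => (h ^ 2 * wp L h - h ^ 2 * wp L b) *
      ∏ u ∈ R.erase u0, (wp L (h + u) - wp L b)) =ᶠ[𝓝[≠] 0]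
      fun h : ℂ => c * (h ^ 2 * wp M h - h ^ 2 * wp M b) := by
    filter_upwards [ev_inL M 0] with h hh
    have h5 := hprod h hh
    rw [← Finset.mul_prod_erase R _ hu0, hX0] at h5
    linear_combination h ^ 2 * h5
  have hlim := tendsto_nhds_unique hL (hRt.congr' heq.symm)
  rw [sub_zero, mul_one, one_mul] at hlim
  rw [← hlim, ← Finset.mul_prod_erase R _ hu0, if_pos hu0', one_mul]
  exact Finset.prod_congr rfl fun u hu => (if_neg (huni u hu)).symm

end Pool.Agent.DKB
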