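import Pool.Agent.Lib.DK.B.Spec

/-! # Theorem DK, Part B: distribution of the theta function, four lattices (module PrC) -/

set_option autoImplicit false

namespace Pool.Agent.DKB

open Complex Filter Topology

private theorem PrC_ind_of {P : Prop} (h : P) : DI.ind P = 1 := by
  unfold DI.ind
  exact if_pos h

private theorem PrC_ind_not {P : Prop} (h : ¬ P) : DI.ind P = 0 := by
  unfold DI.ind
  exact if_neg h

private theorem PrC_one {R : Finset ℂ} {p : ℂ → Prop} {v₀ : ℂ} (h0 : v₀ ∈ R) (h1 : p v₀)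
    (h2 : ∀ v ∈ R, p v → v = v₀) : ∑ v ∈ R, DI.ind (p v) = 1 := by
  rw [Finset.sum_eq_single_of_mem v₀ h0
    (fun v hv hne => PrC_ind_not fun hp => hne (h2 v hv hp)), PrC_ind_of h1]

private theorem PrC_zero {R : Finset ℂ} {p : ℂ → Prop} (h : ∀ v ∈ R, ¬ p v) :
    ∑ v ∈ R, DI.ind (p v) = 0 :=
  Finset.sum_eq_zero fun v hv => PrC_ind_not (h v hv)

/-- (a) -/
private theorem PrC_a {L L' : PeriodPair} {S : Finset ℂ} (hLL : ∀ z, inL L z → inL L' z)
    (h2 : ∀ u, inL L' u → inL L (u + u) → inL L u) (hS : IsHf L L' S) (y : ℂ) :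
    ∑ u ∈ S, (DI.ind (inL L (y - u)) + DI.ind (inL L (y + u))) =
      DI.ind (inL L' y) - DI.ind (inL L y) := by
  have two : ∀ u : ℂ, DI.ind (inL L (y - u)) + DI.ind (inL L (y + u)) = 0 ∨
      inL L (y - u) ∨ inL L (y + u) := by
    intro u
    by_cases k1 : inL L (y - u)
    · exact Or.inr (Or.inl k1)
    by_cases k2 : inL L (y + u)
    · exact Or.inr (Or.inr k2)
    rw [PrC_ind_not k1, PrC_ind_not k2]
    exact Or.inl rfl
  by_cases hy : inL L y
  · rw [PrC_ind_of hy, PrC_ind_of (hLL y hy), sub_self]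
    refine Finset.sum_eq_zero fun u hu => ?_
    have hu' := (hS.mem u hu).2
    rcases two u with h | h | h
    · exact h
    · exact absurd (by have := inL_sub hy h; rwa [sub_sub_cancel] at this) hu'
    · exact absurd (by have := inL_sub h hy; rwa [add_sub_cancel_left] at this) hu'
  · rw [PrC_ind_not hy, sub_zero]
    by_cases hm : inL L' y
    · rw [PrC_ind_of hm]
      obtain ⟨u₀, hu₀, h0⟩ := hS.ex y hm hy
      rw [Finset.sum_eq_single_of_mem u₀ hu₀]
      · obtain ⟨m1, m2⟩ := hS.mem u₀ hu₀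
        have hne : ¬ inL L (u₀ + u₀) := fun h => m2 (h2 u₀ m1 h)
        have hno : ¬ (inL L (y - u₀) ∧ inL L (y + u₀)) := by
          rintro ⟨k1, k2⟩
          refine hne ?_
          have := inL_sub k2 k1
          rwa [show y + u₀ - (y - u₀) = u₀ + u₀ by ring] at this
        rcases h0 with h0 | h0
        · rw [PrC_ind_of h0, PrC_ind_not fun k => hno ⟨h0, k⟩, add_zero]
        · rw [PrC_ind_of h0, PrC_ind_not fun k => hno ⟨k, h0⟩, zero_add]
      · intro u hu hne
        have key : ¬ (inL L (u₀ - u) ∨ inL L (u₀ + u)) :=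
          fun h => hne (hS.uni u₀ hu₀ u hu h).symm
        rw [not_or] at key
        rcases two u with h | h | h
        · exact h
        · rcases h0 with h0 | h0
          · refine absurd ?_ key.1
            have := inL_sub h h0
            rwa [show y - u - (y - u₀) = u₀ - u by ring] at this
          · refine absurd ?_ key.2
            have := inL_sub h0 h
            rwa [show y + u₀ - (y - u) = u₀ + u by ring] at this
        · rcases h0 with h0 | h0
          · refine absurd ?_ key.2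
            have := inL_sub h h0
            rwa [show y + u - (y - u₀) = u₀ + u by ring] at this
          · refine absurd ?_ key.1
            have := inL_sub h0 h
            rwa [show y + u₀ - (y + u) = u₀ - u by ring] at this
    · rw [PrC_ind_not hm]
      refine Finset.sum_eq_zero fun u hu => ?_
      obtain ⟨m1, m2⟩ := hS.mem u hu
      rcases two u with h | h | h
      · exact h
      · refine absurd ?_ hm
        have := inL_add (hLL _ h) m1
        rwa [sub_add_cancel] at this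
      · refine absurd ?_ hm
        have := inL_sub (hLL _ h) m1
        rwa [add_sub_cancel_right] at this

/-- (b), first part -/
private theorem PrC_b {L M : PeriodPair} {R : Finset ℂ} (hR : IsRp L M R) (y : ℂ) :
    ∑ v ∈ R, DI.ind (inL L (y + v)) = DI.ind (inL M y) := by
  by_cases h : inL M y
  · rw [PrC_ind_of h]
    obtain ⟨v₀, hv₀, h0⟩ := hR.ex (-y) (inL_neg h)
    have h0' : inL L (y + v₀) := by
      have := inL_neg h0
      rwa [show -(-y - v₀) = y + v₀ by ring] at this
    refine PrC_one (p := fun v => inL L (y + v)) hv₀ h0' ?_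
    intro v hv hp
    refine hR.uni v hv v₀ hv₀ ?_
    have := inL_sub hp h0'
    rwa [show y + v - (y + v₀) = v - v₀ by ring] at this
  · rw [PrC_ind_not h]
    refine PrC_zero (p := fun v => inL L (y + v)) fun v hv hp => h ?_
    have := inL_sub (hR.le _ hp) (hR.mem v hv)
    rwa [add_sub_cancel_right] at this

/-- (b), second part -/
private theorem PrC_c {L L' M M' : PeriodPair} {R : Finset ℂ} (hR : IsRp L M R)
    (hLL : ∀ z, inL L z → inL L' z) (hi : ∀ z, inL L' z → inL M z → inL L z)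
    (hs : ∀ z, inL M' z ↔ ∃ x x' : ℂ, inL L' x ∧ inL M x' ∧ z = x + x') (y : ℂ) :
    ∑ v ∈ R, DI.ind (inL L' (y + v)) = DI.ind (inL M' y) := by
  by_cases h : inL M' y
  · rw [PrC_ind_of h]
    obtain ⟨x, x', hx, hx', rfl⟩ := (hs y).1 h
    obtain ⟨v₀, hv₀, h0⟩ := hR.ex (-x') (inL_neg hx')
    have h0' : inL L' (x + x' + v₀) := by
      have := inL_sub hx (hLL _ h0)
      rwa [show x - (-x' - v₀) = x + x' + v₀ by ring] at this
    refine PrC_one (p := fun v => inL L' (x + x' + v)) hv₀ h0' ?_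
    intro v hv hp
    refine hR.uni v hv v₀ hv₀ ?_
    have k1 := inL_sub hp h0'
    rw [show x + x' + v - (x + x' + v₀) = v - v₀ by ring] at k1
    exact hi _ k1 (inL_sub (hR.mem v hv) (hR.mem v₀ hv₀))
  · rw [PrC_ind_not h]
    refine PrC_zero (p := fun v => inL L' (y + v)) fun v hv hp => h ?_
    exact (hs y).2 ⟨y + v, -v, hp, inL_neg (hR.mem v hv), by ring⟩

private theorem PrC_ord (h : G_Ord) {L L' : PeriodPair} {S : Finset ℂ}
    (hLL : ∀ z, inL L z → inL L' z)
    (h2 : ∀ u, inL L' u → inL L (u + u) → inL L u) (hS : IsHf L L' S) (a z : ℂ) :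
    MeromorphicAt (fun w => ∏ u ∈ S, (wp L (w + a) - wp L u)) z ∧
    meromorphicOrderAt (fun w => ∏ u ∈ S, (wp L (w + a) - wp L u)) z =
      ((DI.ind (inL L' (z + a)) - (1 + 2 * (S.card : ℤ)) * DI.ind (inL L (z + a)) : ℤ) :
        WithTop ℤ) := by
  have hm : ∀ u ∈ S, MeromorphicAt (fun w => wp L (w + a) - wp L u) z :=
    fun u hu => (h L a u (hS.mem u hu).2 z).1
  refine ⟨MeromorphicAt.fun_prod hm, ?_⟩
  rw [meromorphicOrderAt_fun_prod hm,
    Finset.sum_congr rfl fun u hu => (h L a u (hS.mem u hu).2 z).2, ← WithTop.coe_sum,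
    Finset.sum_sub_distrib, PrC_a hLL h2 hS, Finset.sum_const, nsmul_eq_mul]
  congr 1
  ring

private theorem PrC_cont {L : PeriodPair} (a z : ℂ) (h : ¬ inL L (z + a)) :
    Tendsto (fun w => wp L (w + a)) (𝓝 z) (𝓝 (wp L (z + a))) :=
  ContinuousAt.comp (f := fun w : ℂ => w + a) (g := wp L) (analyticAt_wp h).continuousAt
    (by fun_prop)

theorem tPrC (h1 : G_Ord) (h2 : G_Quo) : G_PrC := by
  intro L L' M M' R S S' hR hS hS' hcard hLL h2L h2M hi hs
  have hMM : ∀ z, inL M z → inL M' z := fun z hz =>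
    (hs z).2 ⟨0, z, inL_zero, hz, by rw [zero_add]⟩
  have hFm : ∀ z, ∀ v ∈ R, MeromorphicAt (fun w => ∏ u ∈ S, (wp L (w + v) - wp L u)) z :=
    fun z v _ => (PrC_ord h1 hLL h2L hS v z).1
  have hFo : ∀ z, meromorphicOrderAt (fun w => ∏ v ∈ R, ∏ u ∈ S, (wp L (w + v) - wp L u)) z =
      ((DI.ind (inL M' z) - (1 + 2 * (S.card : ℤ)) * DI.ind (inL M z) : ℤ) : WithTop ℤ) := by
    intro z
    rw [meromorphicOrderAt_fun_prod (hFm z),
      Finset.sum_congr rfl fun v _ => (PrC_ord h1 hLL h2L hS v z).2, ← WithTop.coe_sum,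
      Finset.sum_sub_distrib, ← Finset.mul_sum, PrC_c hR hLL hi hs, PrC_b hR]
  have hGo : ∀ z, meromorphicOrderAt (fun w => ∏ u ∈ S', (wp M (w + 0) - wp M u)) z =
      ((DI.ind (inL M' z) - (1 + 2 * (S.card : ℤ)) * DI.ind (inL M z) : ℤ) : WithTop ℤ) := by
    intro z
    rw [(PrC_ord h1 hMM h2M hS' 0 z).2, add_zero, hcard]
  obtain ⟨c, hc, hq⟩ := h2 L (fun w => ∏ v ∈ R, ∏ u ∈ S, (wp L (w + v) - wp L u))
    (fun w => ∏ u ∈ S', (wp M (w + 0) - wp M u)) (fun z => MeromorphicAt.fun_prod (hFm z))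
    (fun z => (PrC_ord h1 hMM h2M hS' 0 z).1)
    (fun z => ⟨by rw [hFo, hGo], by rw [hFo]; exact WithTop.coe_ne_top⟩) (by
      intro v hv z
      constructor
      · refine Finset.prod_congr rfl fun v' _ => Finset.prod_congr rfl fun u _ => ?_
        rw [show z + v + v' = z + v' + v by ring, wp_add _ hv]
      · refine Finset.prod_congr rfl fun u _ => ?_
        rw [show z + v + 0 = z + 0 + v by ring, wp_add _ (hR.le v hv)])
  refine ⟨c, hc, fun z hz => ?_⟩
  have hz1 : ¬ inL M z := fun h => hz (hMM z h)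
  have hz2 : ∀ v ∈ R, ¬ inL L (z + v) := fun v hv h => hz1 (by
    have := inL_sub (hR.le _ h) (hR.mem v hv)
    rwa [add_sub_cancel_right] at this)
  have cF : Tendsto (fun w => ∏ v ∈ R, ∏ u ∈ S, (wp L (w + v) - wp L u)) (𝓝 z)
      (𝓝 (∏ v ∈ R, ∏ u ∈ S, (wp L (z + v) - wp L u))) :=
    tendsto_finsetProd _ fun v hv => tendsto_finsetProd _ fun u _ =>
      (PrC_cont v z (hz2 v hv)).sub tendsto_const_nhds
  have cG : Tendsto (fun w => c * ∏ u ∈ S', (wp M (w + 0) - wp M u)) (𝓝 z)
      (𝓝 (c * ∏ u ∈ S', (wp M (z + 0) - wp M u))) :=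
    (tendsto_finsetProd _ fun u _ =>
      (PrC_cont 0 z (by rwa [add_zero])).sub tendsto_const_nhds).const_mul c
  have t1 := (cF.mono_left (nhdsWithin_le_nhds (s := {z}ᶜ))).congr' (hq z)
  have t2 := cG.mono_left (nhdsWithin_le_nhds (s := {z}ᶜ))
  have t3 := tendsto_nhds_unique t1 t2
  simp only [add_zero] at t3
  exact t3

end Pool.Agent.DKB
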