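import Pool.Agent.Lib.DK.B.Spec

/-! # Theorem DK, Part B: functions with the same divisor (module `Quo`) -/

set_option autoImplicit false

namespace Pool.Agent.DKB

open Complex Filter Topology

theorem tQuo (h1 : G_Lio) : G_Quo := by
  intro L F G hF hG hord hper
  have hm : ∀ z, MeromorphicAt (fun u => F u / G u) z := fun z => (hF z).fun_div (hG z)
  have ho : ∀ z, meromorphicOrderAt (fun u => F u / G u) z = 0 := by
    intro z
    have h2 : meromorphicOrderAt (fun u => F u / G u) z =
        meromorphicOrderAt F z - meromorphicOrderAt G z := meromorphicOrderAt_div (hF z) (hG z)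
    rw [h2, ← (hord z).1]
    obtain ⟨n, hn⟩ := WithTop.ne_top_iff_exists.1 (hord z).2
    rw [← hn, ← WithTop.LinearOrderedAddCommGroup.coe_sub, sub_self]
    rfl
  have hG0 : ∀ z, ∀ᶠ u in 𝓝[≠] z, G u ≠ 0 := by
    intro z
    rw [← meromorphicOrderAt_ne_top_iff_eventually_ne_zero (hG z), ← (hord z).1]
    exact (hord z).2
  have hana : ∀ z, ∀ᶠ u in 𝓝[≠] z, AnalyticAt ℂ (fun u => F u / G u) u :=
    fun z => (hm z).eventually_analyticAt
  obtain ⟨c, hc⟩ := h1 L (fun u => F u / G u)
    (fun z => (hana z).mono fun u hu => hu.differentiableAt)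
    (fun z => by
      obtain ⟨c, -, hc⟩ := tendsto_ne_zero_of_meromorphicOrderAt_eq_zero (hm (z + 0)) (ho _)
      exact ⟨0, c, inL_zero, hc⟩)
    (fun v hv z => Eventually.of_forall fun u => by
      rw [(hper v hv u).1, (hper v hv u).2])
  have hc0 : c ≠ 0 := by
    obtain ⟨d, hd, hd2⟩ := tendsto_ne_zero_of_meromorphicOrderAt_eq_zero (hm 0) (ho 0)
    rw [tendsto_nhds_unique (hc 0) hd2]
    exact hd
  refine ⟨c, hc0, fun z => ?_⟩
  filter_upwards [hana z, hG0 z] with u hu hu2
  have h3 : F u / G u = c :=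
    tendsto_nhds_unique (hu.continuousAt.tendsto.mono_left nhdsWithin_le_nhds) (hc u)
  rw [← h3, div_mul_cancel₀ _ hu2]

end Pool.Agent.DKB
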