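import Pool.Agent.Lib.DK.B.Spec

/-!
# Theorem DK, Part B, module Sum: isogenies, the sum formula
-/

set_option autoImplicit false

noncomputable section

namespace Pool.Agent.DKB

open Complex Filter Topology

/-- The difference of the two sides. -/
private def Sum_f (L M : PeriodPair) (R : Finset ℂ) (z : ℂ) : ℂ :=
  wp M z - ∑ u ∈ R, (wp L (z + u) - wp L u)

private theorem Sum_not {L M : PeriodPair} {R : Finset ℂ} (hR : IsRp L M R) {z : ℂ} (hz : ¬ inL M z)
    {u : ℂ} (hu : u ∈ R) : ¬ inL L (z + u) := fun h =>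
  hz ((inL_add_iff (hR.mem u hu)).1 (hR.le _ h))

private theorem Sum_hasDeriv {L M : PeriodPair} {R : Finset ℂ} (hR : IsRp L M R) {z : ℂ}
    (hz : ¬ inL M z) :
    HasDerivAt (fun y => ∑ u ∈ R, (wp L (y + u) - wp L u)) (∑ u ∈ R, wd L (z + u)) z := by
  refine HasDerivAt.fun_sum fun u hu => ?_
  have h1 := (hasDerivAt_wp (Sum_not hR hz hu)).comp_add_const z u
  exact h1.sub_const (wp L u)

private theorem Sum_diff {L M : PeriodPair} {R : Finset ℂ} (hR : IsRp L M R) {z : ℂ}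
    (hz : ¬ inL M z) : DifferentiableAt ℂ (Sum_f L M R) z :=
  ((hasDerivAt_wp hz).sub (Sum_hasDeriv hR hz)).differentiableAt

private theorem Sum_per {L M : PeriodPair} {R : Finset ℂ} (hR : IsRp L M R) {v : ℂ}
    (hv : inL M v) (z : ℂ) : Sum_f L M R (z + v) = Sum_f L M R z := by
  have h1 : ∀ r : ℂ, ∃ s, r ∈ R → s ∈ R ∧ inL L (r + v - s) := by
    intro r
    by_cases hr : r ∈ R
    · obtain ⟨s, hs, h2⟩ := hR.ex (r + v) (inL_add (hR.mem r hr) hv)
      exact ⟨s, fun _ => ⟨hs, h2⟩⟩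
    · exact ⟨0, fun h => absurd h hr⟩
  choose σ hσ using h1
  have hmaps : Set.MapsTo σ (R : Set ℂ) (R : Set ℂ) := fun r hr => (hσ r hr).1
  have hinj : Set.InjOn σ (R : Set ℂ) := by
    intro r hr r' hr' he
    refine hR.uni r hr r' hr' ?_
    have h3 := inL_sub (hσ r hr).2 (hσ r' hr').2
    have h4 : r + v - σ r - (r' + v - σ r') = r - r' := by
      rw [he]
      ring
    rwa [h4] at h3
  have hsurj : Set.SurjOn σ (R : Set ℂ) (R : Set ℂ) :=
    Finset.surjOn_of_injOn_of_card_le σ hmaps hinj le_rfl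
  have h5 : ∑ u ∈ R, wp L (z + v + u) = ∑ u ∈ R, wp L (z + u) := by
    refine Finset.sum_nbij σ hmaps hinj hsurj fun r hr => ?_
    refine wp_congr ?_
    have h6 : z + v + r - (z + σ r) = r + v - σ r := by ring
    rw [h6]
    exact (hσ r hr).2
  unfold Sum_f
  rw [wp_add z hv, Finset.sum_sub_distrib, Finset.sum_sub_distrib, h5]

private theorem Sum_zero (hE : G_Exp) {L M : PeriodPair} {R : Finset ℂ} (hR : IsRp L M R) :
    Tendsto (Sum_f L M R) (𝓝[≠] 0) (𝓝 0) := by
  classical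
  obtain ⟨u₀, hu₀, h0⟩ := hR.ex 0 inL_zero
  have hu₀L : inL L u₀ := by
    rw [zero_sub] at h0
    exact inL_neg_iff.1 h0
  obtain ⟨⟨rM, rM1, hrM, -, hM⟩, -⟩ := hE M
  obtain ⟨⟨rL, rL1, hrL, -, hL⟩, -⟩ := hE L
  have h1 : Tendsto (fun h : ℂ => (ca M - ca L) * h ^ 2 + (cb M - cb L) * h ^ 4 +
      h ^ 6 * (rM h - rL h)) (𝓝[≠] 0) (𝓝 0) := by
    have hc : ContinuousAt (fun h : ℂ => (ca M - ca L) * h ^ 2 + (cb M - cb L) * h ^ 4 +
        h ^ 6 * (rM h - rL h)) 0 := by
      have hcM := hrM.continuousAt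
      have hcL := hrL.continuousAt
      fun_prop
    have h2 := hc.tendsto.mono_left (nhdsWithin_le_nhds (s := {0}ᶜ))
    simpa using h2
  have h3 : Tendsto (fun h : ℂ => ∑ u ∈ R.erase u₀, (wp L (h + u) - wp L u)) (𝓝[≠] 0) (𝓝 0) := by
    have h4 : Tendsto (fun h : ℂ => ∑ u ∈ R.erase u₀, (wp L (h + u) - wp L u)) (𝓝[≠] 0)
        (𝓝 (∑ u ∈ R.erase u₀, (0 : ℂ))) := by
      refine tendsto_finsetSum _ fun u hu => ?_
      have hun : ¬ inL L u := by
        intro h
        have h5 := hR.uni u (Finset.mem_of_mem_erase hu) u₀ hu₀ (inL_sub h hu₀L)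
        exact (Finset.ne_of_mem_erase hu) h5
      have h6 : ContinuousAt (fun h : ℂ => wp L (h + u)) 0 := by
        have h7 : ContinuousAt (wp L) (0 + u) := by
          rw [zero_add]
          exact (analyticAt_wp hun).continuousAt
        exact ContinuousAt.comp (f := fun h : ℂ => h + u) h7 (by fun_prop)
      have h8 := (h6.tendsto.mono_left (nhdsWithin_le_nhds (s := {0}ᶜ))).sub_const (wp L u)
      rw [zero_add, sub_self] at h8
      exact h8
    rwa [Finset.sum_const_zero] at h4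
  have h9 := h1.sub h3
  rw [sub_zero] at h9
  refine h9.congr' ?_
  filter_upwards [self_mem_nhdsWithin] with h hh
  have hh0 : h ≠ 0 := hh
  unfold Sum_f
  rw [← Finset.add_sum_erase R (fun u => wp L (h + u) - wp L u) hu₀, wp_add h hu₀L, wp_lat hu₀L,
    (hM h hh0).1, (hL h hh0).1]
  ring

theorem tSum (h1 : G_Lio) (h2 : G_Exp) : G_Sum := by
  intro L M R hR
  have hfz : ∀ z : ℂ, ¬ inL M z → Sum_f L M R z = 0 := by
    obtain ⟨c, hc⟩ := h1 M (Sum_f L M R) (fun z => by
        filter_upwards [ev_inL M z] with u hu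
        exact Sum_diff hR hu)
      (fun z => by
        by_cases hz : inL M z
        · refine ⟨-z, 0, inL_neg hz, ?_⟩
          rw [add_neg_cancel]
          exact Sum_zero h2 hR
        · refine ⟨0, Sum_f L M R z, inL_zero, ?_⟩
          rw [add_zero]
          exact (Sum_diff hR hz).continuousAt.tendsto.mono_left nhdsWithin_le_nhds)
      (fun v hv z => Eventually.of_forall fun u => Sum_per hR hv u)
    have hc0 : c = 0 := tendsto_nhds_unique (hc 0) (Sum_zero h2 hR)
    intro z hz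
    rw [← hc0]
    exact tendsto_nhds_unique ((Sum_diff hR hz).continuousAt.tendsto.mono_left nhdsWithin_le_nhds)
      (hc z)
  have hw : ∀ z : ℂ, ¬ inL M z → wp M z = ∑ u ∈ R, (wp L (z + u) - wp L u) := fun z hz =>
    sub_eq_zero.1 (hfz z hz)
  intro z hz
  refine ⟨hw z hz, ?_⟩
  have h3 : wp M =ᶠ[𝓝 z] fun y => ∑ u ∈ R, (wp L (y + u) - wp L u) := by
    filter_upwards [ev_notL hz] with y hy
    exact hw y hy
  exact (hasDerivAt_wp hz).unique ((Sum_hasDeriv hR hz).congr_of_eventuallyEq h3)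

end Pool.Agent.DKB
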