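import Pool.Agent.Lib.DK.B.Spec

/-! # Theorem DK, Part B, module `ZadA`: the first addition formula of `zt` -/

set_option autoImplicit false

namespace Pool.Agent.DKB

open Complex Filter Topology

private theorem ZadA_shift (f : ℂ → ℂ) (a c : ℂ) (h : Tendsto (fun u => f (a + u)) (𝓝[≠] 0) (𝓝 c)) :
    Tendsto f (𝓝[≠] a) (𝓝 c) := by
  have h1 : Tendsto (fun u : ℂ => u - a) (𝓝[≠] a) (𝓝[≠] 0) := by
    refine tendsto_nhdsWithin_of_tendsto_nhds_of_eventually_within _ ?_ ?_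
    · have h2 : Tendsto (fun u : ℂ => u - a) (𝓝 a) (𝓝 (a - a)) :=
        (continuous_id.sub continuous_const).tendsto a
      rw [sub_self] at h2
      exact h2.mono_left nhdsWithin_le_nhds
    · rw [eventually_nhdsWithin_iff]
      exact Eventually.of_forall fun u hu h1 => hu (sub_eq_zero.1 h1)
  refine (h.comp h1).congr fun u => ?_
  simp only [Function.comp_apply, add_sub_cancel]

private theorem ZadA_lim (f G : ℂ → ℂ) (hG : ContinuousAt G 0) (h : ∀ u, u ≠ 0 → f u = u * G u) :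
    Tendsto f (𝓝[≠] 0) (𝓝 0) := by
  have h1 : Tendsto (fun u : ℂ => u * G u) (𝓝 0) (𝓝 0) := by
    have h2 := (continuous_id.tendsto (0 : ℂ)).mul hG.tendsto
    simpa only [id, zero_mul] using h2
  refine (h1.mono_left nhdsWithin_le_nhds).congr' ?_
  rw [EventuallyEq, eventually_nhdsWithin_iff]
  exact Eventually.of_forall fun u hu => (h u hu).symm

/-- The expansion of `zt` at a point `c` which is not in the lattice. -/
private theorem ZadA_zt (h2 : DI.S_Tay) (h4 : G_Zet) (L : PeriodPair) (c : ℂ) (hc : ¬ inL L c) :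
    ∃ r : ℂ → ℂ, AnalyticAt ℂ r 0 ∧ ∀ h, zt L (c + h) =
      zt L c - wp L c * h - wd L c / 2 * h ^ 2 + h ^ 3 * r h := by
  have hev : ∀ᶠ u in 𝓝 c, deriv (zt L) u = -wp L u := by
    filter_upwards [ev_notL hc] with u hu
    exact ((h4 L).1 u hu).deriv
  have han : AnalyticAt ℂ (zt L) c := by
    rw [Complex.analyticAt_iff_eventually_differentiableAt]
    filter_upwards [ev_notL hc] with u hu
    exact ((h4 L).1 u hu).differentiableAt
  obtain ⟨r, hr, h⟩ := h2 (zt L) c han 3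
  refine ⟨r, hr, fun u => ?_⟩
  rw [h u]
  have e1 : iteratedDeriv 1 (zt L) c = -wp L c := by
    rw [iteratedDeriv_one]
    exact hev.self_of_nhds
  have e2 : iteratedDeriv 2 (zt L) c = -wd L c := by
    rw [iteratedDeriv_succ, iteratedDeriv_one]
    rw [Filter.EventuallyEq.deriv_eq hev]
    exact (hasDerivAt_wp hc).neg.deriv
  rw [Finset.sum_range_succ, Finset.sum_range_succ, Finset.sum_range_one, e1, e2,
    iteratedDeriv_zero, Nat.factorial_zero, Nat.factorial_one, Nat.factorial_two]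
  push_cast
  ring

/-- The function of the proof. -/
private noncomputable def ZadA_f (L : PeriodPair) (z' u : ℂ) : ℂ :=
  (zt L (u + z') - zt L u - zt L z') * (wp L u - wp L z') - (wd L u - wd L z') / 2

private theorem ZadA_diff (h4 : G_Zet) (L : PeriodPair) (z' u : ℂ) (hu : ¬ inL L u)
    (hu' : ¬ inL L (u + z')) : DifferentiableAt ℂ (ZadA_f L z') u := by
  have a1 : DifferentiableAt ℂ (fun u => zt L (u + z')) u :=
    (((h4 L).1 _ hu').comp_add_const u z').differentiableAt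
  have a2 : DifferentiableAt ℂ (zt L) u := ((h4 L).1 u hu).differentiableAt
  have a3 : DifferentiableAt ℂ (wp L) u := (hasDerivAt_wp hu).differentiableAt
  have a4 : DifferentiableAt ℂ (wd L) u := (analyticAt_wd hu).differentiableAt
  unfold ZadA_f
  exact (((a1.sub a2).sub_const _).mul (a3.sub_const _)).sub ((a4.sub_const _).div_const _)

private theorem ZadA_per (h4 : G_Zet) (L : PeriodPair) (z' u v : ℂ) (hv : inL L v) (hu : ¬ inL L u)
    (hu' : ¬ inL L (u + z')) : ZadA_f L z' (u + v) = ZadA_f L z' u := by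
  unfold ZadA_f
  have e : u + v + z' = u + z' + v := by ring
  rw [e, (h4 L).2.2.1 _ v hu' hv, (h4 L).2.2.1 _ v hu hv, wp_add _ hv, wd_add _ hv]
  ring

private theorem ZadA_zero (h2 : DI.S_Tay) (h3 : G_Exp) (h4 : G_Zet) (L : PeriodPair) (z' : ℂ)
    (hz' : ¬ inL L z') : Tendsto (ZadA_f L z') (𝓝[≠] 0) (𝓝 0) := by
  obtain ⟨ρ, hρ, e1⟩ := ZadA_zt h2 h4 L z' hz'
  obtain ⟨q, hq, e2⟩ := (h4 L).2.2.2.1
  obtain ⟨r, r1, hr, hr1, e3⟩ := (h3 L).1
  have cρ := hρ.continuousAt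
  have cq := hq.continuousAt
  have cr := hr.continuousAt
  have cr1 := hr1.continuousAt
  refine ZadA_lim _ (fun h => -2 * ca L - 3 * cb L * h ^ 2 - h ^ 4 * r h + wp L z' ^ 2
    - wp L z' * ca L * h ^ 2 - wp L z' * cb L * h ^ 4 - wp L z' * h ^ 6 * r h
    + wp L z' * wd L z' / 2 * h - wd L z' / 2 * ca L * h ^ 3 - wd L z' / 2 * cb L * h ^ 5
    - wd L z' / 2 * h ^ 7 * r h + (ρ h - q h) * (1 - wp L z' * h ^ 2 + ca L * h ^ 4 + cb L * h ^ 6
    + h ^ 8 * r h) - h ^ 4 * r1 h / 2) ?_ ?_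
  · fun_prop
  · intro h hh
    unfold ZadA_f
    rw [add_comm h z', e1 h, e2 h hh, (e3 h hh).1, (e3 h hh).2]
    field_simp
    ring

private theorem ZadA_cont (a b c d : ℂ) (S T R Q : ℂ → ℂ) (hS : ContinuousAt S 0)
    (hT : ContinuousAt T 0) (hR : ContinuousAt R 0) (hQ : ContinuousAt Q 0) :
    ContinuousAt (fun h => h * (-S h + T h / 2 + (a - b * h + h ^ 2 * (Q h - R h)) *
      (c + d * h - h ^ 2 * S h))) 0 := by
  fun_prop

private theorem ZadA_neg (h2 : DI.S_Tay) (h3 : G_Exp) (h4 : G_Zet) (L : PeriodPair) (z' : ℂ)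
    (hz' : ¬ inL L z') : Tendsto (ZadA_f L z') (𝓝[≠] (-z')) (𝓝 0) := by
  obtain ⟨ρ, hρ, e1⟩ := ZadA_zt h2 h4 L z' hz'
  obtain ⟨q, hq, e2⟩ := (h4 L).2.2.2.1
  obtain ⟨s, s1, hs, hs1, e3⟩ := (h3 L).2.2 z' hz'
  have hn : ContinuousAt (fun h : ℂ => -h) 0 := continuousAt_id.neg
  have cρ : ContinuousAt (fun h => ρ (-h)) 0 :=
    ContinuousAt.comp (by rw [neg_zero]; exact hρ.continuousAt) hn
  have cq := hq.continuousAt
  have cs : ContinuousAt (fun h => s (-h)) 0 :=
    ContinuousAt.comp (by rw [neg_zero]; exact hs.continuousAt) hn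
  have cs1 : ContinuousAt (fun h => s1 (-h)) 0 :=
    ContinuousAt.comp (by rw [neg_zero]; exact hs1.continuousAt) hn
  refine ZadA_shift _ _ _ (ZadA_lim _ (fun h => h * (-s (-h) + s1 (-h) / 2 +
    (wp L z' - wd L z' / 2 * h + h ^ 2 * (q h - ρ (-h))) *
    (-wd L z' + (3 * wp L z' ^ 2 - L.g₂ / 4) * h - h ^ 2 * s (-h)))) ?_ ?_)
  · exact ZadA_cont _ _ _ _ _ _ _ _ cs cs1 cρ cq
  · intro h hh
    unfold ZadA_f
    have f1 : -z' + h = -(z' + -h) := by ring
    have f2 : -z' + h + z' = h := by ring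
    rw [f2, f1, (h4 L).2.1, wp_neg, wd_neg, e1 (-h), e2 h hh, (e3 (-h)).1, (e3 (-h)).2]
    field_simp
    ring

theorem tZadA (h1 : G_Lio) (h2 : DI.S_Tay) (h3 : G_Exp) (h4 : G_Zet) : G_ZadA := by
  intro L z z' hz hz' hzz
  obtain ⟨c, hc⟩ := h1 L (ZadA_f L z') (fun z₀ => by
      filter_upwards [ev_inL L z₀, ev_add L z' z₀] with u hu hu'
      exact ZadA_diff h4 L z' u hu hu')
    (fun z₀ => by
      by_cases h5 : inL L z₀
      · refine ⟨-z₀, 0, inL_neg h5, ?_⟩
        rw [add_neg_cancel]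
        exact ZadA_zero h2 h3 h4 L z' hz'
      by_cases h6 : inL L (z₀ + z')
      · refine ⟨-(z₀ + z'), 0, inL_neg h6, ?_⟩
        have h7 : z₀ + -(z₀ + z') = -z' := by ring
        rw [h7]
        exact ZadA_neg h2 h3 h4 L z' hz'
      · refine ⟨0, ZadA_f L z' z₀, inL_zero, ?_⟩
        rw [add_zero]
        exact (ZadA_diff h4 L z' z₀ h5 h6).continuousAt.tendsto.mono_left nhdsWithin_le_nhds)
    (fun v hv z₀ => by
      filter_upwards [ev_inL L z₀, ev_add L z' z₀] with u hu hu'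
      exact ZadA_per h4 L z' u v hv hu hu')
  have h5 : c = 0 := tendsto_nhds_unique (hc 0) (ZadA_zero h2 h3 h4 L z' hz')
  have h6 : c = ZadA_f L z' z := tendsto_nhds_unique (hc z)
    ((ZadA_diff h4 L z' z hz hzz).continuousAt.tendsto.mono_left nhdsWithin_le_nhds)
  rw [h5] at h6
  unfold ZadA_f at h6
  linear_combination -h6

end Pool.Agent.DKB
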