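import Pool.Agent.Lib.DK.B.Spec

/-! # Theorem DK, Part B: the addition theorem, second part (`G_ZadB`) -/

set_option autoImplicit false

namespace Pool.Agent.DKB

open Complex Filter Topology

private noncomputable def ZadB_f (L : PeriodPair) (z' u : ℂ) : ℂ :=
  (zt L (u + z') - zt L u - zt L z') ^ 2 - wp L (u + z') - wp L u - wp L z'

private lemma ZadB_diff (h4 : G_Zet) {L : PeriodPair} {z' u : ℂ} (h : ¬ inL L u)
    (h' : ¬ inL L (u + z')) : DifferentiableAt ℂ (ZadB_f L z') u := by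
  have d1 : DifferentiableAt ℂ (zt L) u := ((h4 L).1 u h).differentiableAt
  have d2 : DifferentiableAt ℂ (fun x => zt L (x + z')) u :=
    (((h4 L).1 _ h').comp_add_const u z').differentiableAt
  have d3 : DifferentiableAt ℂ (wp L) u := (hasDerivAt_wp h).differentiableAt
  have d4 : DifferentiableAt ℂ (fun x => wp L (x + z')) u :=
    ((hasDerivAt_wp h').comp_add_const u z').differentiableAt
  exact (((((d2.sub d1).sub_const _).pow 2).sub d4).sub d3).sub_const _

private lemma ZadB_zero (h2 : DI.S_Tay) (h3 : G_Exp) (h4 : G_Zet) {L : PeriodPair} {z' : ℂ}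
    (hz : ¬ inL L z') : Tendsto (ZadB_f L z') (𝓝[≠] 0) (𝓝 0) := by
  have hzt : AnalyticAt ℂ (zt L) z' := by
    have ho : {z : ℂ | ¬ inL L z} ∈ 𝓝 z' := isOpen_notL.mem_nhds hz
    exact DifferentiableOn.analyticAt
      (fun z hz => ((h4 L).1 z hz).differentiableAt.differentiableWithinAt) ho
  obtain ⟨ρ, hρ, eρ⟩ := h2 (zt L) z' hzt 2
  obtain ⟨hd, -, -, ⟨r2, hr2, er2⟩, -, -⟩ := h4 L
  obtain ⟨⟨r, r1, hr, -, er⟩, -, -⟩ := h3 L
  have k1 : ContinuousAt ρ 0 := hρ.continuousAt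
  have k2 : ContinuousAt r2 0 := hr2.continuousAt
  have k3 : ContinuousAt r 0 := hr.continuousAt
  have k4 : ContinuousAt (fun h => wp L (h + z')) 0 := by
    have h1 : ContinuousAt (wp L) (0 + z') := by
      rw [zero_add]
      exact (hasDerivAt_wp hz).continuousAt
    exact ContinuousAt.comp (f := fun h : ℂ => h + z') h1 (by fun_prop)
  have hF : ContinuousAt (fun h : ℂ => -2 * (-wp L z' + h * ρ h - h ^ 2 * r2 h) +
      h ^ 2 * (-wp L z' + h * ρ h - h ^ 2 * r2 h) ^ 2 - wp L (h + z') - ca L * h ^ 2 -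
      cb L * h ^ 4 - h ^ 6 * r h - wp L z') 0 := by
    fun_prop
  have hF' := hF.tendsto
  have h0 : (-2 * (-wp L z' + 0 * ρ 0 - 0 ^ 2 * r2 0) +
      (0 : ℂ) ^ 2 * (-wp L z' + 0 * ρ 0 - 0 ^ 2 * r2 0) ^ 2 - wp L (0 + z') - ca L * 0 ^ 2 -
      cb L * 0 ^ 4 - 0 ^ 6 * r 0 - wp L z') = 0 := by
    rw [zero_add]
    ring
  rw [h0] at hF'
  refine (hF'.mono_left nhdsWithin_le_nhds).congr' ?_
  filter_upwards [self_mem_nhdsWithin] with h hh
  have hh' : h ≠ 0 := hh
  have e1 : zt L (h + z') = zt L z' - wp L z' * h + h ^ 2 * ρ h := by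
    rw [add_comm h z', eρ h, Finset.sum_range_succ, Finset.sum_range_one, iteratedDeriv_zero,
      iteratedDeriv_one, (hd z' hz).deriv]
    simp only [Nat.factorial, Nat.cast_one, div_one, pow_zero, mul_one, pow_one]
    ring
  unfold ZadB_f
  rw [e1, er2 h hh', (er h hh').1]
  field_simp
  ring

private lemma ZadB_symm (h4 : G_Zet) (L : PeriodPair) (z' u : ℂ) :
    ZadB_f L z' (-z' - u) = ZadB_f L z' u := by
  unfold ZadB_f
  have e1 : -z' - u + z' = -u := by ring
  have e2 : -z' - u = -(u + z') := by ring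
  rw [e1, e2, (h4 L).2.1, (h4 L).2.1, wp_neg, wp_neg]
  ring

private lemma ZadB_neg (h2 : DI.S_Tay) (h3 : G_Exp) (h4 : G_Zet) {L : PeriodPair} {z' : ℂ}
    (hz : ¬ inL L z') : Tendsto (ZadB_f L z') (𝓝[≠] (-z')) (𝓝 0) := by
  have h : Tendsto (fun u : ℂ => -z' - u) (𝓝[≠] (-z')) (𝓝[≠] 0) := by
    refine tendsto_nhdsWithin_of_tendsto_nhds_of_eventually_within _ ?_ ?_
    · have h1 : Tendsto (fun u : ℂ => -z' - u) (𝓝 (-z')) (𝓝 (-z' - -z')) :=
        (by fun_prop : Continuous fun u : ℂ => -z' - u).tendsto (-z')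
      rw [sub_self] at h1
      exact h1.mono_left nhdsWithin_le_nhds
    · rw [eventually_nhdsWithin_iff]
      refine Eventually.of_forall fun u hu h1 => hu ?_
      exact (sub_eq_zero.1 h1).symm
  refine ((ZadB_zero h2 h3 h4 hz).comp h).congr fun u => ?_
  exact ZadB_symm h4 L z' u

private lemma ZadB_per (h4 : G_Zet) {L : PeriodPair} {z' u v : ℂ} (hv : inL L v)
    (h : ¬ inL L u) (h' : ¬ inL L (u + z')) :
    ZadB_f L z' (u + v) = ZadB_f L z' u := by
  unfold ZadB_f
  have e1 : u + v + z' = u + z' + v := by ring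
  rw [e1, (h4 L).2.2.1 _ v h hv, (h4 L).2.2.1 _ v h' hv, wp_add _ hv, wp_add _ hv]
  ring

theorem tZadB (h1 : G_Lio) (h2 : DI.S_Tay) (h3 : G_Exp) (h4 : G_Zet) : G_ZadB := by
  intro L z z' hz hz' hzz
  obtain ⟨c, hc⟩ := h1 L (ZadB_f L z')
    (fun x => by
      filter_upwards [ev_inL L x, ev_add L z' x] with u hu hu'
      exact ZadB_diff h4 hu hu')
    (fun x => by
      by_cases hx : inL L x
      · refine ⟨-x, 0, inL_neg hx, ?_⟩
        rw [add_neg_cancel]
        exact ZadB_zero h2 h3 h4 hz'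
      · by_cases hx' : inL L (x + z')
        · refine ⟨-(x + z'), 0, inL_neg hx', ?_⟩
          have e : x + -(x + z') = -z' := by ring
          rw [e]
          exact ZadB_neg h2 h3 h4 hz'
        · refine ⟨0, ZadB_f L z' x, inL_zero, ?_⟩
          rw [add_zero]
          exact (ZadB_diff h4 hx hx').continuousAt.tendsto.mono_left nhdsWithin_le_nhds)
    (fun v hv x => by
      filter_upwards [ev_inL L x, ev_add L z' x] with u hu hu'
      exact ZadB_per h4 hv hu hu')
  have h0 : c = 0 := tendsto_nhds_unique (hc 0) (ZadB_zero h2 h3 h4 hz')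
  have h5 : ZadB_f L z' z = 0 := by
    rw [← h0]
    exact tendsto_nhds_unique
      ((ZadB_diff h4 hz hzz).continuousAt.tendsto.mono_left nhdsWithin_le_nhds) (hc z)
  unfold ZadB_f at h5
  linear_combination h5

end Pool.Agent.DKB
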