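import Pool.Agent.Lib.DK.B.Spec

/-! # Theorem DK, Part B, module ZetA: the Weierstrass zeta function of an arbitrary lattice -/

set_option autoImplicit false

namespace Pool.Agent.DKB

open Complex Filter Topology

variable {L : PeriodPair}

/-- The terms of `1/z - ζ(z)`. -/
private noncomputable def ZetA_f (L : PeriodPair) (l : L.lattice) (z : ℂ) : ℂ :=
  if l.1 = 0 then 0 else -(1 / (z - l)) - 1 / l - z / (l : ℂ) ^ 2

/-- `1/z - ζ(z)`. -/
private noncomputable def ZetA_N (L : PeriodPair) (z : ℂ) : ℂ := ∑' l : L.lattice, ZetA_f L l z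

private theorem ZetA_bound (r : ℝ) (hr : 0 < r) (s : ℂ) (hs : ‖s‖ < r) (l : ℂ) (h : 2 * r ≤ ‖l‖) :
    ‖-(1 / (s - l)) - 1 / l - s / l ^ 2‖ ≤ 2 * r ^ 2 * ‖l‖ ^ (-3 : ℝ) := by
  have h1 : s ≠ l := by
    rintro rfl
    linarith
  have h2 : 0 < ‖l‖ := by linarith
  have h3 : l ≠ 0 := norm_pos_iff.1 h2
  have h4 : s - l ≠ 0 := sub_ne_zero.2 h1
  have h5 : -(1 / (s - l)) - 1 / l - s / l ^ 2 = -(s ^ 2 / ((s - l) * l ^ 2)) := by
    field_simp
    ring
  have h6 : ‖l‖ / 2 ≤ ‖s - l‖ := by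
    rw [norm_sub_rev]
    exact le_trans (by linarith) (norm_sub_norm_le l s)
  have h7 : ‖l‖ ^ (-3 : ℝ) = (‖l‖ ^ 3)⁻¹ := by
    rw [Real.rpow_neg h2.le]
    norm_cast
  rw [h5, norm_neg, norm_div, norm_mul, norm_pow, norm_pow, h7]
  have h8 : ‖s‖ ^ 2 ≤ r ^ 2 := pow_le_pow_left₀ (norm_nonneg _) hs.le 2
  have h9 : ‖s‖ ^ 2 / (‖s - l‖ * ‖l‖ ^ 2) ≤ r ^ 2 / (‖l‖ / 2 * ‖l‖ ^ 2) := by
    apply div_le_div₀ (by positivity) h8 (by positivity)
    exact mul_le_mul_of_nonneg_right h6 (by positivity)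
  refine h9.trans (le_of_eq ?_)
  field_simp

private theorem ZetA_unif : HasSumLocallyUniformly (fun (l : L.lattice) (z : ℂ) => ZetA_f L l z)
    (ZetA_N L) := by
  refine L.hasSumLocallyUniformly_aux _ (fun r l => 2 * r ^ 2 * ‖(l : ℂ)‖ ^ (-3 : ℝ))
    (fun r _ => (ZLattice.summable_norm_rpow L.lattice _ (by
      rw [L.finrank_lattice]
      norm_num)).mul_left _) fun r hr => Filter.eventually_atTop.mpr ⟨2 * r, ?_⟩
  rintro R hR s hs l rfl
  unfold ZetA_f
  split_ifs
  · rw [norm_zero]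
    positivity
  · exact ZetA_bound r hr s hs l hR

private theorem ZetA_hasSum (z : ℂ) : HasSum (fun l : L.lattice => ZetA_f L l z) (ZetA_N L z) :=
  ZetA_unif.hasSum

private theorem ZetA_fd (l : L.lattice) (z : ℂ) (hz : z ∈ ((L.lattice : Set ℂ) \ {0})ᶜ) :
    HasDerivAt (ZetA_f L l) (if l.1 = 0 then 0 else (1 / (z - l) ^ 2 - 1 / (l : ℂ) ^ 2)) z := by
  by_cases h : l.1 = 0
  · rw [if_pos h]
    have : ZetA_f L l = fun _ => 0 := by
      funext w
      unfold ZetA_f
      rw [if_pos h]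
    rw [this]
    exact hasDerivAt_const z _
  · rw [if_neg h]
    have h1 : z - l ≠ 0 := by
      intro h2
      rw [sub_eq_zero] at h2
      apply hz
      rw [h2]
      exact ⟨l.2, h⟩
    have h3 : ZetA_f L l = fun w => -(w - (l : ℂ))⁻¹ - 1 / l - w / (l : ℂ) ^ 2 := by
      funext w
      unfold ZetA_f
      rw [if_neg h, one_div]
    rw [h3]
    have h4 : HasDerivAt (fun w : ℂ => w - (l : ℂ)) 1 z := (hasDerivAt_id z).sub_const _
    have h5 := ((h4.inv h1).neg.sub_const (1 / (l : ℂ))).sub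
      ((hasDerivAt_id z).div_const ((l : ℂ) ^ 2))
    refine h5.congr_deriv ?_
    rw [neg_div, neg_neg]

private theorem ZetA_diffOn : DifferentiableOn ℂ (ZetA_N L) ((L.lattice : Set ℂ) \ {0})ᶜ := by
  refine ZetA_unif.hasSumLocallyUniformlyOn.differentiableOn
    (.of_forall fun s => .fun_sum fun i _ => ?_) L.isOpen_compl_lattice_sdiff
  exact fun z hz => (ZetA_fd i z hz).differentiableAt.differentiableWithinAt

private theorem ZetA_derivN : Set.EqOn (deriv (ZetA_N L)) (PeriodPair.weierstrassPExcept L 0)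
    ((L.lattice : Set ℂ) \ {0})ᶜ := by
  refine (ZetA_unif.tendstoLocallyUniformlyOn.deriv
    (.of_forall fun s => ?_) L.isOpen_compl_lattice_sdiff).unique ?_
  · refine .fun_sum fun i _ => ?_
    exact fun z hz => (ZetA_fd i z hz).differentiableAt.differentiableWithinAt
  · refine (L.hasSumLocallyUniformly_weierstrassPExcept 0).tendstoLocallyUniformlyOn.congr ?_
    intro s z hz
    simp only [Function.comp_apply]
    rw [deriv_fun_sum]
    · exact Finset.sum_congr rfl fun i _ => ((ZetA_fd i z hz).deriv).symm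
    · exact fun i _ => (ZetA_fd i z hz).differentiableAt

private theorem ZetA_hasDeriv {z : ℂ} (hz : z ∈ ((L.lattice : Set ℂ) \ {0})ᶜ) :
    HasDerivAt (ZetA_N L) (PeriodPair.weierstrassPExcept L 0 z) z := by
  rw [← ZetA_derivN hz]
  exact (ZetA_diffOn.differentiableAt (L.isOpen_compl_lattice_sdiff.mem_nhds hz)).hasDerivAt

private theorem ZetA_zt (z : ℂ) : zt L z = z⁻¹ - ZetA_N L z := by
  have h1 : HasSum (fun l : L.lattice => if l = (0 : L.lattice) then z⁻¹ else 0) z⁻¹ :=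
    hasSum_ite_eq (0 : L.lattice) z⁻¹
  have h2 := h1.sub (ZetA_hasSum z)
  rw [← h2.tsum_eq]
  unfold zt
  refine tsum_congr fun l => ?_
  unfold ZetA_f
  by_cases h : l = 0
  · have h3 : (l : ℂ) = 0 := by
      rw [h]
      rfl
    rw [if_pos h, if_pos h3, h3]
    simp
  · have h3 : (l : ℂ) ≠ 0 := fun h4 => h (Subtype.ext h4)
    rw [if_neg h, if_neg h3]
    ring

private theorem ZetA_wp (z : ℂ) : wp L z = PeriodPair.weierstrassPExcept L 0 z + (z ^ 2)⁻¹ := by
  have h := L.weierstrassPExcept_add (0 : L.lattice) z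
  unfold wp
  rw [← h]
  simp

theorem tZetA (h1 : DI.S_Tay) : G_ZetA := by
  intro L
  refine ⟨?_, ?_, ?_⟩
  · intro z hz
    have hz0 : z ≠ 0 := by
      rintro rfl
      exact hz inL_zero
    have hU : z ∈ ((L.lattice : Set ℂ) \ {0})ᶜ := fun h => hz h.1
    have h3 : zt L = fun w => w⁻¹ - ZetA_N L w := funext ZetA_zt
    rw [h3]
    refine ((hasDerivAt_inv hz0).sub (ZetA_hasDeriv hU)).congr_deriv ?_
    rw [ZetA_wp]
    ring
  · intro z
    unfold zt
    rw [← (Equiv.neg L.lattice).tsum_eq, ← tsum_neg]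
    refine tsum_congr fun l => ?_
    have h3 : (((Equiv.neg L.lattice) l : L.lattice) : ℂ) = -(l : ℂ) := rfl
    rw [h3]
    have h4 : -z - -(l : ℂ) = -(z - l) := by ring
    rw [h4, neg_sq, div_neg, div_neg]
    ring
  · have h0 : (0 : ℂ) ∈ ((L.lattice : Set ℂ) \ {0})ᶜ := fun h => h.2 rfl
    have hnh : ((L.lattice : Set ℂ) \ {0})ᶜ ∈ 𝓝 (0 : ℂ) := L.isOpen_compl_lattice_sdiff.mem_nhds h0
    have han : AnalyticAt ℂ (ZetA_N L) 0 := ZetA_diffOn.analyticAt hnh
    obtain ⟨r, hr, hrz⟩ := h1 (ZetA_N L) 0 han 3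
    have e0 : ZetA_N L 0 = 0 := by
      unfold ZetA_N
      refine Eq.trans (tsum_congr fun l => ?_) tsum_zero
      unfold ZetA_f
      split_ifs
      · rfl
      · rw [zero_sub, div_neg, zero_div]
        ring
    have e1 : deriv (ZetA_N L) 0 = 0 := by
      rw [ZetA_derivN h0, PeriodPair.weierstrassPExcept_zero]
    have e2 : deriv (deriv (ZetA_N L)) 0 = 0 := by
      have h2 : deriv (ZetA_N L) =ᶠ[𝓝 0] PeriodPair.weierstrassPExcept L 0 :=
        Filter.eventually_of_mem hnh fun w hw => ZetA_derivN hw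
      rw [h2.deriv_eq, L.eqOn_deriv_weierstrassPExcept_derivWeierstrassPExcept 0 h0]
      have h3 := L.derivWeierstrassPExcept_neg 0 0
      rw [neg_zero] at h3
      have h4 : PeriodPair.derivWeierstrassPExcept L 0 0 + PeriodPair.derivWeierstrassPExcept L 0 0
          = 0 := by linear_combination h3
      rw [← two_mul] at h4
      rcases mul_eq_zero.1 h4 with h5 | h5
      · norm_num at h5
      · exact h5
    refine ⟨fun z => -r z, hr.neg, fun z hz => ?_⟩
    have h5 := hrz z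
    rw [zero_add] at h5
    rw [ZetA_zt, h5, Finset.sum_range_succ, Finset.sum_range_succ, Finset.sum_range_one,
      iteratedDeriv_zero, iteratedDeriv_one, iteratedDeriv_succ, iteratedDeriv_one, e0, e1, e2]
    ring

end Pool.Agent.DKB
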