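import Pool.Agent.Lib.DK.B.Spec

/-! # Theorem DK, Part B, module `ZetB`: the quasi-periods of `zt` -/

set_option autoImplicit false

noncomputable section

namespace Pool.Agent.DKB

open Complex Filter Topology

/-- `η v`, the value of `zt (z + v) - zt z` at `z = ω₁/2`. -/
def ZetB_eta (L : PeriodPair) (v : ℂ) : ℂ := zt L (L.ω₁ / 2 + v) - zt L (L.ω₁ / 2)

variable {L : PeriodPair}

theorem ZetB_const (h : G_ZetA) {v : ℂ} (hv : inL L v) (z : ℂ) (hz : ¬ inL L z) :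
    zt L (z + v) - zt L z = ZetB_eta L v := by
  have hd : ∀ z, ¬ inL L z → HasDerivAt (fun z => zt L (z + v) - zt L z) 0 z := by
    intro z hz
    have h1 := (h L).1 z hz
    have h2 : HasDerivAt (zt L) (-wp L (z + v)) (z + v) := (h L).1 _ (by rwa [inL_add_iff hv])
    have h3 := (h2.comp_add_const z v).sub h1
    rw [wp_add z hv, sub_self] at h3
    exact h3
  exact isOpen_notL.is_const_of_deriv_eq_zero preconn_notL
    (f := fun z => zt L (z + v) - zt L z)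
    (fun z hz => (hd z hz).differentiableAt.differentiableWithinAt)
    (fun z hz => (hd z hz).deriv) hz notL_h1

theorem ZetB_add (h : G_ZetA) {u v : ℂ} (hu : inL L u) (hv : inL L v) :
    ZetB_eta L (u + v) = ZetB_eta L u + ZetB_eta L v := by
  have h1 : ¬ inL L (L.ω₁ / 2 + u) := by
    rw [inL_add_iff hu]
    exact notL_h1
  have h2 := ZetB_const h hv _ h1
  rw [← h2]
  unfold ZetB_eta
  rw [add_assoc]
  ring

theorem ZetB_one (h : G_ZetA) : ZetB_eta L L.ω₁ = et1 L := by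
  have h1 : ¬ inL L (-(L.ω₁ / 2)) := by
    rw [inL_neg_iff]
    exact notL_h1
  have h2 := ZetB_const h inL_o1 _ h1
  have h3 : -(L.ω₁ / 2) + L.ω₁ = L.ω₁ / 2 := by ring
  rw [h3, (h L).2.1] at h2
  rw [← h2]
  unfold et1
  ring

theorem ZetB_two (h : G_ZetA) : ZetB_eta L L.ω₂ = et2 L := by
  have h1 : ¬ inL L (-(L.ω₂ / 2)) := by
    rw [inL_neg_iff]
    exact notL_h2
  have h2 := ZetB_const h inL_o2 _ h1
  have h3 : -(L.ω₂ / 2) + L.ω₂ = L.ω₂ / 2 := by ring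
  rw [h3, (h L).2.1] at h2
  rw [← h2]
  unfold et2
  ring

theorem ZetB_eq (h : G_ZetA) (m n : ℤ) : ZetB_eta L (m * L.ω₁ + n * L.ω₂) = m * et1 L + n * et2 L := by
  let F : L.lattice →+ ℂ := AddMonoidHom.mk' (fun v => ZetB_eta L (v : ℂ)) (fun u v => by
    rw [Submodule.coe_add]
    exact ZetB_add h u.2 v.2)
  have h1 : F (m • (⟨L.ω₁, inL_o1⟩ : L.lattice) + n • (⟨L.ω₂, inL_o2⟩ : L.lattice)) =
      m • F ⟨L.ω₁, inL_o1⟩ + n • F ⟨L.ω₂, inL_o2⟩ := by
    rw [map_add, map_zsmul, map_zsmul]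
  have h2 : F (m • (⟨L.ω₁, inL_o1⟩ : L.lattice) + n • (⟨L.ω₂, inL_o2⟩ : L.lattice)) =
      ZetB_eta L (m * L.ω₁ + n * L.ω₂) := by
    change ZetB_eta L (m • L.ω₁ + n • L.ω₂) = _
    rw [zsmul_eq_mul, zsmul_eq_mul]
  rw [← h2, h1, zsmul_eq_mul, zsmul_eq_mul]
  change (m : ℂ) * ZetB_eta L L.ω₁ + n * ZetB_eta L L.ω₂ = _
  rw [ZetB_one h, ZetB_two h]

theorem tZet (h1 : G_ZetA) : G_Zet := by
  intro L
  have ho1 : L.ω₁ ≠ 0 := o1_ne L
  have him := im_ne L
  have hB : be L * ((starRingEnd ℂ) L.ω₂ * L.ω₁ - (starRingEnd ℂ) L.ω₁ * L.ω₂) =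
      et2 L * L.ω₁ - et1 L * L.ω₂ := by
    unfold be
    exact div_mul_cancel₀ _ him
  have e1 : al L * L.ω₁ + be L * (starRingEnd ℂ) L.ω₁ = et1 L := by
    unfold al
    field_simp
    ring
  have e2 : al L * L.ω₂ + be L * (starRingEnd ℂ) L.ω₂ = et2 L := by
    unfold al
    field_simp
    linear_combination hB
  refine ⟨(h1 L).1, (h1 L).2.1, fun z v hz hv => ?_, (h1 L).2.2, e1, e2⟩
  obtain ⟨m, n, hmn⟩ := inL_iff.1 hv
  have h2 := ZetB_const h1 hv z hz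
  have h3 : ZetB_eta L v = m * et1 L + n * et2 L := by
    rw [hmn]
    exact ZetB_eq h1 m n
  have h4 : (starRingEnd ℂ) v = m * (starRingEnd ℂ) L.ω₁ + n * (starRingEnd ℂ) L.ω₂ := by
    rw [hmn, map_add, map_mul, map_mul, map_intCast, map_intCast]
  rw [h3] at h2
  rw [h4]
  have h5 : zt L (z + v) = zt L z + (m * et1 L + n * et2 L) := by
    linear_combination h2
  rw [h5, ← e1, ← e2]
  linear_combination (-al L) * hmn

end Pool.Agent.DKB
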