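import Pool.Agent.Lib.DI.B.Tay
import Pool.Agent.Lib.DI.B.KQ
import Pool.Agent.Lib.DK.B.Lio
import Pool.Agent.Lib.DK.B.Exp
import Pool.Agent.Lib.DK.B.ZetA
import Pool.Agent.Lib.DK.B.ZetB
import Pool.Agent.Lib.DK.B.ZadA
import Pool.Agent.Lib.DK.B.ZadB
import Pool.Agent.Lib.DK.B.MulB
import Pool.Agent.Lib.DK.B.Dis
import Pool.Agent.Lib.DK.B.Inj
import Pool.Agent.Lib.DK.B.Add
import Pool.Agent.Lib.DK.B.Sum
import Pool.Agent.Lib.DK.B.Scl
import Pool.Agent.Lib.DK.B.Uni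
import Pool.Agent.Lib.DK.B.KS
import Pool.Agent.Lib.DK.B.KD
import Pool.Agent.Lib.DK.B.KA
import Pool.Agent.Lib.DK.B.KB
import Pool.Agent.Lib.DK.B.Ord
import Pool.Agent.Lib.DK.B.Quo
import Pool.Agent.Lib.DK.B.PrA
import Pool.Agent.Lib.DK.B.PrB
import Pool.Agent.Lib.DK.B.PrC

/-!
# Theorem DK, Part B: assembly of the general half (arbitrary lattices), complete

`gLio : G_Lio`, ..., `gPrC : G_PrC`: all without hypotheses.
-/

set_option autoImplicit false

namespace Pool.Agent.DKB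

theorem gLio : G_Lio := tLio
theorem gExp : G_Exp := tExp DI.tTay
theorem gZetA : G_ZetA := tZetA DI.tTay
theorem gZet : G_Zet := tZet gZetA
theorem gZadA : G_ZadA := tZadA gLio DI.tTay gExp gZet
theorem gZadB : G_ZadB := tZadB gLio DI.tTay gExp gZet
theorem gMulB : G_MulB := tMulB gLio gExp
theorem gDis : G_Dis := tDis gExp gMulB
theorem gInj : G_Inj := tInj gExp gZadA gZadB gDis
theorem gAdd : G_Add := tAdd gExp gZet gZadA gZadB
theorem gSum : G_Sum := tSum gLio gExp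
theorem gScl : G_Scl := tScl
theorem gUni : G_Uni := tUni gExp
theorem gKS : G_KS := tKS
theorem gKD : G_KD := tKD gKS
theorem gKA : G_KA := tKA gKS DI.tKQ
theorem gKB : G_KB := tKB gZet gKS gKA gKD
theorem gOrd : G_Ord := tOrd gExp gDis gInj
theorem gQuo : G_Quo := tQuo gLio
theorem gPrA : G_PrA := tPrA gOrd gQuo
theorem gPrB : G_PrB := tPrB gExp
theorem gPrC : G_PrC := tPrC gOrd gQuo

end Pool.Agent.DKB
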