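import Pool.Agent.Lib.DK.B.SpecK

/-!
# Theorem DK, Part B, module B1: basic properties
-/

set_option autoImplicit false

open scoped Pointwise Topology
open Filter

noncomputable section

namespace Pool.Agent.DK

open Pool.Agent.MuZ Pool.Agent.FW NumberField IsDedekindDomain
open Pool.Agent.DI (io ofC io_inj exists_io io_ofC ofC_io VP MP UP TP ex sqr sqr_sq kap)
open Pool.Agent.DKB (inL wp wd zt kz KK IsRp IsHf)

theorem sB1 (h1 : K_Cst) (h2 : DKB.G_Inj) (h3 : S_B3) : S_B1 := by
  intro k _ b hb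
  obtain ⟨hs, hD, hD16, eS, eT, eST, -, -⟩ := h1 k b hb
  obtain ⟨hinj, hzero⟩ := h2 (LP b)
  have hn : ∀ z : ℂ, z ∉ Lam b → ¬ inL (LP b) z := fun z hz => (notL_LP hb).2 hz
  have hX : ∀ z : ℂ, wpC b z = s2 b * XC b z + wpC b (ptS b) := by
    intro z
    unfold XC
    rw [mul_div_cancel₀ _ hs]
    ring
  have hXS : XC b (ptS b) = 0 := by
    unfold XC
    rw [sub_self, zero_div]
  have hXT : XC b (ptT b) = -1 / 4 := by
    have h := hX (ptT b)
    rw [eS, eT] at h
    have h5 : s2 b * XC b (ptT b) = s2 b * (-1 / 4) := by linear_combination -h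
    exact mul_left_cancel₀ hs h5
  have hXST : XC b (ptS b + ptT b) = -4 * DC b := by
    have h := hX (ptS b + ptT b)
    rw [eS, eST] at h
    have h5 : s2 b * XC b (ptS b + ptT b) = s2 b * (-4 * DC b) := by linear_combination -h
    exact mul_left_cancel₀ hs h5
  have hadd : ∀ z l : ℂ, l ∈ Lam b → XC b (z + l) = XC b z := by
    intro z l hl
    unfold XC
    rw [wpC_add hb z hl]
  refine ⟨fun z l hl => ⟨wpC_add hb z hl, wdC_add hb z hl, hadd z l hl⟩,
    fun z => ⟨wpC_neg b z, wdC_neg b z, XC_neg b z⟩, hs, hD, hD16, ?_, ?_, hX, ?_, hXS, hXT, hXST, ?_⟩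
  · intro z z' hz hz'
    have h := hinj z z' (hn z hz) (hn z' hz')
    rw [inL_LP hb, inL_LP hb, ← wpC_eq] at h
    rw [← h, hX z, hX z']
    constructor
    · intro h4
      rw [h4]
    · intro h4
      exact mul_left_cancel₀ hs (add_right_cancel h4)
  · intro z hz
    have h := hzero z (hn z hz)
    rw [inL_LP hb, ← wdC_eq, ← two_mul] at h
    exact h
  · intro z hz
    refine ⟨?_, wdC_lat hb hz⟩
    have h := hX z
    rw [wpC_lat hb hz, eS] at h
    have h5 : s2 b * XC b z = s2 b * (-(1 + 16 * DC b) / 12) := by linear_combination -h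
    exact mul_left_cancel₀ hs h5
  · obtain ⟨-, -, -, ⟨h4, -, -, -⟩, -⟩ := aL6 k b hb
    have h5 : 2 * ptt b ∉ Lam b := by
      intro h6
      apply ptS_mem hb
      have e : ptS b = 2 * ptt b - (2 * ptt b - ptS b) := by ring
      rw [e]
      exact lam_sub h6 h4
    have h7 := (h3 k b hb).2 (ptt b) h5
    rw [XC_congr hb h4, hXS, zero_mul] at h7
    have h8 : XC b (ptt b) ^ 2 - DC b = 0 := by
      have h9 : (XC b (ptt b) ^ 2 - DC b) ^ 2 = 0 := h7.symm
      exact pow_eq_zero_iff (two_ne_zero) |>.1 h9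
    unfold ThC
    linear_combination h8

end Pool.Agent.DK
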