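import Pool.Agent.Lib.DK.B.SpecK

/-!
# Theorem DK, Part B, module B12 (helper46): the framing
-/

set_option autoImplicit false

open scoped Pointwise Topology
open Filter

noncomputable section

namespace Pool.Agent.DK

open Pool.Agent.MuZ Pool.Agent.FW NumberField IsDedekindDomain
open Pool.Agent.DI (io ofC io_inj exists_io io_ofC ofC_io VP MP UP TP ex sqr sqr_sq kap)
open Pool.Agent.DKB (inL wp wd zt kz KK IsRp IsHf)

variable {k : ℕ}

/-- `2/f` is not in the lattice. -/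
theorem B12_two_div_notLam [SqK k] {f : ℕ} {b : Ideal (OO k)} (hf3 : 3 ≤ f) (hbf : PrI b f) :
    (2 : ℂ) * (1 / f) ∉ Lam b := by
  intro h
  have hf0 : (f : ℂ) ≠ 0 := by
    have : f ≠ 0 := by omega
    exact_mod_cast this
  unfold PrI at hbf
  have h1 : (1 : OO k) ∈ b ⊔ Ideal.span {(f : OO k)} := by
    rw [hbf]
    exact Submodule.mem_top
  obtain ⟨β, hβ, γ', hγ', he⟩ := Submodule.mem_sup.1 h1
  obtain ⟨γ, rfl⟩ := Ideal.mem_span_singleton'.1 hγ'
  obtain ⟨u, hu⟩ := h β hβ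
  have h2 : toC ((f : OO k) * (u + 2 * γ)) = toC (2 : OO k) := by
    rw [toC_mul, toC_add, toC_mul, toC_nat, toC_two, ← hu]
    have h3 : toC β + toC γ * f = 1 := by
      rw [← toC_nat (k := k), ← toC_mul, ← toC_add, he, toC_one]
    have h9 : (f : ℂ) * (1 / f) = 1 := by rw [one_div, mul_inv_cancel₀ hf0]
    linear_combination 2 * h3 + 2 * toC β * h9
  have h4 := toC_inj h2
  have h5 : (f : OO k) ∣ 2 := ⟨_, h4.symm⟩
  have h6 := ((nat_dvd_iff f (2 : OO k)).1 h5).1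
  have h7 : ((2 : OO k)).re = 2 := by
    have := re_nat (k := k) 2
    exact_mod_cast this
  rw [h7] at h6
  have h8 : f ∣ 2 := by exact_mod_cast h6
  have h9 := Nat.le_of_dvd (by norm_num) h8
  omega

theorem B12_one_div_notLam [SqK k] {f : ℕ} {b : Ideal (OO k)} (hf3 : 3 ≤ f) (hbf : PrI b f) :
    (1 : ℂ) / f ∉ Lam b := by
  intro h
  refine B12_two_div_notLam hf3 hbf ?_
  rw [two_mul]
  exact lam_add h h

theorem B12_toC_lam [SqK k] (b : Ideal (OO k)) (v : OO k) : toC v ∈ Lam b := by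
  intro w _
  exact ⟨w * v, (toC_mul w v).symm⟩

theorem B12_PrI_sp [SqK k] {f : ℕ} {α : OO k} (h : (f : OO k) ∣ α - 1 ∨ (f : OO k) ∣ α + 1) :
    PrI (sp α) f := by
  unfold PrI
  rw [Ideal.eq_top_iff_one]
  rcases h with ⟨γ, h⟩ | ⟨γ, h⟩
  · have : (1 : OO k) = α - f * γ := by rw [← h]; ring
    rw [this]
    refine Submodule.sub_mem _ (Ideal.mem_sup_left (Ideal.mem_span_singleton_self _))
      (Ideal.mem_sup_right ?_)
    exact Ideal.mem_span_singleton'.2 ⟨γ, by ring⟩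
  · have : (1 : OO k) = f * γ - α := by rw [← h]; ring
    rw [this]
    refine Submodule.sub_mem _ (Ideal.mem_sup_right ?_)
      (Ideal.mem_sup_left (Ideal.mem_span_singleton_self _))
    exact Ideal.mem_span_singleton'.2 ⟨γ, by ring⟩

theorem B12_fr_pos {f : ℕ} {b : Ideal (OO k)} (hb : b ≠ ⊥) (hbf : PrI b f) :
    fr f b = (6 * wpC b (1 / f) ^ 2 - (LP b).g₂ / 2) / wdC b (1 / f) := by
  unfold fr
  rw [if_pos ⟨hb, hbf⟩]

theorem sB12 (h1 : K_Cst) (h2 : DKB.G_Inj) (h3 : DKB.G_Scl) : S_B12 := by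
  intro k _ f b _ hf3 hb hbf
  have hf0 : (f : ℂ) ≠ 0 := by
    have : f ≠ 0 := by omega
    exact_mod_cast this
  have n2 := B12_two_div_notLam hf3 hbf
  have n1 := B12_one_div_notLam hf3 hbf
  have hw : wdC b (1 / f) ≠ 0 := by
    intro h
    have h5 := ((h2 (LP b)).2 (1 / f) ((notL_LP hb).2 n1)).1 h
    rw [← two_mul] at h5
    exact n2 ((inL_LP hb).1 h5)
  have key : ∀ (α : OO k), α ≠ 0 → (f : OO k) ∣ α - 1 ∨ (f : OO k) ∣ α + 1 →
      fr f (sp α * b) = toC α * ((6 * wpC b (toC α * (1 / f)) ^ 2 - (LP b).g₂ / 2) /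
        wdC b (toC α * (1 / f))) := by
    intro α hα hd
    have hab : sp α * b ≠ ⊥ := by
      intro h
      rcases Ideal.mul_eq_bot.1 h with h5 | h5
      · exact hα (Ideal.span_singleton_eq_bot.1 h5)
      · exact hb h5
    have hc : toC α ≠ 0 := toC_ne hα
    have hP : PrI (sp α * b) f := ((aO6 k).1 f (sp α) b).2 ⟨B12_PrI_sp hd, hbf⟩
    rw [B12_fr_pos hab hP]
    have hl : ∀ z, inL (LP (sp α * b)) z ↔ inL (LP b) (toC α * z) := by
      intro z
      rw [inL_LP hab, inL_LP hb, lam_sp]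
    obtain ⟨e1, e2, -, e3, -⟩ := h3.1 (LP b) (LP (sp α * b)) (toC α) hc hl
    rw [wpC_eq, wdC_eq, e1, e2, e3, wpC_eq, wdC_eq]
    by_cases hw0 : wd (LP b) (toC α * (1 / f)) = 0
    · rw [hw0]
      simp
    · field_simp
  refine ⟨hw, ?_, fun α hα hd => ?_, fun α hα hd => ?_, ?_⟩
  · rw [B12_fr_pos hb hbf, div_mul_cancel₀ _ hw]
    obtain ⟨hs, -, -, e4, -, -, e5, -⟩ := h1 k b hb
    have e6 : wpC b (1 / f) = s2 b * XC b (1 / f) + wpC b (ptS b) := by
      unfold XC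
      field_simp
      ring
    rw [e6, e4, e5]
    ring
  · rw [key α hα (Or.inl hd), B12_fr_pos hb hbf]
    obtain ⟨γ, hγ⟩ := hd
    have e : toC α * (1 / f) = 1 / f + toC γ := by
      have h5 : toC α - 1 = f * toC γ := by
        rw [← toC_one (k := k), ← toC_sub, hγ, toC_mul, toC_nat]
      field_simp
      linear_combination h5
    have p1 := wpC_add hb (1 / f) (B12_toC_lam b γ)
    have p2 := wdC_add hb (1 / f) (B12_toC_lam b γ)
    rw [e, p1, p2]
  · rw [key α hα (Or.inr hd), B12_fr_pos hb hbf]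
    obtain ⟨γ, hγ⟩ := hd
    have e : toC α * (1 / f) = -(1 / f) + toC γ := by
      have h5 : toC α + 1 = f * toC γ := by
        rw [← toC_one (k := k), ← toC_add, hγ, toC_mul, toC_nat]
      field_simp
      linear_combination h5
    have p1 := wpC_add hb (-(1 / f)) (B12_toC_lam b γ)
    have p2 := wdC_add hb (-(1 / f)) (B12_toC_lam b γ)
    have q1 := wpC_neg b (1 / f)
    have q2 := wdC_neg b (1 / f)
    rw [e, p1, p2, q1, q2, div_neg]
    ring
  · obtain ⟨-, -, o3, -, o5, -⟩ := aO3 k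
    have hcb : cjI b ≠ ⊥ := by
      intro h
      apply hb
      rw [← (o3 b).1, h]
      rw [eq_bot_iff]
      unfold cjI
      rw [Ideal.span_le]
      rintro _ ⟨v, hv, rfl⟩
      have : v = 0 := hv
      rw [this, cjO_zero]
      exact Submodule.zero_mem _
    have hcP : PrI (cjI b) f := (o5 b f).2 hbf
    have hl : ∀ z, inL (LP (cjI b)) z ↔ inL (LP b) ((starRingEnd ℂ) z) := by
      intro z
      rw [inL_LP hcb, inL_LP hb]
      exact (aL2 k).2.2.2.2.2.2.1 b z hb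
    obtain ⟨e1, e2, -, e3, -⟩ := h3.2.1 (LP b) (LP (cjI b)) hl
    rw [B12_fr_pos hb hbf, B12_fr_pos hcb hcP, wpC_eq, wdC_eq, wpC_eq, wdC_eq, e1, e2, e3]
    have h6 : (starRingEnd ℂ) (1 / (f : ℂ)) = 1 / f := by
      rw [map_div₀, map_one, map_natCast]
    have h8 : (starRingEnd ℂ) 6 = 6 := Complex.conj_ofNat 6
    have h9 : (starRingEnd ℂ) 2 = 2 := Complex.conj_ofNat 2
    rw [h6, map_div₀, map_sub, map_mul, map_pow, map_div₀, h8, h9]

end Pool.Agent.DK
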