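import Pool.Agent.Lib.DK.B.SpecK

/-!
# Theorem DK, Part B, module B13: injectivity of `DC` on the ideal classes
-/

set_option autoImplicit false

open scoped Pointwise Topology
open Filter

noncomputable section

namespace Pool.Agent.DK

open Pool.Agent.MuZ Pool.Agent.FW NumberField IsDedekindDomain
open Pool.Agent.DI (io ofC io_inj exists_io io_ofC ofC_io VP MP UP TP ex sqr sqr_sq kap)
open Pool.Agent.DKB (inL wp wd zt kz KK IsRp IsHf)

/-- `Lam a ⊆ Lam a'` implies `a' ≤ a`. -/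
private theorem B13_le {k : ℕ} [SqK k] {a a' : Ideal (OO k)} (ha : a ≠ ⊥)
    (h : ∀ z : ℂ, z ∈ Lam a → z ∈ Lam a') : a' ≤ a := by
  obtain ⟨⟨g, hg, hg'⟩, h2, -⟩ := aL3 k a ⊤ ha top_ne_bot
  intro v hv
  have h3 := (h2 g hg hg').1 v
  rw [← h3]
  rw [Ideal.mul_top] at hg
  obtain ⟨u, hu⟩ := h g hg v hv
  rw [lam_top]
  exact ⟨u, hu⟩

/-- `Lam` is injective. -/
private theorem B13_inj {k : ℕ} [SqK k] {a a' : Ideal (OO k)} (ha : a ≠ ⊥) (ha' : a' ≠ ⊥)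
    (h : ∀ z : ℂ, z ∈ Lam a ↔ z ∈ Lam a') : a = a' :=
  le_antisymm (B13_le ha' fun z hz => (h z).2 hz) (B13_le ha fun z hz => (h z).1 hz)

theorem sB13 (h1 : K_Cst) (h2 : DKB.G_Scl) (h3 : DKB.G_Uni) : S_B13 := by
  intro k _ b b' hb hb' hD
  obtain ⟨s0, -, -, -, -, -, hg2, hg3⟩ := h1 k b hb
  obtain ⟨s0', -, -, -, -, -, hg2', hg3'⟩ := h1 k b' hb'
  obtain ⟨c, hc⟩ := IsAlgClosed.exists_pow_nat_eq (s2 b / s2 b') (n := 2) (by norm_num)
  have hc0 : c ≠ 0 := by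
    rintro rfl
    rw [zero_pow (by norm_num)] at hc
    exact div_ne_zero s0 s0' hc.symm
  obtain ⟨M, hM⟩ := h2.2.2 (LP b') c hc0
  obtain ⟨-, -, -, hM2, hM3⟩ := h2.1 (LP b') M c hc0 hM
  have hcs : c ^ 2 * s2 b' = s2 b := by
    rw [hc]
    exact div_mul_cancel₀ _ s0'
  have e2 : M.g₂ = (LP b).g₂ := by
    rw [hM2, hg2, hg2', ← hD, ← hcs]
    ring
  have e3 : M.g₃ = (LP b).g₃ := by
    rw [hM3, hg3, hg3', ← hD, ← hcs]
    ring
  have key : ∀ z : ℂ, z ∈ Lam b ↔ c * z ∈ Lam b' := fun z => by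
    rw [← inL_LP hb, ← inL_LP hb', ← hM z]
    exact (h3 M (LP b) e2 e3 z).symm
  have h1b : (1 : ℂ) ∈ Lam b := fun v _ => ⟨v, by rw [mul_one]⟩
  have hcb : c ∈ Lam b' := by
    have := (key 1).1 h1b
    rwa [mul_one] at this
  obtain ⟨v, n, hn, hcv⟩ := tor_lam hb' hcb
  have hn0 : (n : ℂ) ≠ 0 := Nat.cast_ne_zero.2 hn.ne'
  have hv0 : v ≠ 0 := by
    rintro rfl
    rw [toC_zero, zero_div] at hcv
    exact hc0 hcv
  have hnO : (n : OO k) ≠ 0 := by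
    intro h0
    have h4 := congrArg (toC (k := k)) h0
    rw [toC_nat, toC_zero] at h4
    exact hn0 h4
  refine ⟨(n : OO k), v, hnO, hv0, ?_⟩
  refine B13_inj (mul_ne_zero (sp_ne hnO) hb) (mul_ne_zero (sp_ne hv0) hb') fun z => ?_
  rw [lam_sp, lam_sp, key, toC_nat]
  have h5 : c * ((n : ℂ) * z) = toC v * z := by
    rw [hcv]
    field_simp
  rw [h5]

end Pool.Agent.DK
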