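import Pool.Agent.Lib.DK.B.SpecK

/-!
# Theorem DK, Part B, module B14: half systems (helper24)
-/

set_option autoImplicit false

open scoped Pointwise Topology
open Filter

noncomputable section

namespace Pool.Agent.DK

open Pool.Agent.MuZ Pool.Agent.FW NumberField IsDedekindDomain
open Pool.Agent.DI (io ofC io_inj exists_io io_ofC ofC_io VP MP UP TP ex sqr sqr_sq kap)
open Pool.Agent.DKB (inL wp wd zt kz KK IsRp IsHf)

/-- Two half systems have the same number of elements. -/
theorem B14_card {k : ℕ} [SqK k] {m b : Ideal (OO k)} {S S' : Finset ℂ} (h : IsHalf m b S)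
    (h' : IsHalf m b S') : S.card ≤ S'.card := by
  have h1 : ∀ u ∈ S, ∃ u' ∈ S', u - u' ∈ Lam b ∨ u + u' ∈ Lam b := fun u hu =>
    h'.ex u (h.mem u hu).1 (h.mem u hu).2
  choose! φ hφ using h1
  refine Finset.card_le_card_of_injOn φ (fun u hu => (hφ u hu).1) ?_
  intro u hu v hv huv
  have hu' : u ∈ S := hu
  have hv' : v ∈ S := hv
  have e1 := (hφ u hu').2
  have e2 := (hφ v hv').2
  have huv' : φ u = φ v := huv
  rw [huv'] at e1
  apply h.uni u hu' v hv'
  rcases e1 with e1 | e1 <;> rcases e2 with e2 | e2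
  · left
    have e3 := lam_sub e1 e2
    rwa [sub_sub_sub_cancel_right] at e3
  · right
    have e3 := lam_add e1 e2
    have e4 : u - φ v + (v + φ v) = u + v := by ring
    rwa [e4] at e3
  · right
    have e3 := lam_add e1 e2
    have e4 : u + φ v + (v - φ v) = u + v := by ring
    rwa [e4] at e3
  · left
    have e3 := lam_sub e1 e2
    rwa [add_sub_add_right_eq_sub] at e3

/-- A half system made from a system of representatives. -/
theorem B14_ex {k : ℕ} [SqK k] {m b : Ideal (OO k)} {R : Finset ℂ} (hR : IsSys m b R)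
    (h2 : ∀ z : ℂ, z + z ∈ Lam b → z ∈ Lam (m * b) → z ∈ Lam b) :
    ∃ S, IsHalf m b S ∧ 2 * S.card + 1 = R.card := by
  classical
  have h1 : ∀ u ∈ R, ∃ v ∈ R, -u - v ∈ Lam b := fun u hu => hR.ex (-u) (lam_neg (hR.mem u hu))
  choose! ν hν using h1
  have hνν : ∀ u ∈ R, ν (ν u) = u := by
    intro u hu
    have e1 := hν u hu
    have e2 := hν (ν u) e1.1
    apply hR.uni _ e2.1 _ hu
    have e3 := lam_sub e1.2 e2.2
    have e4 : -u - ν u - (-ν u - ν (ν u)) = ν (ν u) - u := by ring
    rwa [e4] at e3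
  have hfix : ∀ u ∈ R, ν u = u ↔ u ∈ Lam b := by
    intro u hu
    have e1 := hν u hu
    constructor
    · intro h
      rw [h] at e1
      apply h2 u _ (hR.mem u hu)
      have e3 := lam_neg e1.2
      have e4 : -(-u - u) = u + u := by ring
      rwa [e4] at e3
    · intro h
      apply hR.uni _ e1.1 _ hu
      have e3 := lam_sub (lam_neg (lam_add h h)) e1.2
      have e4 : -(u + u) - (-u - ν u) = ν u - u := by ring
      rwa [e4] at e3
  obtain ⟨i, hi⟩ : ∃ i : ℂ → ℕ, ∀ u ∈ R, ∀ v ∈ R, i u = i v → u = v := by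
    refine ⟨fun u => if h : u ∈ R then (R.equivFin ⟨u, h⟩ : ℕ) else 0, fun u hu v hv h => ?_⟩
    simp only [hu, hv, dif_pos] at h
    have h3 := R.equivFin.injective (Fin.ext h)
    exact congrArg Subtype.val h3
  obtain ⟨u₀, hu₀, h0⟩ := hR.ex 0 (lam_zero _)
  rw [zero_sub, lam_neg_iff] at h0
  obtain ⟨S, hS⟩ : ∃ S : Finset ℂ, S = R.filter fun u => i u < i (ν u) := ⟨_, rfl⟩
  have hSm : ∀ u, u ∈ S ↔ u ∈ R ∧ i u < i (ν u) := fun u => by rw [hS, Finset.mem_filter]
  have hSnot : ∀ u ∈ S, u ∉ Lam b := by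
    intro u hu hl
    obtain ⟨e1, e2⟩ := (hSm u).1 hu
    rw [(hfix u e1).2 hl] at e2
    exact lt_irrefl _ e2
  refine ⟨S, ⟨?_, ?_, ?_⟩, ?_⟩
  · intro u hu
    exact ⟨hR.mem u ((hSm u).1 hu).1, hSnot u hu⟩
  · intro z hz hz'
    obtain ⟨u, hu, h3⟩ := hR.ex z hz
    have hul : u ∉ Lam b := fun h => hz' ((lam_sub_iff h3).2 h)
    have hne : i u ≠ i (ν u) := fun h =>
      hul ((hfix u hu).1 (hi _ (hν u hu).1 _ hu h.symm))
    rcases lt_or_gt_of_ne hne with h4 | h4
    · exact ⟨u, (hSm u).2 ⟨hu, h4⟩, Or.inl h3⟩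
    · refine ⟨ν u, (hSm _).2 ⟨(hν u hu).1, ?_⟩, Or.inr ?_⟩
      · rw [hνν u hu]
        exact h4
      · have e3 := lam_sub h3 (hν u hu).2
        have e4 : z - u - (-u - ν u) = z + ν u := by ring
        rwa [e4] at e3
  · intro u hu v hv h
    obtain ⟨e1, e2⟩ := (hSm u).1 hu
    obtain ⟨e3, e4⟩ := (hSm v).1 hv
    rcases h with h | h
    · exact hR.uni u e1 v e3 h
    · exfalso
      have e5 : ν u = v := by
        apply hR.uni _ (hν u e1).1 _ e3
        have e6 := lam_neg (lam_add (hν u e1).2 h)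
        have e7 : -(-u - ν u + (u + v)) = ν u - v := by ring
        rwa [e7] at e6
      rw [← e5, hνν u e1] at e4
      rw [e5] at e2 e4
      exact lt_asymm e2 e4
  · have e1 : R = S ∪ S.image ν ∪ {u₀} := by
      ext u
      rw [Finset.mem_union, Finset.mem_union, Finset.mem_image, Finset.mem_singleton]
      constructor
      · intro hu
        rcases lt_trichotomy (i u) (i (ν u)) with h4 | h4 | h4
        · exact Or.inl (Or.inl ((hSm u).2 ⟨hu, h4⟩))
        · right
          have h5 : u ∈ Lam b := (hfix u hu).1 (hi _ (hν u hu).1 _ hu h4.symm)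
          exact hR.uni u hu u₀ hu₀ (lam_sub h5 h0)
        · refine Or.inl (Or.inr ⟨ν u, (hSm _).2 ⟨(hν u hu).1, ?_⟩, hνν u hu⟩)
          rw [hνν u hu]
          exact h4
      · rintro ((h | ⟨v, hv, rfl⟩) | rfl)
        · exact ((hSm u).1 h).1
        · exact (hν v ((hSm v).1 hv).1).1
        · exact hu₀
    have e2 : Disjoint S (S.image ν) := by
      rw [Finset.disjoint_left]
      intro u hu hu'
      obtain ⟨v, hv, rfl⟩ := Finset.mem_image.1 hu'
      obtain ⟨c1, c2⟩ := (hSm _).1 hu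
      obtain ⟨c3, c4⟩ := (hSm v).1 hv
      rw [hνν v c3] at c2
      exact lt_asymm c2 c4
    have e3 : Disjoint (S ∪ S.image ν) {u₀} := by
      rw [Finset.disjoint_singleton_right, Finset.mem_union, Finset.mem_image]
      rintro (h | ⟨v, hv, hv'⟩)
      · exact hSnot _ h h0
      · have c1 := ((hSm v).1 hv).1
        have c2 := hSnot v hv
        apply c2
        have c3 : ν u₀ = u₀ := (hfix u₀ hu₀).2 h0
        have c4 := hνν v c1
        rw [hv', c3] at c4
        rw [← c4]
        exact h0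
    have e4 : (S.image ν).card = S.card := by
      apply Finset.card_image_of_injOn
      intro u hu v hv huv
      have c1 := hνν u ((hSm u).1 hu).1
      have c2 := hνν v ((hSm v).1 hv).1
      have c3 : ν u = ν v := huv
      rw [← c1, ← c2, c3]
    have e5 : R.card = (S ∪ S.image ν ∪ {u₀}).card := congrArg Finset.card e1
    rw [e5, Finset.card_union_of_disjoint e3, Finset.card_union_of_disjoint e2, e4,
      Finset.card_singleton]
    ring

theorem sB14 : S_B14 := by
  classical
  intro k _ m b hm hb hm2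
  obtain ⟨_, _, R, hR, hRc⟩ := aL3 k m b hm hb
  obtain ⟨S, hS, hSc⟩ := B14_ex hR (fun z hz hz' =>
    (aL5 k m b 2 hm hb two_pos hm2).1 z (by push_cast; rwa [two_mul]) hz')
  have hex : ∃ S, IsHalf m b S := ⟨S, hS⟩
  have h1 : IsHalf m b (hs m b) := by
    unfold hs
    rw [dif_pos hex]
    exact hex.choose_spec
  refine ⟨h1, ?_⟩
  have h2 := le_antisymm (B14_card h1 hS) (B14_card hS h1)
  rw [h2, hSc, hRc]

end Pool.Agent.DK
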