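import Pool.Agent.Lib.DK.B.SpecK

/-!
# Theorem DK, Part B, module `B15`: the product over the points of order two
-/

set_option autoImplicit false

open scoped Pointwise Topology
open Filter

noncomputable section

namespace Pool.Agent.DK

open Pool.Agent.MuZ Pool.Agent.FW NumberField IsDedekindDomain
open Pool.Agent.DI (io ofC io_inj exists_io io_ofC ofC_io VP MP UP TP ex sqr sqr_sq kap)
open Pool.Agent.DKB (inL wp wd zt kz KK IsRp IsHf)

/-- If `t + t` is in the lattice and `2 z` is not, then `z + t` is not in the lattice. -/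
private theorem B15_not {k : ℕ} {b : Ideal (OO k)} {z t : ℂ} (hz : 2 * z ∉ Lam b)
    (ht : t + t ∈ Lam b) : z + t ∉ Lam b := by
  intro h
  apply hz
  have h1 := lam_sub (lam_add h h) ht
  have h2 : z + t + (z + t) - (t + t) = 2 * z := by ring
  rwa [h2] at h1

/-- The algebra. -/
private theorem B15_alg (x a D xs xt xu p q : ℂ) (hx : x ≠ 0) (hx4 : 4 * x + 1 ≠ 0) (hxt : xt ≠ 0)
    (h1 : xs * x = D) (h2 : xt * (4 * x + 1) = -(x + 4 * D)) (h3 : xu * xt = D)
    (hp : p * (x * (x + 4 * D) * (4 * x + 1)) = (x ^ 2 - D) ^ 2)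
    (hq : q * (a * (a + 4 * D) * (4 * a + 1)) = (a ^ 2 - D) ^ 2) :
    (x - a) * (xs - a) * (xt - a) * (xu - a) = -(a * (a + 4 * D) * (4 * a + 1)) * (p - q) := by
  have hD : x + 4 * D ≠ 0 := by
    intro h
    have h4 : xt * (4 * x + 1) ≠ 0 := mul_ne_zero hxt hx4
    apply h4
    rw [h2, h, neg_zero]
  have e1 : x * (xs - a) = D - a * x := by linear_combination h1
  have e2 : (4 * x + 1) * (xt - a) = -(x + 4 * D + a * (4 * x + 1)) := by linear_combination h2
  have e3 : (x + 4 * D) * (xu - a) = -((4 * x + 1) * D + a * (x + 4 * D)) := by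
    linear_combination xu * h2 - (4 * x + 1) * h3
  have hf : x * (x + 4 * D) * (4 * x + 1) ≠ 0 := mul_ne_zero (mul_ne_zero hx hD) hx4
  apply mul_left_cancel₀ hf
  have e4 : x * (x + 4 * D) * (4 * x + 1) * ((x - a) * (xs - a) * (xt - a) * (xu - a)) =
      (x - a) * (x * (xs - a)) * ((4 * x + 1) * (xt - a)) * ((x + 4 * D) * (xu - a)) := by ring
  rw [e4, e1, e2, e3]
  linear_combination (a * (a + 4 * D) * (4 * a + 1)) * hp - (x * (x + 4 * D) * (4 * x + 1)) * hq

theorem sB15 (h1 : S_B1) (h2 : S_B3) (h3 : S_B4) : S_B15 := by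
  intro k _ b hb u z hu hz
  have _ := h1
  have hz0 : z ∉ Lam b := by
    intro h
    apply hz
    rw [two_mul]
    exact lam_add h h
  have hS := B15_not hz (two_ptS hb)
  have hT := B15_not hz (two_ptT hb)
  have hTS : z + ptT b + ptS b ∉ Lam b := by
    have hz' : 2 * (z + ptT b) ∉ Lam b := by
      intro h
      apply hz
      have h4 := lam_sub h (two_ptT hb)
      have h5 : 2 * (z + ptT b) - (ptT b + ptT b) = 2 * z := by ring
      rwa [h5] at h4
    exact B15_not hz' (two_ptS hb)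
  obtain ⟨hx4, h5⟩ := (h3 k b hb).1 z hz0 hT
  obtain ⟨hx, h6⟩ := (h3 k b hb).2 z hz0 hS
  obtain ⟨hxt, h7⟩ := (h3 k b hb).2 (z + ptT b) hT hTS
  have h8 : z + (ptS b + ptT b) = z + ptT b + ptS b := by ring
  rw [h8]
  exact B15_alg (XC b z) (XC b u) (DC b) (XC b (z + ptS b)) (XC b (z + ptT b))
    (XC b (z + ptT b + ptS b)) (XC b (2 * z)) (XC b (2 * u)) hx hx4 hxt h6 h5 h7
    ((h2 k b hb).2 z hz) ((h2 k b hb).2 u hu)

end Pool.Agent.DK
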