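import Pool.Agent.Lib.DK.B.SpecK

/-!
# Theorem DK, Part B, module B16: the divisor argument
-/

set_option autoImplicit false

open scoped Pointwise Topology
open Filter

noncomputable section

namespace Pool.Agent.DK

open Pool.Agent.MuZ Pool.Agent.FW NumberField IsDedekindDomain
open Pool.Agent.DI (io ofC io_inj exists_io io_ofC ofC_io VP MP UP TP ex sqr sqr_sq kap)
open Pool.Agent.DKB (inL wp wd zt kz KK IsRp IsHf)

private theorem B16_s {k : ℕ} {b : Ideal (OO k)} (h : s2 b ≠ 0) (z z' : ℂ) :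
    wpC b z - wpC b z' = s2 b * (XC b z - XC b z') := by
  unfold XC
  field_simp
  ring

theorem sB16 (h1 : K_Cst) (h2 : DKB.G_PrC) (h3 : S_B14) : S_B16 := by
  intro k _ l m b hl hm hb hm2 hlm R hR
  have hlb : l * b ≠ ⊥ := mul_ne_zero hl hb
  have hmb : m * b ≠ ⊥ := mul_ne_zero hm hb
  have hmlb : m * (l * b) ≠ ⊥ := mul_ne_zero hm hlb
  have sb : s2 b ≠ 0 := (h1 k b hb).1
  have sl : s2 (l * b) ≠ 0 := (h1 k _ hlb).1
  obtain ⟨hS, cS⟩ := h3 k m b hm hb hm2
  obtain ⟨hS', cS'⟩ := h3 k m (l * b) hm hlb hm2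
  have hcard : (hs m b).card = (hs m (l * b)).card := by omega
  have hml : m ⊔ l = ⊤ := by rw [sup_comm]; exact hlm
  have two : ∀ b' : Ideal (OO k), b' ≠ ⊥ → ∀ u : ℂ, inL (LP (m * b')) u → inL (LP b') (u + u) →
      inL (LP b') u := by
    intro b' hb' u hu huu
    rw [inL_LP (mul_ne_zero hm hb')] at hu
    rw [inL_LP hb'] at huu ⊢
    refine (aL5 k m b' 2 hm hb' two_pos hm2).1 u ?_ hu
    have e : ((2 : ℕ) : ℂ) * u = u + u := by push_cast; ring
    rw [e]
    exact huu
  have hL4 := (aL4 k b hb).2 m l hm hl hml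
  obtain ⟨c, hc, H⟩ := h2 (LP b) (LP (m * b)) (LP (l * b)) (LP (m * (l * b))) R (hs m b)
    (hs m (l * b)) (hR.rp hl hb) (hS.hf hm hb) (hS'.hf hm hlb) hcard
    (fun z hz => by
      rw [inL_LP hmb]
      exact lam_mono ((inL_LP hb).1 hz))
    (two b hb) (two (l * b) hlb)
    (fun z hz hz' => by
      rw [inL_LP hmb] at hz
      rw [inL_LP hlb] at hz'
      rw [inL_LP hb]
      exact hL4.1 z hz hz')
    (fun z => by
      rw [inL_LP hmlb]
      constructor
      · intro hz
        rw [← mul_assoc] at hz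
        obtain ⟨z', h4, z'', h5, h6⟩ := hL4.2 z hz
        exact ⟨z', z'', (inL_LP hmb).2 h4, (inL_LP hlb).2 h5, h6⟩
      · rintro ⟨x, x', h4, h5, h6⟩
        rw [inL_LP hmb] at h4
        rw [inL_LP hlb] at h5
        rw [h6]
        refine lam_add ?_ (lam_mono h5)
        rw [mul_left_comm]
        exact lam_mono h4)
  refine ⟨c * s2 (l * b) ^ (hs m (l * b)).card / s2 b ^ ((hs m b).card * R.card), ?_, ?_⟩
  · exact div_ne_zero (mul_ne_zero hc (pow_ne_zero _ sl)) (pow_ne_zero _ sb)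
  · intro z hz
    have hz' : ¬ inL (LP (m * (l * b))) z := by
      rw [notL_LP hmlb, mul_left_comm, ← mul_assoc]
      exact hz
    have H1 := H z hz'
    have e1 : ∏ v ∈ R, ∏ u ∈ hs m b, (wp (LP b) (z + v) - wp (LP b) u) =
        s2 b ^ ((hs m b).card * R.card) *
          ∏ v ∈ R, ∏ u ∈ hs m b, (XC b (z + v) - XC b u) := by
      rw [pow_mul, ← Finset.prod_const, ← Finset.prod_mul_distrib]
      refine Finset.prod_congr rfl fun v _ => ?_
      rw [← Finset.prod_const, ← Finset.prod_mul_distrib]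
      refine Finset.prod_congr rfl fun u _ => ?_
      rw [← wpC_eq]
      exact B16_s sb _ _
    have e2 : ∏ u ∈ hs m (l * b), (wp (LP (l * b)) z - wp (LP (l * b)) u) =
        s2 (l * b) ^ (hs m (l * b)).card *
          ∏ u ∈ hs m (l * b), (XC (l * b) z - XC (l * b) u) := by
      rw [← Finset.prod_const, ← Finset.prod_mul_distrib]
      refine Finset.prod_congr rfl fun u _ => ?_
      rw [← wpC_eq]
      exact B16_s sl _ _
    rw [e1, e2] at H1
    have h9 : s2 b ^ ((hs m b).card * R.card) ≠ 0 := pow_ne_zero _ sb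
    rw [div_mul_eq_mul_div, eq_div_iff h9]
    linear_combination H1

end Pool.Agent.DK
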