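import Pool.Agent.Lib.DK.B.SpecK

/-!
# Theorem DK, Part B: `S_B2`, the curve
-/

set_option autoImplicit false

open scoped Pointwise Topology
open Filter

noncomputable section

namespace Pool.Agent.DK

open Pool.Agent.MuZ Pool.Agent.FW NumberField IsDedekindDomain
open Pool.Agent.DI (io ofC io_inj exists_io io_ofC ofC_io VP MP UP TP ex sqr sqr_sq kap)
open Pool.Agent.DKB (inL wp wd zt kz KK IsRp IsHf)

theorem sB2 (h1 : K_Cst) (h2 : DKB.G_Exp) : S_B2 := by
  intro k _ b hb z hz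
  obtain ⟨hs, hD, hD', hS, hT, hU, hg2, hg3⟩ := h1 k b hb
  have hzL : ¬ inL (LP b) z := (notL_LP hb).2 hz
  -- `℘ = s X + e_S`
  have hwp : ∀ w : ℂ, wp (LP b) w = s2 b * XC b w + s2 b * (1 + 16 * DC b) / 12 := by
    intro w
    unfold XC
    rw [← hS, mul_div_cancel₀ _ hs, sub_add_cancel]
    rfl
  have hX : XC b = fun w => (wp (LP b) w - wpC b (ptS b)) / s2 b := rfl
  refine ⟨?_, ?_, ?_, ?_, ?_⟩
  · have h3 := DKB.wd_sq hzL
    rw [hwp, hg2, hg3] at h3
    change wd (LP b) z ^ 2 = _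
    rw [h3]
    ring
  · rw [hX]
    exact ((DKB.analyticAt_wp hzL).sub analyticAt_const).div_const
  · exact DKB.analyticAt_wd hzL
  · rw [hX]
    exact ((DKB.hasDerivAt_wp hzL).sub_const _).div_const _
  · have h3 := (h2 (LP b)).2.1 z hzL
    have e : s2 b ^ 2 * (6 * XC b z ^ 2 + (1 + 16 * DC b) * XC b z + 2 * DC b) =
        6 * wp (LP b) z ^ 2 - (LP b).g₂ / 2 := by
      rw [hwp, hg2]
      ring
    rw [e]
    exact h3

end Pool.Agent.DK
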