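import Pool.Agent.Lib.DK.B.SpecK

/-!
# Theorem DK, Part B, module B3: the formulas of the Kummer line
-/

set_option autoImplicit false

open scoped Pointwise Topology
open Filter

noncomputable section

namespace Pool.Agent.DK

open Pool.Agent.MuZ Pool.Agent.FW NumberField IsDedekindDomain
open Pool.Agent.DI (io ofC io_inj exists_io io_ofC ofC_io VP MP UP TP ex sqr sqr_sq kap)
open Pool.Agent.DKB (inL wp wd zt kz KK IsRp IsHf)

theorem sB3 (h1 : K_Cst) (h2 : S_B2) (h3 : DKB.G_Add) (h4 : DKB.G_Inj) : S_B3 := by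
  intro k _ b hb
  obtain ⟨hs, hD, hD16, eS, eT, -, hg2, -⟩ := h1 k b hb
  have hX : ∀ z : ℂ, wpC b z = s2 b * XC b z + s2 b * (1 + 16 * DC b) / 12 := by
    intro z
    unfold XC
    rw [mul_div_cancel₀ _ hs, eS]
    ring
  have hn : ∀ z : ℂ, z ∉ Lam b → ¬ inL (LP b) z := fun z hz => (notL_LP hb).2 hz
  have hs3 : s2 b ^ 3 ≠ 0 := pow_ne_zero 3 hs
  constructor
  · intro z z' hz hz' hzp hzm
    -- the two points have different coordinates
    have hne : XC b z - XC b z' ≠ 0 := by
      intro h0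
      have h5 : wp (LP b) z = wp (LP b) z' := by
        rw [← wpC_eq, hX z, hX z', sub_eq_zero.1 h0]
      rcases ((h4 (LP b)).1 z z' (hn z hz) (hn z' hz')).1 h5 with h6 | h6
      · exact hn _ hzm h6
      · exact hn _ hzp h6
    have e1 := (h3 (LP b)).1 z z' (hn z hz) (hn z' hz') (hn _ hzp)
    have e2 := (h3 (LP b)).2.1 z z' (hn z hz) (hn z' hz') (hn _ hzm)
    rw [← wpC_eq, ← wdC_eq, hX (z + z'), hX z, hX z'] at e1
    rw [← wpC_eq, ← wdC_eq, hX (z - z'), hX z, hX z'] at e2
    have q := (h2 k b hb z hz).1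
    have q' := (h2 k b hb z' hz').1
    generalize XC b (z + z') = Xp at *
    generalize XC b (z - z') = Xm at *
    generalize XC b z = X at *
    generalize XC b z' = X' at *
    generalize wdC b z = w at *
    generalize wdC b z' = w' at *
    have c1 : (Xp + Xm) * (X - X') ^ 2 =
        2 * X * X' * (X + X') + (1 + 16 * DC b) * X * X' + 2 * DC b * (X + X') := by
      apply mul_left_cancel₀ hs3
      linear_combination (1 / 4) * e1 + (1 / 4) * e2 + (1 / 2) * q + (1 / 2) * q'
    have c3 : s2 b ^ 3 * (Xp - Xm) * (X - X') ^ 2 = -(w * w') := by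
      linear_combination (1 / 4) * e1 - (1 / 4) * e2
    refine ⟨c1, ?_, c3⟩
    have c4 : ((Xp - Xm) * (X - X') ^ 2) ^ 2 =
        X * (X + 4 * DC b) * (4 * X + 1) * (X' * (X' + 4 * DC b) * (4 * X' + 1)) := by
      apply mul_left_cancel₀ (pow_ne_zero 2 hs3)
      have c5 : (s2 b ^ 3 * (Xp - Xm) * (X - X') ^ 2) ^ 2 = w ^ 2 * w' ^ 2 := by
        rw [c3]
        ring
      rw [q, q'] at c5
      linear_combination c5
    apply mul_left_cancel₀ (pow_ne_zero 2 hne)
    linear_combination (1 / 4) * ((Xp + Xm) * (X - X') ^ 2 +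
      (2 * X * X' * (X + X') + (1 + 16 * DC b) * X * X' + 2 * DC b * (X + X'))) * c1 - (1 / 4) * c4
  · intro z hz2
    have hz2' : z + z ∉ Lam b := by rwa [← two_mul]
    have hz : z ∉ Lam b := by
      intro h5
      have h6 : inL (LP b) (z + z) := by
        have h7 := (inL_LP hb).2 h5
        exact add_mem h7 h7
      exact hn _ hz2' h6
    have e4 := (h3 (LP b)).2.2.2 z (hn _ hz2')
    rw [← wpC_eq, ← wdC_eq, hX (z + z), hX z, hg2, (h2 k b hb z hz).1] at e4
    rw [two_mul]
    generalize XC b (z + z) = X2 at *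
    generalize XC b z = X at *
    apply mul_left_cancel₀ (pow_ne_zero 4 hs)
    linear_combination (1 / 4) * e4

end Pool.Agent.DK
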