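import Pool.Agent.Lib.DK.B.SpecK

/-!
# Theorem DK, Part B, module B4: translation by the points `S`, `T` of order two
-/

set_option autoImplicit false

open scoped Pointwise Topology
open Filter

noncomputable section

namespace Pool.Agent.DK

open Pool.Agent.MuZ Pool.Agent.FW NumberField IsDedekindDomain
open Pool.Agent.DI (io ofC io_inj exists_io io_ofC ofC_io VP MP UP TP ex sqr sqr_sq kap)
open Pool.Agent.DKB (inL wp wd zt kz KK IsRp IsHf)

theorem sB4 (h1 : K_Cst) (h2 : DKB.G_MulB) : S_B4 := by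
  intro k _ b hb
  obtain ⟨hs, hD, hD16, eS, eT, -, hg2, -⟩ := h1 k b hb
  have hX : ∀ z : ℂ, wpC b z = s2 b * XC b z + s2 b * (1 + 16 * DC b) / 12 := by
    intro z
    unfold XC
    rw [mul_div_cancel₀ _ hs, eS]
    ring
  have hn : ∀ z : ℂ, z ∉ Lam b → ¬ inL (LP b) z := fun z hz => (notL_LP hb).2 hz
  constructor
  · intro z hz hzT
    have h3 := (h2 (LP b) (ptT b) (hn _ (ptT_mem hb)) ((inL_LP hb).2 (two_ptT hb)) z (hn z hz)
      (hn _ hzT)).1
    rw [← wpC_eq, hX z, hX (z + ptT b), eT, hg2] at h3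
    have h4 : (4 * XC b (z + ptT b) + 1) * (4 * XC b z + 1) = 1 - 16 * DC b := by
      have h5 : s2 b ^ 2 * ((4 * XC b (z + ptT b) + 1) * (4 * XC b z + 1)) =
          s2 b ^ 2 * (1 - 16 * DC b) := by
        linear_combination 16 * h3
      exact mul_left_cancel₀ (pow_ne_zero 2 hs) h5
    have h6 : 4 * XC b z + 1 ≠ 0 := by
      intro h7
      rw [h7, mul_zero] at h4
      exact hD16 h4.symm
    refine ⟨h6, ?_⟩
    linear_combination (1 / 4) * h4
  · intro z hz hzS
    have h3 := (h2 (LP b) (ptS b) (hn _ (ptS_mem hb)) ((inL_LP hb).2 (two_ptS hb)) z (hn z hz)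
      (hn _ hzS)).1
    rw [← wpC_eq, hX z, hX (z + ptS b), eS, hg2] at h3
    have h4 : XC b (z + ptS b) * XC b z = DC b := by
      have h5 : s2 b ^ 2 * (XC b (z + ptS b) * XC b z) = s2 b ^ 2 * DC b := by
        linear_combination h3
      exact mul_left_cancel₀ (pow_ne_zero 2 hs) h5
    refine ⟨?_, h4⟩
    intro h7
    rw [h7, mul_zero] at h4
    exact hD h4.symm

end Pool.Agent.DK
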