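import Pool.Agent.Lib.DK.B.SpecK

/-!
# Theorem DK, Part B: the isogeny `ppb`
-/

set_option autoImplicit false

open scoped Pointwise Topology
open Filter

noncomputable section

namespace Pool.Agent.DK

open Pool.Agent.MuZ Pool.Agent.FW NumberField IsDedekindDomain
open Pool.Agent.DI (io ofC io_inj exists_io io_ofC ofC_io VP MP UP TP ex sqr sqr_sq kap)
open Pool.Agent.DKB (inL wp wd zt kz KK IsRp IsHf)

variable {k : ℕ}

/-- the sum formula for the system `{0, S}` -/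
private theorem B5_sum (h2 : K_Pts) (h3 : DKB.G_Sum) [SqK k] (b : Ideal (OO k)) (hb : b ≠ ⊥)
    {z : ℂ} (hz : z ∉ Lam (ppb k * b)) :
    wpC (ppb k * b) z = wpC b z + wpC b (z + ptS b) - wpC b (ptS b) ∧
      wdC (ppb k * b) z = wdC b z + wdC b (z + ptS b) := by
  have hb' : ppb k * b ≠ ⊥ := mul_ne_zero ppb_ne hb
  have hne : (0 : ℂ) ≠ ptS b := fun h => ptS_mem hb (h ▸ lam_zero b)
  have h := h3 (LP b) (LP (ppb k * b)) {0, ptS b} (IsSys.rp ppb_ne hb (h2 k b hb).1) z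
    ((notL_LP hb').2 hz)
  rw [Finset.sum_pair hne, Finset.sum_pair hne, add_zero] at h
  have h0 : wp (LP b) 0 = 0 := wpC_lat hb (lam_zero b)
  rw [h0, sub_zero] at h
  refine ⟨?_, h.2⟩
  have e := h.1
  have e' : wpC (ppb k * b) z = wpC b z + (wpC b (z + ptS b) - wpC b (ptS b)) := e
  rw [e']
  ring

theorem sB5 (h1 : K_Cst) (h2 : K_Pts) (h3 : DKB.G_Sum) (h4 : S_B1) (h5 : S_B4) : S_B5 := by
  intro k _ b hb
  have hb' : ppb k * b ≠ ⊥ := mul_ne_zero ppb_ne hb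
  obtain ⟨_, _, hs, hD, _, _, _, hX, _, hXS, hXT, hXST, hth⟩ := h4 k b hb
  have hs' : s2 (ppb k * b) ≠ 0 := (h1 k _ hb').1
  obtain ⟨p4, p4'⟩ := h5 k b hb
  obtain ⟨_, _, a3, a4, a5, _⟩ := aL6 k b hb
  obtain ⟨_, _, a6, a7⟩ := a4
  obtain ⟨c1, _, c3, _⟩ := a5
  have hS : ptS b ∈ Lam (ppb k * b) := (aL6 k b hb).2.1.1
  have hTn : ptT b ∉ Lam (ppb k * b) := (h2 k b hb).2.2.1
  have hmono : ∀ z : ℂ, z ∉ Lam (ppb k * b) → z ∉ Lam b := fun z hz h => hz (lam_mono h)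
  have hmonoS : ∀ z : ℂ, z ∉ Lam (ppb k * b) → z + ptS b ∉ Lam b := by
    intro z hz h
    apply hz
    have := lam_sub (lam_mono (a := ppb k) h) hS
    rwa [add_sub_cancel_right] at this
  -- the formula for `℘`
  have hwp : ∀ z : ℂ, z ∉ Lam (ppb k * b) →
      wpC (ppb k * b) z = s2 b * (XC b z + XC b (z + ptS b)) + wpC b (ptS b) := by
    intro z hz
    rw [(B5_sum h2 h3 b hb hz).1, hX z, hX (z + ptS b)]
    ring
  obtain ⟨θ, hθ⟩ : ∃ θ, θ = ThC b := ⟨_, rfl⟩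
  have hXt : XC b (ptt b) = θ := hθ.symm
  rw [← hθ] at hth ⊢
  have hθ0 : θ ≠ 0 := by
    rintro rfl
    apply hD
    rw [← hth]
    ring
  have hXtS : XC b (ptt b + ptS b) = θ := by
    have h := (p4' (ptt b) (hmono _ a6) (hmonoS _ a6)).2
    rw [hXt, ← hth, pow_two] at h
    exact mul_right_cancel₀ hθ0 h
  have hwS : wpC (ppb k * b) (ptS (ppb k * b)) = s2 b * (2 * θ) + wpC b (ptS b) := by
    rw [wpC_congr hb' c3, hwp _ a6, hXt, hXtS]
    ring
  have hwT : wpC (ppb k * b) (ptT (ppb k * b)) = s2 b * (-1 / 4 - 4 * θ ^ 2) + wpC b (ptS b) := by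
    rw [wpC_congr hb' c1, hwp _ hTn, hXT, add_comm (ptT b), hXST, hth]
    ring
  have hs2 : s2 (ppb k * b) = (1 + 4 * θ) ^ 2 * s2 b := by
    have e : s2 (ppb k * b) =
        4 * (wpC (ppb k * b) (ptS (ppb k * b)) - wpC (ppb k * b) (ptT (ppb k * b))) := rfl
    rw [e, hwS, hwT]
    ring
  have hθ1 : 1 + 4 * θ ≠ 0 := by
    intro h
    apply hs'
    rw [hs2, h]
    ring
  have hXC : ∀ z : ℂ, z ∉ Lam (ppb k * b) →
      XC (ppb k * b) z * ((1 + 4 * θ) ^ 2 * XC b z) = (XC b z - θ) ^ 2 := by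
    intro z hz
    have e : XC (ppb k * b) z =
        (wpC (ppb k * b) z - wpC (ppb k * b) (ptS (ppb k * b))) / s2 (ppb k * b) := rfl
    have hm := (p4' z (hmono _ hz) (hmonoS _ hz)).2
    rw [← hth] at hm
    have e2 : XC (ppb k * b) z * s2 (ppb k * b) =
        wpC (ppb k * b) z - wpC (ppb k * b) (ptS (ppb k * b)) := by
      rw [e, div_mul_cancel₀ _ hs']
    rw [hwp z hz, hwS, hs2] at e2
    have e3 : XC (ppb k * b) z * (1 + 4 * θ) ^ 2 = XC b z + XC b (z + ptS b) - 2 * θ := by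
      apply mul_right_cancel₀ hs
      linear_combination e2
    linear_combination XC b z * e3 + hm
  refine ⟨hθ1, ?_, hs2, fun z hz => ⟨hXC z hz, (B5_sum h2 h3 b hb hz).2⟩⟩
  -- the last claim
  have hdiff : ptS (ppb k * b) + ptT (ppb k * b) - (ptt b + ptT b) ∈ Lam (ppb k * b) := by
    have := lam_add c3 c1
    have e : ptS (ppb k * b) - ptt b + (ptT (ppb k * b) - ptT b) =
        ptS (ppb k * b) + ptT (ppb k * b) - (ptt b + ptT b) := by ring
    rwa [e] at this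
  have htT : ptt b + ptT b ∉ Lam (ppb k * b) := fun h =>
    ptST_mem hb' ((lam_sub_iff hdiff).2 h)
  have hm := (p4 (ptt b) (hmono _ a6) (hmono _ htT)).2
  rw [hXt, ← hth] at hm
  have hXtT : XC b (ptt b + ptT b) = -θ := by
    have e : (4 * θ + 1) ≠ 0 := by rwa [add_comm]
    apply mul_right_cancel₀ e
    rw [hm]
    ring
  have hf := hXC _ htT
  rw [hXtT] at hf
  have hDC : DC (ppb k * b) = -XC (ppb k * b) (ptt b + ptT b) / 4 := by
    have e : DC (ppb k * b) = -XC (ppb k * b) (ptS (ppb k * b) + ptT (ppb k * b)) / 4 := rfl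
    rw [e, XC_congr hb' hdiff]
  rw [hDC]
  have hf2 : XC (ppb k * b) (ptt b + ptT b) * (1 + 4 * θ) ^ 2 = -4 * θ := by
    apply mul_right_cancel₀ (neg_ne_zero.2 hθ0)
    linear_combination hf
  linear_combination (-1 / 4 : ℂ) * hf2

end Pool.Agent.DK
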