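import Pool.Agent.Lib.DK.B.SpecK

/-!
# Theorem DK, Part B, module B6: the isogeny `𝔭`
-/

set_option autoImplicit false

open scoped Pointwise Topology
open Filter

noncomputable section

namespace Pool.Agent.DK

open Pool.Agent.MuZ Pool.Agent.FW NumberField IsDedekindDomain
open Pool.Agent.DI (io ofC io_inj exists_io io_ofC ofC_io VP MP UP TP ex sqr sqr_sq kap)
open Pool.Agent.DKB (inL wp wd zt kz KK IsRp IsHf)

/-- The algebra of the first formula. -/
private theorem B6_alg1 (s' X' s X Y D : ℂ) (h1 : s' * X' = s * (X + Y + 4 * D))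
    (h2 : Y * (4 * X + 1) = -(X + 4 * D)) : s' * (X' * (4 * X + 1)) = 4 * s * (X * (X + 4 * D)) := by
  linear_combination (4 * X + 1) * h1 + s * h2

/-- The algebra of the last formula. -/
private theorem B6_alg2 (s w w' X Y D : ℂ) (hs : s ≠ 0) (h2 : Y * (4 * X + 1) = -(X + 4 * D))
    (h : w' * (s * (X + 1 / 4)) + s * (Y + 1 / 4) * w = 0) :
    (w + w') * (4 * X + 1) ^ 2 = 8 * (2 * X ^ 2 + X + 2 * D) * w := by
  apply mul_left_cancel₀ hs
  linear_combination 4 * (4 * X + 1) * h - 4 * s * w * h2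

theorem sB6 (h1 : K_Cst) (h2 : K_Pts) (h3 : DKB.G_Sum) (h4 : DKB.G_MulB) (h5 : S_B1) (h6 : S_B4)
    (h7 : S_B5) (h8 : S_B7) : S_B6 := by
  intro k _ b hb
  have hp : pp k ≠ ⊥ := pp_ne
  have hpb : pp k * b ≠ ⊥ := mul_ne_zero hp hb
  obtain ⟨hs, hD, hD16, -⟩ := h1 k b hb
  obtain ⟨hs', -, -, -⟩ := h1 k (pp k * b) hpb
  obtain ⟨-, hsys, -, hSn, -⟩ := h2 k b hb
  obtain ⟨-, -, -, -, -, -, -, hwX, -, hXS, hXT, hXST, -⟩ := h5 k b hb
  obtain ⟨-, -, -, -, -, -, -, hwX', -, -, -, -, -⟩ := h5 k (pp k * b) hpb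
  obtain ⟨hB4, -⟩ := h6 k b hb
  obtain ⟨hth, hDC, hs2, -⟩ := h7 k (pp k * b) hpb
  obtain ⟨-, hDsp, -, hssp⟩ := (h8 k b hb).1 2 (by
    intro h
    have h' := congrArg QuadraticAlgebra.re h
    have e2 : (2 : OO k).re = 2 := QuadraticAlgebra.re_ofNat 2
    rw [e2, QuadraticAlgebra.re_zero] at h'
    omega)
  rw [ppb_pp, hDsp] at hDC
  rw [ppb_pp, hssp, toC_two] at hs2
  have hTm : ptT b ∈ Lam (pp k * b) := (aL6 k b hb).1.1
  have hTn : ptT b ∉ Lam b := ptT_mem hb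
  have hR := IsSys.rp hp hb hsys
  have h0T : (0 : ℂ) ∉ ({ptT b} : Finset ℂ) := by
    rw [Finset.mem_singleton]
    intro h
    exact hTn (h ▸ lam_zero b)
  have heT : wpC b (ptT b) = wpC b (ptS b) - s2 b / 4 := by
    rw [hwX (ptT b), hXT]
    ring
  -- the sum formulas
  have hwp : ∀ z : ℂ, z ∉ Lam (pp k * b) →
      wpC (pp k * b) z = s2 b * (XC b z + XC b (z + ptT b) + 1 / 4) + wpC b (ptS b) := by
    intro z hz
    have e := (h3 (LP b) (LP (pp k * b)) _ hR z ((notL_LP hpb).2 hz)).1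
    rw [Finset.sum_insert h0T, Finset.sum_singleton, add_zero] at e
    have e0 : wp (LP b) 0 = 0 := wpC_lat hb (lam_zero b)
    rw [e0, sub_zero] at e
    have e1 : wpC (pp k * b) z = wpC b z + (wpC b (z + ptT b) - wpC b (ptT b)) := e
    rw [e1, hwX z, hwX (z + ptT b), heT]
    ring
  have hwd : ∀ z : ℂ, z ∉ Lam (pp k * b) → wdC (pp k * b) z = wdC b z + wdC b (z + ptT b) := by
    intro z hz
    have e := (h3 (LP b) (LP (pp k * b)) _ hR z ((notL_LP hpb).2 hz)).2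
    rw [Finset.sum_insert h0T, Finset.sum_singleton, add_zero] at e
    exact e
  -- the value at the point of order two
  have heS : wpC (pp k * b) (ptS (pp k * b)) = s2 b * (-4 * DC b + 1 / 4) + wpC b (ptS b) := by
    have e : wpC (pp k * b) (ptS (pp k * b)) = wpC (pp k * b) (ptS b) :=
      wpC_congr hpb (aL6 k b hb).2.2.2.2.1.2.1
    rw [e, hwp _ hSn, hXS, hXST]
    ring
  have hcross : (1 + 4 * ThC (pp k * b)) ^ 2 * s2 (pp k * b) = 4 * s2 b := by
    rw [← hs2]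
    ring
  refine ⟨hth, hDC, hcross, ?_⟩
  intro z hz
  have hzb : z ∉ Lam b := fun h => hz (lam_mono h)
  have hzT : z + ptT b ∉ Lam b := by
    intro h
    apply hz
    have e := lam_sub (lam_mono (a := pp k) h) hTm
    rwa [add_sub_cancel_right] at e
  obtain ⟨h41, hYX⟩ := hB4 z hzb hzT
  have hk : s2 (pp k * b) * XC (pp k * b) z =
      s2 b * (XC b z + XC b (z + ptT b) + 4 * DC b) := by
    have e1 := hwX' z
    rw [hwp z hz, heS] at e1
    linear_combination -e1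
  refine ⟨?_, hwd z hz, ?_⟩
  · have e := B6_alg1 _ _ _ _ _ _ hk hYX
    apply mul_left_cancel₀ hs'
    rw [e]
    linear_combination -(XC b z * (XC b z + 4 * DC b)) * hcross
  · rw [hwd z hz]
    have e := (h4 (LP b) (ptT b) ((notL_LP hb).2 hTn) ((inL_LP hb).2 (two_ptT hb)) z
      ((notL_LP hb).2 hzb) ((notL_LP hb).2 hzT)).2
    have e1 : wdC b (z + ptT b) * (wpC b z - wpC b (ptT b)) +
      (wpC b (z + ptT b) - wpC b (ptT b)) * wdC b z = 0 := e
    refine B6_alg2 (s2 b) _ _ _ _ _ hs hYX ?_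
    rw [hwX z, hwX (z + ptT b), heT] at e1
    linear_combination e1

end Pool.Agent.DK
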