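import Pool.Agent.Lib.DK.B.SpecK

/-!
# Theorem DK, Part B, module B7: homogeneity and conjugation
-/

set_option autoImplicit false

open scoped Pointwise Topology
open Filter

noncomputable section

namespace Pool.Agent.DK

open Pool.Agent.MuZ Pool.Agent.FW NumberField IsDedekindDomain
open Pool.Agent.DI (io ofC io_inj exists_io io_ofC ofC_io VP MP UP TP ex sqr sqr_sq kap)
open Pool.Agent.DKB (inL wp wd zt kz KK IsRp IsHf)

private theorem B7_tend {c : ℂ} (hc : c ≠ 0) :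
    Tendsto (fun t : ℝ => t / ‖c‖ ^ 2) (𝓝[>] 0) (𝓝[>] 0) := by
  have hn : (0 : ℝ) < ‖c‖ := norm_pos_iff.2 hc
  have hp : (0 : ℝ) < ‖c‖ ^ 2 := pow_pos hn 2
  refine tendsto_nhdsWithin_of_tendsto_nhds_of_eventually_within _ ?_ ?_
  · have h1 : Tendsto (fun t : ℝ => t / ‖c‖ ^ 2) (𝓝 0) (𝓝 (0 / ‖c‖ ^ 2)) :=
      (continuous_id.div_const (‖c‖ ^ 2)).tendsto 0
    rw [zero_div] at h1
    exact h1.mono_left nhdsWithin_le_nhds
  · filter_upwards [self_mem_nhdsWithin] with t ht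
    exact div_pos ht hp

private theorem B7_scl (h1 : K_Cst) (h2 : K_Pts) (h3 : K_Kz) (h4 : DKB.G_Scl) {k : ℕ} [SqK k]
    {b : Ideal (OO k)} (hb : b ≠ ⊥) {α : OO k} (hα : α ≠ 0) :
    (∀ z : ℂ, XC (sp α * b) z = XC b (toC α * z) ∧ wdC (sp α * b) z = toC α ^ 3 * wdC b (toC α * z) ∧
        KC (sp α * b) z = toC α * KC b (toC α * z)) ∧
      DC (sp α * b) = DC b ∧ ThC (sp α * b) = ThC b ∧ s2 (sp α * b) = toC α ^ 2 * s2 b := by
  have hc : toC α ≠ 0 := toC_ne hα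
  have hab : sp α * b ≠ ⊥ := mul_ne_zero (a := sp α) (b := b) (sp_ne hα) hb
  obtain ⟨hw, hd, hK, -, -⟩ := h4.1 (LP b) (LP (sp α * b)) (toC α) hc (fun z => by
    rw [inL_LP hab, inL_LP hb]
    exact lam_sp)
  obtain ⟨hS, hT, ht⟩ := (h2 k b hb).2.2.2.2.2 α hα
  have hwC : ∀ z, wpC (sp α * b) z = toC α ^ 2 * wpC b (toC α * z) := hw
  have hdC : ∀ z, wdC (sp α * b) z = toC α ^ 3 * wdC b (toC α * z) := hd
  have hKC : ∀ (t : ℝ) (z : ℂ),
      KtC (sp α * b) t z = toC α * KtC b (t / ‖toC α‖ ^ 2) (toC α * z) := hK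
  have hs : s2 (sp α * b) = toC α ^ 2 * s2 b := by
    unfold s2
    rw [hwC, hwC, wpC_congr hb hS, wpC_congr hb hT]
    ring
  have hs0 : s2 b ≠ 0 := (h1 k b hb).1
  have hX : ∀ z, XC (sp α * b) z = XC b (toC α * z) := by
    intro z
    unfold XC
    rw [hs, hwC, hwC, wpC_congr hb hS, ← mul_sub]
    exact mul_div_mul_left _ _ (pow_ne_zero 2 hc)
  refine ⟨fun z => ⟨hX z, hdC z, ?_⟩, ?_, ?_, hs⟩
  · have e1 := (h3 k (sp α * b) hab).1 z
    have e2 : Tendsto (fun t : ℝ => toC α * KtC b (t / ‖toC α‖ ^ 2) (toC α * z)) (𝓝[>] 0)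
        (𝓝 (toC α * KC b (toC α * z))) :=
      (((h3 k b hb).1 (toC α * z)).comp (B7_tend hc)).const_mul (toC α)
    have e3 : (fun t : ℝ => KtC (sp α * b) t z) =
        fun t : ℝ => toC α * KtC b (t / ‖toC α‖ ^ 2) (toC α * z) := funext fun t => hKC t z
    rw [e3] at e1
    exact tendsto_nhds_unique e1 e2
  · unfold DC
    rw [hX, mul_add]
    have e : toC α * ptS (sp α * b) + toC α * ptT (sp α * b) - (ptS b + ptT b) ∈ Lam b := by
      have e1 := lam_add hS hT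
      have e2 : toC α * ptS (sp α * b) + toC α * ptT (sp α * b) - (ptS b + ptT b) =
          toC α * ptS (sp α * b) - ptS b + (toC α * ptT (sp α * b) - ptT b) := by ring
      rwa [e2]
    rw [XC_congr hb e]
  · unfold ThC
    rw [hX]
    rcases ht with ht | ht
    · exact XC_congr hb ht
    · have e : toC α * ptt (sp α * b) - -ptt b ∈ Lam b := by rwa [sub_neg_eq_add]
      rw [XC_congr hb e, XC_neg]

private theorem B7_cj (h1 : K_Cst) (h3 : K_Kz) (h4 : DKB.G_Scl) {k : ℕ} [SqK k]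
    {b : Ideal (OO k)} (hb : b ≠ ⊥) :
    (∀ z : ℂ, (starRingEnd ℂ) (XC b z) = -XC (cjI b) ((starRingEnd ℂ) z) - 1 / 4) ∧
    (∀ z : ℂ, (starRingEnd ℂ) (wdC b z) = wdC (cjI b) ((starRingEnd ℂ) z) ∧
      (starRingEnd ℂ) (KC b z) = KC (cjI b) ((starRingEnd ℂ) z)) ∧
    (starRingEnd ℂ) (DC b) = (1 - 16 * DC (cjI b)) / 16 ∧ (starRingEnd ℂ) (s2 b) = -s2 (cjI b) := by
  have hcb : cjI b ≠ ⊥ := by
    intro h
    apply hb
    have e1 := ((aO3 k).2.2.1 b).1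
    rw [h] at e1
    rw [← e1, eq_bot_iff]
    intro v hv
    have e2 := ((aO3 k).1 ⊥ v).1 hv
    rw [Ideal.mem_bot] at e2 ⊢
    rw [← cjO_cjO v, e2, cjO_zero]
  obtain ⟨hw, hd, hK, -, -⟩ := h4.2.1 (LP b) (LP (cjI b)) (fun z => by
    rw [inL_LP hcb, inL_LP hb]
    exact (aL2 k).2.2.2.2.2.2.1 b z hb)
  have hwC : ∀ z, (starRingEnd ℂ) (wpC b z) = wpC (cjI b) ((starRingEnd ℂ) z) := by
    intro z
    have e := hw ((starRingEnd ℂ) z)
    rw [Complex.conj_conj] at e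
    exact e.symm
  have hdC : ∀ z, (starRingEnd ℂ) (wdC b z) = wdC (cjI b) ((starRingEnd ℂ) z) := by
    intro z
    have e := hd ((starRingEnd ℂ) z)
    rw [Complex.conj_conj] at e
    exact e.symm
  have hKC : ∀ (t : ℝ) (z : ℂ),
      (starRingEnd ℂ) (KtC b t z) = KtC (cjI b) t ((starRingEnd ℂ) z) := by
    intro t z
    have e := hK t ((starRingEnd ℂ) z)
    rw [Complex.conj_conj] at e
    exact e.symm
  obtain ⟨hT, hS⟩ := (aL6 k b hb).2.2.2.2.2.2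
  have hs0 : s2 (cjI b) ≠ 0 := (h1 k (cjI b) hcb).1
  have hs : (starRingEnd ℂ) (s2 b) = -s2 (cjI b) := by
    unfold s2
    rw [map_mul, map_ofNat, map_sub, hwC, hwC, wpC_congr hcb hS, wpC_congr hcb hT]
    ring
  have hX : ∀ z : ℂ, (starRingEnd ℂ) (XC b z) = -XC (cjI b) ((starRingEnd ℂ) z) - 1 / 4 := by
    intro z
    unfold XC
    rw [map_div₀, hs, map_sub, hwC, hwC, wpC_congr hcb hS]
    have e : wpC (cjI b) (ptT (cjI b)) = wpC (cjI b) (ptS (cjI b)) - s2 (cjI b) / 4 := by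
      unfold s2
      ring
    rw [e]
    field_simp
    ring
  refine ⟨hX, fun z => ⟨hdC z, ?_⟩, ?_, hs⟩
  · have e1 := (h3 k (cjI b) hcb).1 ((starRingEnd ℂ) z)
    have e2 : Tendsto (fun t : ℝ => (starRingEnd ℂ) (KtC b t z)) (𝓝[>] 0)
        (𝓝 ((starRingEnd ℂ) (KC b z))) :=
      (Complex.continuous_conj.tendsto (KC b z)).comp ((h3 k b hb).1 z)
    have e3 : (fun t : ℝ => (starRingEnd ℂ) (KtC b t z)) =
        fun t : ℝ => KtC (cjI b) t ((starRingEnd ℂ) z) := funext fun t => hKC t z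
    rw [e3] at e2
    exact tendsto_nhds_unique e2 e1
  · unfold DC
    rw [map_div₀, map_neg, map_ofNat, hX, map_add]
    have e : (starRingEnd ℂ) (ptS b) + (starRingEnd ℂ) (ptT b) - (ptS (cjI b) + ptT (cjI b)) ∈
        Lam (cjI b) := by
      have e1 := lam_add hS hT
      have e2 : (starRingEnd ℂ) (ptS b) + (starRingEnd ℂ) (ptT b) - (ptS (cjI b) + ptT (cjI b)) =
          (starRingEnd ℂ) (ptS b) - ptT (cjI b) + ((starRingEnd ℂ) (ptT b) - ptS (cjI b)) := by ring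
      rwa [e2]
    rw [XC_congr hcb e]
    ring

theorem sB7 (h1 : K_Cst) (h2 : K_Pts) (h3 : K_Kz) (h4 : DKB.G_Scl) : S_B7 := by
  intro k _ b hb
  obtain ⟨e1, e2, e3, e4⟩ := B7_cj h1 h3 h4 hb
  exact ⟨fun α hα => B7_scl h1 h2 h3 h4 hb hα, fun z _ => e1 z, e2, e3, e4⟩

end Pool.Agent.DK
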