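import Pool.Agent.Lib.DK.B.SpecK

/-!
# Module DK/B/Cst: the constants
-/

set_option autoImplicit false

open scoped Pointwise Topology
open Filter

noncomputable section

namespace Pool.Agent.DK

open Pool.Agent.MuZ Pool.Agent.FW NumberField IsDedekindDomain
open Pool.Agent.DI (io ofC io_inj exists_io io_ofC ofC_io VP MP UP TP ex sqr sqr_sq kap)
open Pool.Agent.DKB (inL wp wd zt kz KK IsRp IsHf)

private theorem Cst_alg {eS eT eU s D : ℂ} (hs : s = 4 * (eS - eT)) (hD : D = -((eU - eS) / s) / 4)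
    (a1 : eS ≠ eT) (a2 : eU ≠ eS) (a3 : eU ≠ eT) (a4 : eS + eT + eU = 0) :
    s ≠ 0 ∧ D ≠ 0 ∧ 1 - 16 * D ≠ 0 ∧ eS = s * (1 + 16 * D) / 12 ∧ eT = s * (8 * D - 1) / 6 ∧
      eU = s * (1 - 32 * D) / 12 := by
  have hs0 : s ≠ 0 := by
    rw [hs]
    exact mul_ne_zero (by norm_num) (sub_ne_zero.2 a1)
  have hU : eU = eS - 4 * D * s := by
    rw [hD]
    field_simp
    ring
  have hT : eT = eS - s / 4 := by
    rw [hs]
    ring
  have hS12 : 12 * eS = (1 + 16 * D) * s := by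
    rw [hU, hT] at a4
    linear_combination 4 * a4
  refine ⟨hs0, ?_, ?_, ?_, ?_, ?_⟩
  · intro h
    apply a2
    rw [hU, h]
    ring
  · intro h
    apply a3
    rw [hU, hT]
    linear_combination (s / 4) * h
  · linear_combination hS12 / 12
  · rw [hT]
    linear_combination hS12 / 12
  · rw [hU]
    linear_combination hS12 / 12

theorem sCst (h1 : DKB.G_Dis) : K_Cst := by
  intro k _ b hb
  have hS : ¬ inL (LP b) (ptS b) := (notL_LP hb).2 (ptS_mem hb)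
  have hT : ¬ inL (LP b) (ptT b) := (notL_LP hb).2 (ptT_mem hb)
  have hU : ¬ inL (LP b) (ptS b + ptT b) := (notL_LP hb).2 (ptST_mem hb)
  have hSS : inL (LP b) (ptS b + ptS b) := (inL_LP hb).2 (two_ptS hb)
  have hTT : inL (LP b) (ptT b + ptT b) := (inL_LP hb).2 (two_ptT hb)
  obtain ⟨a1, a2, a3, a4, a5, a6⟩ := (h1 (LP b)).2.1 (ptS b) (ptT b) hSS hTT hS hT hU
  rw [← wpC_eq] at a1 a2 a3 a4 a5 a6
  obtain ⟨b1, b2, b3, b4, b5, b6⟩ := Cst_alg (eS := wpC b (ptS b)) (eT := wpC b (ptT b))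
    (eU := wpC b (ptS b + ptT b)) (s := s2 b) (D := DC b) rfl rfl a1 a2 a3 a4
  refine ⟨b1, b2, b3, b4, b5, b6, ?_, ?_⟩
  · rw [a5, b4, b5]
    ring
  · rw [a6, b4, b5, b6]
    ring

end Pool.Agent.DK
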