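import Pool.Agent.Lib.DK.B.SpecK

/-!
# Theorem DK, Part B, module Pts: the points `S`, `T`, `t`
-/

set_option autoImplicit false

open scoped Pointwise Topology
open Filter

noncomputable section

namespace Pool.Agent.DK

open Pool.Agent.MuZ Pool.Agent.FW NumberField IsDedekindDomain
open Pool.Agent.DI (io ofC io_inj exists_io io_ofC ofC_io VP MP UP TP ex sqr sqr_sq kap)
open Pool.Agent.DKB (inL wp wd zt kz KK IsRp IsHf)

private theorem Pts_sys {k : ℕ} {a b : Ideal (OO k)} {S : ℂ} (h1 : S ∈ Lam (a * b))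
    (h2 : S ∉ Lam b) (h3 : ∀ z ∈ Lam (a * b), z ∈ Lam b ∨ z - S ∈ Lam b) : IsSys a b {0, S} := by
  refine ⟨fun u hu => ?_, fun z hz => ?_, fun u hu u' hu' h => ?_⟩
  · rw [Finset.mem_insert, Finset.mem_singleton] at hu
    rcases hu with rfl | rfl
    · exact lam_zero _
    · exact h1
  · rcases h3 z hz with h | h
    · exact ⟨0, by simp, by rwa [sub_zero]⟩
    · exact ⟨S, by simp, h⟩
  · rw [Finset.mem_insert, Finset.mem_singleton] at hu hu'
    rcases hu with rfl | rfl <;> rcases hu' with rfl | rfl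
    · rfl
    · rw [zero_sub, lam_neg_iff] at h
      exact absurd h h2
    · rw [sub_zero] at h
      exact absurd h h2
    · rfl

private theorem Pts_t {k : ℕ} [SqK k] {b : Ideal (OO k)} (hb : b ≠ ⊥) {z : ℂ}
    (h1 : z ∈ Lam (ppb k ^ 2 * b)) (h2 : z ∉ Lam (ppb k * b)) :
    z - ptt b ∈ Lam b ∨ z + ptt b ∈ Lam b := by
  have hb1 : ppb k * b ≠ ⊥ := mul_ne_zero ppb_ne hb
  obtain ⟨-, ⟨-, -, hS⟩, -, ⟨-, -, -, ht⟩, ⟨-, -, hSt, -⟩, -⟩ := aL6 k b hb
  obtain ⟨-, ⟨-, -, hS1⟩, -⟩ := aL6 k (ppb k * b) hb1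
  have e : ppb k * (ppb k * b) = ppb k ^ 2 * b := by rw [← mul_assoc, ← pow_two]
  rw [e] at hS1
  have h3 : z - ptS (ppb k * b) ∈ Lam (ppb k * b) := (hS1 z h1).resolve_left h2
  have h4 : z - ptt b ∈ Lam (ppb k * b) := by
    have h5 := lam_add h3 hSt
    rwa [sub_add_sub_cancel] at h5
  rcases hS _ h4 with h5 | h5
  · exact Or.inl h5
  · right
    have h6 := lam_add h5 ht
    have e' : z - ptt b - ptS b + (ptt b + ptS b + ptt b) = z + ptt b := by ring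
    rwa [e'] at h6

theorem sPts : K_Pts := by
  intro k _ b hb
  obtain ⟨⟨hT1, hT2, hT3⟩, ⟨hS1, hS2, hS3⟩, ⟨-, -, -, hST, -⟩, -⟩ := aL6 k b hb
  refine ⟨Pts_sys hS1 hS2 hS3, Pts_sys hT1 hT2 hT3, ?_, ?_, fun z h1 h2 => Pts_t hb h1 h2, ?_⟩
  · intro h
    rcases hS3 _ h with h1 | h1
    · exact hT2 h1
    · apply hST
      rw [← lam_neg_iff, neg_sub]
      exact h1
  · intro h
    rcases hT3 _ h with h1 | h1
    · exact hS2 h1
    · exact hST h1
  · intro α hα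
    have hb' : sp α * b ≠ ⊥ := mul_ne_zero (sp_ne hα) hb
    obtain ⟨⟨hT1', hT2', -⟩, ⟨hS1', hS2', -⟩, -, ⟨-, ht1, ht2, -⟩, -⟩ := aL6 k (sp α * b) hb'
    have e1 : ppb k * (sp α * b) = sp α * (ppb k * b) := mul_left_comm _ _ _
    have e2 : pp k * (sp α * b) = sp α * (pp k * b) := mul_left_comm _ _ _
    have e3 : ppb k ^ 2 * (sp α * b) = sp α * (ppb k ^ 2 * b) := mul_left_comm _ _ _
    rw [e1, lam_sp] at hS1' ht2
    rw [e2, lam_sp] at hT1'
    rw [e3, lam_sp] at ht1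
    rw [lam_sp] at hT2' hS2'
    exact ⟨(hS3 _ hS1').resolve_left hS2', (hT3 _ hT1').resolve_left hT2', Pts_t hb ht1 ht2⟩

end Pool.Agent.DK
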