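import Pool.Agent.Lib.DK.D.All
import Pool.Agent.Lib.DK.B.AllG
import Pool.Agent.Lib.DK.B.Cst
import Pool.Agent.Lib.DK.B.Pts
import Pool.Agent.Lib.DK.B.Kz
import Pool.Agent.Lib.DK.B.B1
import Pool.Agent.Lib.DK.B.B2
import Pool.Agent.Lib.DK.B.B3
import Pool.Agent.Lib.DK.B.B4
import Pool.Agent.Lib.DK.B.B5
import Pool.Agent.Lib.DK.B.B6
import Pool.Agent.Lib.DK.B.B7
import Pool.Agent.Lib.DK.B.B8
import Pool.Agent.Lib.DK.B.B9
import Pool.Agent.Lib.DK.B.B10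
import Pool.Agent.Lib.DK.B.B11
import Pool.Agent.Lib.DK.B.B12
import Pool.Agent.Lib.DK.B.B13
import Pool.Agent.Lib.DK.B.B14
import Pool.Agent.Lib.DK.B.B15
import Pool.Agent.Lib.DK.B.B16

/-!
# Theorem DK, Part B: assembly (complete)

`aB1 : S_B1`, ..., `aB16 : S_B16`, all without hypotheses; `hB : HB`.
-/

set_option autoImplicit false

noncomputable section

namespace Pool.Agent.DK

theorem aCst : K_Cst := sCst DKB.gDis
theorem aPts : K_Pts := sPts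
theorem aKz : K_Kz := sKz DKB.gKS DKB.gKB
theorem aB2 : S_B2 := sB2 aCst DKB.gExp
theorem aB3 : S_B3 := sB3 aCst aB2 DKB.gAdd DKB.gInj
theorem aB4 : S_B4 := sB4 aCst DKB.gMulB
theorem aB1 : S_B1 := sB1 aCst DKB.gInj aB3
theorem aB5 : S_B5 := sB5 aCst aPts DKB.gSum aB1 aB4
theorem aB7 : S_B7 := sB7 aCst aPts aKz DKB.gScl
theorem aB6 : S_B6 := sB6 aCst aPts DKB.gSum DKB.gMulB aB1 aB4 aB5 aB7
theorem aB8 : S_B8 := sB8 aCst DKB.gPrA DKB.gPrB DKB.gInj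
theorem aB9 : S_B9 := sB9 aCst aKz DKB.gSum DKB.gKB
theorem aB10 : S_B10 := sB10 aCst aKz DKB.gKS DKB.gAdd
theorem aB14 : S_B14 := sB14
theorem aB11 : S_B11 := sB11 aCst aKz aB9 aB10 aB14 DKB.gInj
theorem aB12 : S_B12 := sB12 aCst DKB.gInj DKB.gScl
theorem aB13 : S_B13 := sB13 aCst DKB.gScl DKB.gUni
theorem aB15 : S_B15 := sB15 aB1 aB3 aB4
theorem aB16 : S_B16 := sB16 aCst DKB.gPrC aB14

/-- **Part B.** -/
theorem hB : HB :=
  ⟨aB1, aB2, aB3, aB4, aB5, aB6, aB7, aB8, aB9, aB10, aB11, aB12, aB13, aB14, aB15, aB16⟩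

end Pool.Agent.DK
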