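import Pool.Agent.Lib.DK.B.SpecK

/-!
# Theorem DK, Part B, module B10 (helper47): the function `K`, second difference
-/

set_option autoImplicit false

open scoped Pointwise Topology
open Filter

noncomputable section

namespace Pool.Agent.DK

open Pool.Agent.MuZ Pool.Agent.FW NumberField IsDedekindDomain
open Pool.Agent.DI (io ofC io_inj exists_io io_ofC ofC_io VP MP UP TP ex sqr sqr_sq kap)
open Pool.Agent.DKB (inL wp wd zt kz KK IsRp IsHf)

theorem sB10 (h1 : K_Cst) (h2 : K_Kz) (h3 : DKB.G_KS) (h4 : DKB.G_Add) : S_B10 := by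
  intro k _ b hb
  obtain ⟨hlim, hkz, -⟩ := h2 k b hb
  obtain ⟨-, hper, hodd⟩ := h3 (LP b)
  refine ⟨fun z _ => hlim z, ?_, ?_, ?_⟩
  · intro z l hl
    have h : (fun t => KtC b t (z + l)) = fun t => KtC b t z := by
      funext t
      exact hper t z l ((inL_LP hb).2 hl)
    unfold KC
    rw [h]
  · intro z
    have e1 := hlim (-z)
    have e2 := (hlim z).neg
    have h : (fun t => KtC b t (-z)) = fun t => -KtC b t z := by
      funext t
      exact hodd t z
    rw [h] at e1
    exact tendsto_nhds_unique e1 e2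
  · intro z u hz hu hzu hzu'
    have hs : s2 b ≠ 0 := (h1 k b hb).1
    have hX : s2 b * (XC b z - XC b u) = wp (LP b) z - wp (LP b) u := by
      unfold XC
      rw [← wpC_eq]
      field_simp
      ring
    rw [hX, hkz _ hzu, hkz _ hzu', hkz _ hz, wdC_eq,
      ← (h4 (LP b)).2.2.1 z u ((notL_LP hb).2 hz) ((notL_LP hb).2 hu) ((notL_LP hb).2 hzu)
        ((notL_LP hb).2 hzu')]
    unfold kz
    rw [map_add, map_sub]
    ring

end Pool.Agent.DK
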