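import Pool.Agent.Lib.DI.B.Spec

/-!
# Theorem DK, Part B: elliptic functions of an arbitrary lattice, definitions and basic facts

The general form of `DI/B/Defs.lean`, `DI/B/Basic.lean`: `L : PeriodPair` is arbitrary. `inL L z`: `z` is a
point of the lattice; `wp L`, `wd L` (`= ℘'`), `zt L` (Weierstrass zeta function), `kz L` (the periodic zeta
function), `KK L t z` (the regularised series).
-/

set_option autoImplicit false

noncomputable section

namespace Pool.Agent.DKB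

open Complex Filter Topology PeriodPair

/-! ## Definitions -/

/-- `z` is a point of the lattice. -/
def inL (L : PeriodPair) (z : ℂ) : Prop := z ∈ L.lattice

/-- Weierstrass `℘`. -/
def wp (L : PeriodPair) (z : ℂ) : ℂ := L.weierstrassP z

/-- Weierstrass `℘'`. -/
def wd (L : PeriodPair) (z : ℂ) : ℂ := L.derivWeierstrassP z

/-- The Weierstrass zeta function. -/
def zt (L : PeriodPair) (z : ℂ) : ℂ := ∑' l : L.lattice, (1 / (z - l) + 1 / l + z / l ^ 2)

/-- The first quasi-period. -/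
def et1 (L : PeriodPair) : ℂ := 2 * zt L (L.ω₁ / 2)

/-- The second quasi-period. -/
def et2 (L : PeriodPair) : ℂ := 2 * zt L (L.ω₂ / 2)

/-- The coefficient of `conj z` in the periodic zeta function. -/
def be (L : PeriodPair) : ℂ := (et2 L * L.ω₁ - et1 L * L.ω₂) /
  ((starRingEnd ℂ) L.ω₂ * L.ω₁ - (starRingEnd ℂ) L.ω₁ * L.ω₂)

/-- The coefficient of `z` in the periodic zeta function. -/
def al (L : PeriodPair) : ℂ := (et1 L - be L * (starRingEnd ℂ) L.ω₁) / L.ω₁

/-- The periodic zeta function. -/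
def kz (L : PeriodPair) (z : ℂ) : ℂ := zt L z - al L * z - be L * (starRingEnd ℂ) z

/-- The regularised series. -/
def KK (L : PeriodPair) (t : ℝ) (z : ℂ) : ℂ :=
  ∑' v : L.lattice, (z + v)⁻¹ * (Real.exp (-t * ‖z + v‖ ^ 2) : ℝ)

/-- `g₂/20`, the coefficient of `z²` in `℘`. -/
def ca (L : PeriodPair) : ℂ := L.g₂ / 20

/-- `g₃/28`, the coefficient of `z⁴` in `℘`. -/
def cb (L : PeriodPair) : ℂ := L.g₃ / 28

/-- `R` is a system of representatives of the lattice `M` modulo the lattice `L`. -/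
structure IsRp (L M : PeriodPair) (R : Finset ℂ) : Prop where
  le : ∀ z, inL L z → inL M z
  mem : ∀ u ∈ R, inL M u
  ex : ∀ z, inL M z → ∃ u ∈ R, inL L (z - u)
  uni : ∀ u ∈ R, ∀ u' ∈ R, inL L (u - u') → u = u'

/-- `S` is a half system of `M - L` modulo `L`. -/
structure IsHf (L M : PeriodPair) (S : Finset ℂ) : Prop where
  mem : ∀ u ∈ S, inL M u ∧ ¬ inL L u
  ex : ∀ z, inL M z → ¬ inL L z → ∃ u ∈ S, inL L (z - u) ∨ inL L (z + u)
  uni : ∀ u ∈ S, ∀ u' ∈ S, inL L (u - u') ∨ inL L (u + u') → u = u'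

/-! ## Basic facts -/

variable {L : PeriodPair}

theorem inL_zero : inL L 0 := Submodule.zero_mem _

theorem inL_add {z u : ℂ} (hz : inL L z) (hu : inL L u) : inL L (z + u) := Submodule.add_mem _ hz hu

theorem inL_neg {z : ℂ} (hz : inL L z) : inL L (-z) := Submodule.neg_mem _ hz

theorem inL_neg_iff {z : ℂ} : inL L (-z) ↔ inL L z :=
  ⟨fun h => by have := inL_neg h; rwa [neg_neg] at this, inL_neg⟩

theorem inL_sub {z u : ℂ} (hz : inL L z) (hu : inL L u) : inL L (z - u) := Submodule.sub_mem _ hz hu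

theorem inL_add_iff {z u : ℂ} (hu : inL L u) : inL L (z + u) ↔ inL L z :=
  ⟨fun h => by have := inL_sub h hu; rwa [add_sub_cancel_right] at this, fun h => inL_add h hu⟩

theorem inL_coe (v : L.lattice) : inL L (v : ℂ) := v.2

theorem inL_o1 : inL L L.ω₁ := L.ω₁_mem_lattice

theorem inL_o2 : inL L L.ω₂ := L.ω₂_mem_lattice

theorem notL_h1 : ¬ inL L (L.ω₁ / 2) := L.ω₁_div_two_notMem_lattice

theorem notL_h2 : ¬ inL L (L.ω₂ / 2) := L.ω₂_div_two_notMem_lattice

theorem inL_iff {z : ℂ} : inL L z ↔ ∃ m n : ℤ, z = m * L.ω₁ + n * L.ω₂ := by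
  unfold inL
  rw [PeriodPair.mem_lattice]
  exact ⟨fun ⟨m, n, h⟩ => ⟨m, n, h.symm⟩, fun ⟨m, n, h⟩ => ⟨m, n, h.symm⟩⟩

/-- A nonzero lattice point is not too small. -/
theorem norm_ge (L : PeriodPair) : ∃ δ : ℝ, 0 < δ ∧ ∀ v, inL L v → v ≠ 0 → δ ≤ ‖v‖ := by
  have h := L.compl_lattice_sdiff_singleton_mem_nhds 0
  obtain ⟨δ, hδ, hb⟩ := Metric.mem_nhds_iff.1 h
  refine ⟨δ, hδ, fun v hv hv0 => ?_⟩
  by_contra hlt
  rw [not_le] at hlt
  exact hb (by rwa [Metric.mem_ball, dist_zero_right]) ⟨hv, hv0⟩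

/-! ### Punctured neighbourhoods -/

theorem ev_inL (L : PeriodPair) (z : ℂ) : ∀ᶠ u in 𝓝[≠] z, ¬ inL L u := by
  have h := L.compl_lattice_sdiff_singleton_mem_nhds z
  rw [eventually_nhdsWithin_iff]
  filter_upwards [h] with u hu h1 h2
  exact hu ⟨h2, h1⟩

theorem tendsto_aff (c a : ℂ) (hc : c ≠ 0) (z : ℂ) :
    Tendsto (fun u : ℂ => c * u + a) (𝓝[≠] z) (𝓝[≠] (c * z + a)) := by
  refine tendsto_nhdsWithin_of_tendsto_nhds_of_eventually_within _ ?_ ?_
  · exact ((by fun_prop : Continuous fun u : ℂ => c * u + a).tendsto z).mono_left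
      nhdsWithin_le_nhds
  · rw [eventually_nhdsWithin_iff]
    refine Eventually.of_forall fun u hu h1 => hu ?_
    exact mul_left_cancel₀ hc (add_right_cancel h1)

theorem tendsto_shift (a z : ℂ) : Tendsto (fun u : ℂ => u + a) (𝓝[≠] z) (𝓝[≠] (z + a)) := by
  have := tendsto_aff 1 a one_ne_zero z
  simpa only [one_mul] using this

theorem ev_aff (L : PeriodPair) (c a : ℂ) (hc : c ≠ 0) (z : ℂ) : ∀ᶠ u in 𝓝[≠] z, ¬ inL L (c * u + a) :=
  (tendsto_aff c a hc z).eventually (ev_inL L _)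

theorem ev_add (L : PeriodPair) (a z : ℂ) : ∀ᶠ u in 𝓝[≠] z, ¬ inL L (u + a) := by
  have := ev_aff L 1 a one_ne_zero z
  simpa only [one_mul] using this

theorem isOpen_notL : IsOpen {z : ℂ | ¬ inL L z} := L.isClosed_lattice.isOpen_compl

theorem ev_notL {z : ℂ} (h : ¬ inL L z) : ∀ᶠ u in 𝓝 z, ¬ inL L u := isOpen_notL.mem_nhds h

theorem countable_L (L : PeriodPair) : (L.lattice : Set ℂ).Countable :=
  countable_of_Lindelof_of_discrete (X := L.lattice)

theorem preconn_notL : IsPreconnected {z : ℂ | ¬ inL L z} :=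
  ((countable_L L).isConnected_compl_of_one_lt_rank (by rw [Complex.rank_real_complex]; norm_num)).2

/-! ### `℘` -/

theorem wp_add (z : ℂ) {v : ℂ} (hv : inL L v) : wp L (z + v) = wp L z := L.weierstrassP_add_coe z ⟨v, hv⟩

theorem wd_add (z : ℂ) {v : ℂ} (hv : inL L v) : wd L (z + v) = wd L z :=
  L.derivWeierstrassP_add_coe z ⟨v, hv⟩

theorem wp_neg (z : ℂ) : wp L (-z) = wp L z := L.weierstrassP_neg z

theorem wd_neg (z : ℂ) : wd L (-z) = -wd L z := L.derivWeierstrassP_neg z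

theorem wp_lat {z : ℂ} (hz : inL L z) : wp L z = 0 := L.weierstrassP_coe ⟨z, hz⟩

theorem wd_lat {z : ℂ} (hz : inL L z) : wd L z = 0 := L.derivWeierstrassP_coe ⟨z, hz⟩

theorem wp_congr {z u : ℂ} (h : inL L (z - u)) : wp L z = wp L u := by
  have := wp_add u h
  rwa [add_sub_cancel] at this

theorem wd_congr {z u : ℂ} (h : inL L (z - u)) : wd L z = wd L u := by
  have := wd_add u h
  rwa [add_sub_cancel] at this

theorem analyticAt_wp {z : ℂ} (h : ¬ inL L z) : AnalyticAt ℂ (wp L) z :=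
  L.analyticOnNhd_weierstrassP z h

theorem analyticAt_wd {z : ℂ} (h : ¬ inL L z) : AnalyticAt ℂ (wd L) z :=
  L.analyticOnNhd_derivWeierstrassP z h

theorem deriv_wp : deriv (wp L) = wd L := L.deriv_weierstrassP

theorem hasDerivAt_wp {z : ℂ} (h : ¬ inL L z) : HasDerivAt (wp L) (wd L z) z := by
  rw [← deriv_wp]
  exact (analyticAt_wp h).differentiableAt.hasDerivAt

theorem wd_sq {z : ℂ} (h : ¬ inL L z) :
    wd L z ^ 2 = 4 * wp L z ^ 3 - L.g₂ * wp L z - L.g₃ := L.derivWeierstrassP_sq z h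

theorem wd_half {z : ℂ} (h : inL L (z + z)) : wd L z = 0 := by
  have h1 : wd L (-z) = wd L z := wd_congr (by
    have := inL_neg h
    rwa [neg_add, ← sub_eq_add_neg] at this)
  rw [wd_neg] at h1
  have h3 : (2 : ℂ) * wd L z = 0 := by linear_combination -h1
  rcases mul_eq_zero.1 h3 with h4 | h4
  · norm_num at h4
  · exact h4

/-! ### Sums over the lattice -/

theorem sum3 (L : PeriodPair) (z : ℂ) : Summable fun v : L.lattice => (‖z + (v : ℂ)‖ ^ 3)⁻¹ := by
  have h := ZLattice.summable_norm_sub_zpow L.lattice (-3) (by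
    rw [L.finrank_lattice]
    norm_num) (-z)
  refine h.congr fun l => ?_
  rw [zpow_neg, sub_neg_eq_add, add_comm]
  rfl

/-! ### The two periods -/

theorem o1_ne (L : PeriodPair) : L.ω₁ ≠ 0 := by
  intro h
  have h1 := notL_h1 (L := L)
  rw [h, zero_div] at h1
  exact h1 inL_zero

theorem im_ne (L : PeriodPair) :
    (starRingEnd ℂ) L.ω₂ * L.ω₁ - (starRingEnd ℂ) L.ω₁ * L.ω₂ ≠ 0 := by
  intro h
  have h1 := L.indep
  rw [LinearIndependent.pair_iff] at h1
  have h2 : ((L.ω₂ / L.ω₁).im : ℝ) = 0 := by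
    have h3 : (starRingEnd ℂ) (L.ω₂ / L.ω₁) = L.ω₂ / L.ω₁ := by
      rw [map_div₀, div_eq_div_iff (by rw [ne_eq, map_eq_zero]; exact o1_ne L) (o1_ne L)]
      linear_combination h
    exact Complex.conj_eq_iff_im.1 h3
  have h3 : L.ω₂ = ((L.ω₂ / L.ω₁).re : ℂ) * L.ω₁ := by
    have h4 : L.ω₂ / L.ω₁ = ((L.ω₂ / L.ω₁).re : ℂ) := by
      apply Complex.ext
      · rw [Complex.ofReal_re]
      · rw [Complex.ofReal_im, h2]
    rw [← h4, div_mul_cancel₀ _ (o1_ne L)]
  have h5 := h1 ((L.ω₂ / L.ω₁).re) (-1) (by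
    rw [Complex.real_smul, Complex.real_smul, ← h3]
    push_cast
    ring)
  have := h5.2
  norm_num at this

end Pool.Agent.DKB
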