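import Pool.Agent.Lib.DK.B.Basic

/-!
# Theorem DK, Part B: statements of the modules, 1. arbitrary lattices (author helper42)

Every statement `G_X` is a `Prop`; the module `X` proves it in the file `Pool/Agent/Lib/DK/B/X.lean` as
`theorem tX ... : G_X` (namespace `Pool.Agent.DKB`), with the statements named in the docstring (uses ..) as
hypotheses, in that order. Definitions and basic facts: `DK/B/Basic.lean` (please read it first).

PORTS. Most modules are the module of the same name in `Pool/Agent/Lib/DI/B/` for the lattice `O`: copy the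
file and replace `inO z` by `inL L z`, `wp`, `wp'`, `zt` by `wp L`, `wd L`, `zt L`, `LO` by `L`,
`v : O`, `em v` by `v` with `inL L v` (or `v : L.lattice`, `(v : ℂ)`); `ev_inO` -> `ev_inL L`,
`ev_notO` -> `ev_notL`, `inO_..` -> `inL_..`, `wp_add z v` -> `wp_add z hv` (`hv : inL L v`), `wp'_sq` ->
`wd_sq`, `wp'_half` -> `wd_half`. `DI.S_Tay`, `DI.S_KQ`, `DI.qq`, `DI.ind` do not depend on the lattice and
are used as they are (`DI.tTay`, `DI.tKQ` are proved).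

METHOD. All identities between the functions are proved with `G_Lio`: a function which is differentiable off
a discrete set, has a limit at every point and is periodic (off a discrete set) is constant. The limits at
the lattice points are computed with the expansions `G_Exp`, `G_Zet`. -/

set_option autoImplicit false

noncomputable section

namespace Pool.Agent.DKB

open Complex Filter Topology

/-! ## 1. Tools -/

/-- MODULE `Lio` (90 lines; PORT of `DI/B/Lio`). LIOUVILLE.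
PROOF. As in `DI/B/Lio`; only the covering lemma changes: every `z` is `x ω₁ + y ω₂ + v` with
`0 ≤ x, y ≤ 1` and `v` in the lattice: `z = a ω₁ + b ω₂` with `a b : ℝ` (`L.basis`, `Basis.sum_repr`,
`Fin.sum_univ_two`, or `L.basis.repr z 0`, ..), `x = Int.fract a`, `y = Int.fract b`,
`v = ⌊a⌋ ω₁ + ⌊b⌋ ω₂` (`inL_iff`). -/
def G_Lio : Prop := ∀ (L : PeriodPair) (f : ℂ → ℂ),
  (∀ z, ∀ᶠ u in 𝓝[≠] z, DifferentiableAt ℂ f u) →
  (∀ z, ∃ v c : ℂ, inL L v ∧ Tendsto f (𝓝[≠] (z + v)) (𝓝 c)) →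
  (∀ v, inL L v → ∀ z : ℂ, ∀ᶠ u in 𝓝[≠] z, f (u + v) = f u) →
  ∃ c, ∀ z, Tendsto f (𝓝[≠] z) (𝓝 c)

/-- MODULE `Exp` (120 lines; uses `DI.S_Tay`; PORT of `DI/B/Exp`). EXPANSIONS OF `℘` AND `℘'`. -/
def G_Exp : Prop := ∀ L : PeriodPair,
  (∃ r r1 : ℂ → ℂ, AnalyticAt ℂ r 0 ∧ AnalyticAt ℂ r1 0 ∧ ∀ z, z ≠ 0 →
    wp L z = (z ^ 2)⁻¹ + ca L * z ^ 2 + cb L * z ^ 4 + z ^ 6 * r z ∧
    wd L z = -2 * (z ^ 3)⁻¹ + 2 * ca L * z + 4 * cb L * z ^ 3 + z ^ 5 * r1 z) ∧
  (∀ z, ¬ inL L z → HasDerivAt (wd L) (6 * wp L z ^ 2 - L.g₂ / 2) z) ∧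
  ∀ c, ¬ inL L c → ∃ r r1 : ℂ → ℂ, AnalyticAt ℂ r 0 ∧ AnalyticAt ℂ r1 0 ∧ ∀ h,
    wp L (c + h) = wp L c + wd L c * h + (3 * wp L c ^ 2 - L.g₂ / 4) * h ^ 2 + h ^ 3 * r h ∧
    wd L (c + h) = wd L c + (6 * wp L c ^ 2 - L.g₂ / 2) * h + h ^ 2 * r1 h

/-- MODULE `ZetA` (130 lines; uses `DI.S_Tay`; PORT of `DI/B/ZetA`). THE ZETA FUNCTION. -/
def G_ZetA : Prop := ∀ L : PeriodPair,
  (∀ z, ¬ inL L z → HasDerivAt (zt L) (-wp L z) z) ∧
  (∀ z, zt L (-z) = -zt L z) ∧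
  ∃ r : ℂ → ℂ, AnalyticAt ℂ r 0 ∧ ∀ z, z ≠ 0 → zt L z = z⁻¹ + z ^ 3 * r z

/-- MODULE `ZetB` (90 lines; uses `G_ZetA`; proves `G_Zet`; PORT of `DI/B/ZetB`). QUASI-PERIODS.
PROOF. `η v`, the constant value of `zt (z + v) - zt z` on the connected set of the `z` not in the lattice
(`isOpen_notL`, `preconn_notL`, `IsOpen.is_const_of_deriv_eq_zero`), is additive in `v`; `η ω₁ = et1`
(`z = -ω₁/2`, `notL_h1`), `η ω₂ = et2`. For `v = m ω₁ + n ω₂` (`inL_iff`): `η v = m et1 + n et2`, and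
`al v + be conj v = m (al ω₁ + be conj ω₁) + n (al ω₂ + be conj ω₂) = m et1 + n et2` by the definitions of
`al`, `be` (`o1_ne`, `im_ne`: `field_simp`, `ring`). -/
def G_Zet : Prop := ∀ L : PeriodPair,
  (∀ z, ¬ inL L z → HasDerivAt (zt L) (-wp L z) z) ∧
  (∀ z, zt L (-z) = -zt L z) ∧
  (∀ z v, ¬ inL L z → inL L v → zt L (z + v) = zt L z + (al L * v + be L * (starRingEnd ℂ) v)) ∧
  (∃ r : ℂ → ℂ, AnalyticAt ℂ r 0 ∧ ∀ z, z ≠ 0 → zt L z = z⁻¹ + z ^ 3 * r z) ∧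
  al L * L.ω₁ + be L * (starRingEnd ℂ) L.ω₁ = et1 L ∧
  al L * L.ω₂ + be L * (starRingEnd ℂ) L.ω₂ = et2 L

/-! ## 2. Addition theorem -/

/-- MODULE `ZadA` (130 lines; uses `G_Lio`, `DI.S_Tay`, `G_Exp`, `G_Zet`; PORT of `DI/B/ZadA`). -/
def G_ZadA : Prop := ∀ (L : PeriodPair) (z z' : ℂ), ¬ inL L z → ¬ inL L z' → ¬ inL L (z + z') →
  (zt L (z + z') - zt L z - zt L z') * (wp L z - wp L z') = (wd L z - wd L z') / 2

/-- MODULE `ZadB` (130 lines; uses `G_Lio`, `DI.S_Tay`, `G_Exp`, `G_Zet`; PORT of `DI/B/ZadB`). -/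
def G_ZadB : Prop := ∀ (L : PeriodPair) (z z' : ℂ), ¬ inL L z → ¬ inL L z' → ¬ inL L (z + z') →
  (zt L (z + z') - zt L z - zt L z') ^ 2 = wp L (z + z') + wp L z + wp L z'

/-- MODULE `MulB` (110 lines; uses `G_Lio`, `G_Exp`; PORT of `DI/B/MulB`). Translation by a point `t` of
order two. -/
def G_MulB : Prop := ∀ (L : PeriodPair) (t : ℂ), ¬ inL L t → inL L (t + t) →
  ∀ z : ℂ, ¬ inL L z → ¬ inL L (z + t) →
  (wp L (z + t) - wp L t) * (wp L z - wp L t) = 3 * wp L t ^ 2 - L.g₂ / 4 ∧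
  wd L (z + t) * (wp L z - wp L t) + (wp L (z + t) - wp L t) * wd L z = 0

/-- MODULE `Dis` (130 lines; uses `G_Exp`, `G_MulB`). The discriminant is not zero.
PROOF. (a) `℘` is not constant near any point: if `wp L = c` on a nonempty open set of points not in the
lattice then `wp L = c` off the lattice (`preconn_notL`, `AnalyticOnNhd.eqOn_of_preconnected_of_eventuallyEq`
with the constant function), but `z² wp L z → 1` for `z → 0` (`G_Exp`), a contradiction.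
(b) FIRST CLAIM. Let `K = 3 wp t² - g₂/4 = 0`. By `G_MulB` `(wp (z + t) - e) (wp z - e) = 0`, `e = wp t`, for
all `z` with `z`, `z + t` not in the lattice. The function `z ↦ wp (z + t) - e` is not zero near `0` (it
would be zero near the point `t`, (a); or: at `z = t + h`, `wp (z + t) = wp h` is large), so there are points
`z₀` near which it has no zero; there `wp z = e`: a contradiction to (a). Simplest: for small `h ≠ 0`
`wp h ≠ e` (`h² wp h → 1`), so `wp (h + t) = e` for all small `h ≠ 0`; then `wp` is constant near `t`.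
(c) SECOND CLAIM: `G_MulB` for `t = T`, `z = S` (`S + T` is not in the lattice):
`(wp (S + T) - wp T) (wp S - wp T) = 3 wp T² - g₂/4 ≠ 0`.
(d) THIRD CLAIM: `wd = 0` at `S`, `T`, `S + T` (`wd_half`), `wd_sq`: `e₁, e₂, e₃` are three
different zeros of `4 x³ - g₂ x - g₃`. Subtract two and divide: `4 (e₁² + e₁ e₂ + e₂²) = g₂`,
`4 (e₁² + e₁ e₃ + e₃²) = g₂`; subtract and divide by `e₂ - e₃`: `e₁ + e₂ + e₃ = 0`;
`g₃ = 4 e₁³ - g₂ e₁ = 4 e₁ e₂ e₃`. -/
def G_Dis : Prop := ∀ L : PeriodPair,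
  (∀ t : ℂ, ¬ inL L t → inL L (t + t) → 3 * wp L t ^ 2 - L.g₂ / 4 ≠ 0) ∧
  (∀ S T : ℂ, inL L (S + S) → inL L (T + T) → ¬ inL L S → ¬ inL L T → ¬ inL L (S + T) →
    wp L S ≠ wp L T ∧ wp L (S + T) ≠ wp L S ∧ wp L (S + T) ≠ wp L T ∧
    wp L S + wp L T + wp L (S + T) = 0 ∧
    L.g₂ = 4 * (wp L S ^ 2 + wp L S * wp L T + wp L T ^ 2) ∧
    L.g₃ = 4 * wp L S * wp L T * wp L (S + T)) ∧
  ∀ z : ℂ, ¬ inL L z → wd L z = 0 → 6 * wp L z ^ 2 - L.g₂ / 2 ≠ 0

/-- MODULE `Inj` (110 lines; uses `G_Exp`, `G_ZadA`, `G_ZadB`, `G_Dis`; PORT of `DI/B/Inj`: step (i) there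
is the third claim of `G_Dis`). -/
def G_Inj : Prop := ∀ L : PeriodPair,
  (∀ z z' : ℂ, ¬ inL L z → ¬ inL L z' → (wp L z = wp L z' ↔ inL L (z - z') ∨ inL L (z + z'))) ∧
  ∀ z : ℂ, ¬ inL L z → (wd L z = 0 ↔ inL L (z + z))

/-- MODULE `Add` (120 lines; uses `G_Exp`, `G_Zet`, `G_ZadA`, `G_ZadB`; for the duplication formula see the
end of `DI/B/XAdd`). THE ADDITION THEOREM.
PROOF. FIRST CLAIM: with `A = zt (z + z') - zt z - zt z'`: `2 A (wp z - wp z') = wd z - wd z'` (`G_ZadA`),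
`A² = wp (z + z') + wp z + wp z'` (`G_ZadB`): square the first. SECOND CLAIM: the first one for `z`, `-z'`.
THIRD CLAIM: `G_ZadA` for `z`, `z'` and for `z`, `-z'`; `zt` is odd: add. FOURTH CLAIM (duplication): `z` is
not in the lattice as `z + z` is not. `G_ZadA` for `z`, `z + h`, small `h ≠ 0`, divided by `- h`, `h → 0`:
`(zt (z + z) - 2 zt z) wd z = (6 wp z² - g₂/2)/2` (`G_Exp`, third part; `zt` is continuous at `z + z` and at
`z`, `G_Zet`), and `G_ZadB` for `z`, `z`: `(zt (z + z) - 2 zt z)² = wp (z + z) + 2 wp z`: square the first and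
insert. -/
def G_Add : Prop := ∀ L : PeriodPair,
  (∀ z z' : ℂ, ¬ inL L z → ¬ inL L z' → ¬ inL L (z + z') →
    4 * (wp L (z + z') + wp L z + wp L z') * (wp L z - wp L z') ^ 2 = (wd L z - wd L z') ^ 2) ∧
  (∀ z z' : ℂ, ¬ inL L z → ¬ inL L z' → ¬ inL L (z - z') →
    4 * (wp L (z - z') + wp L z + wp L z') * (wp L z - wp L z') ^ 2 = (wd L z + wd L z') ^ 2) ∧
  (∀ z z' : ℂ, ¬ inL L z → ¬ inL L z' → ¬ inL L (z + z') → ¬ inL L (z - z') →
    (zt L (z + z') + zt L (z - z') - 2 * zt L z) * (wp L z - wp L z') = wd L z) ∧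
  ∀ z : ℂ, ¬ inL L (z + z) →
    4 * (wp L (z + z) + 2 * wp L z) * wd L z ^ 2 = (6 * wp L z ^ 2 - L.g₂ / 2) ^ 2

/-! ## 3. Two lattices -/

/-- MODULE `Sum` (120 lines; uses `G_Lio`, `G_Exp`). ISOGENIES: THE SUM FORMULA. NEW.
PROOF. `G_Lio` for the lattice `M` and `f z = wp M z - ∑ u ∈ R, (wp L (z + u) - wp L u)`. Differentiable at `z`
if `z` is not in `M` (then `z + u` is not in `M`, so not in `L`). Periodic: for `v` in `M` let `σ u`, for
`u ∈ R`, be the element of `R` with `u + v - σ u` in `L` (`IsRp.ex`); `σ` is injective on `R` (`IsRp.uni`), so a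
bijection of `R` (`Finset.sum_nbij` with `Finset.surj_on_of_inj_on_of_card_le` or
`Finset.sum_bijective`/`Function.Injective` on the subtype, a finite type), and
`wp L (z + v + u) = wp L (z + σ u)` (`wp_congr`). Limits: `z` not in `M`: continuity (`v = 0`). `z` in `M`:
`v = -z`, the limit at `0`: exactly one `u₀` in `R` is in `L` (`IsRp.ex` for `0`, `IsRp.uni`);
`wp L (h + u₀) - wp L u₀ = wp L h` (`wp_add`, `wp_lat`); `wp M h - wp L h = (ca M - ca L) h² + .. → 0`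
(`G_Exp` for `M` and `L`), and `wp L (h + u) - wp L u → 0` for the other `u` (not in `L`). So the constant is
`0` (limit at `0`), and `f z = 0` for `z` not in `M` by continuity. SECOND CLAIM: differentiate (both sides are
equal near `z`; `hasDerivAt_wp`, `HasDerivAt.comp_add_const`, `HasDerivAt.fun_sum`, `HasDerivAt.unique`). -/
def G_Sum : Prop := ∀ (L M : PeriodPair) (R : Finset ℂ), IsRp L M R → ∀ z : ℂ, ¬ inL M z →
  wp M z = ∑ u ∈ R, (wp L (z + u) - wp L u) ∧ wd M z = ∑ u ∈ R, wd L (z + u)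

/-- MODULE `Scl` (120 lines). SCALING AND CONJUGATION. NEW.
PROOF. All functions are sums over the lattice (`PeriodPair.weierstrassP`, `derivWeierstrassP`,
`g₂ = 60 G 4`, `G n = ∑' l, (l ^ n)⁻¹`; unfold). (1) `v ↦ c v` is a bijection from the points of `M` to the
points of `L` (`Equiv.ofBijective`, with inverse `v ↦ v / c`); reindex (`Equiv.tsum_eq`), `tsum_mul_left`
(no summability is needed in a field) and compare the terms: `1/(c z - c l)² = c⁻² /(z - l)²`, and for `KK`: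
`(c z + c v)⁻¹ exp(-(t/|c|²) |c z + c v|²) = c⁻¹ (z + v)⁻¹ exp(-t |z + v|²)`. (2) The same with `v ↦ conj v`;
`Complex.conj_tsum` (or see `DI/B/Cj`). (3) The pair `(ω₁/c, ω₂/c)`; linear independence:
`LinearIndependent.pair_iff`, multiply by `c`; `inL_iff`. -/
def G_Scl : Prop :=
  (∀ (L M : PeriodPair) (c : ℂ), c ≠ 0 → (∀ z, inL M z ↔ inL L (c * z)) →
    (∀ z, wp M z = c ^ 2 * wp L (c * z)) ∧ (∀ z, wd M z = c ^ 3 * wd L (c * z)) ∧
    (∀ (t : ℝ) (z : ℂ), KK M t z = c * KK L (t / ‖c‖ ^ 2) (c * z)) ∧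
    M.g₂ = c ^ 4 * L.g₂ ∧ M.g₃ = c ^ 6 * L.g₃) ∧
  (∀ L M : PeriodPair, (∀ z, inL M z ↔ inL L ((starRingEnd ℂ) z)) →
    (∀ z, wp M z = (starRingEnd ℂ) (wp L ((starRingEnd ℂ) z))) ∧
    (∀ z, wd M z = (starRingEnd ℂ) (wd L ((starRingEnd ℂ) z))) ∧
    (∀ (t : ℝ) (z : ℂ), KK M t z = (starRingEnd ℂ) (KK L t ((starRingEnd ℂ) z))) ∧
    M.g₂ = (starRingEnd ℂ) L.g₂ ∧ M.g₃ = (starRingEnd ℂ) L.g₃) ∧
  ∀ (L : PeriodPair) (c : ℂ), c ≠ 0 → ∃ M : PeriodPair, ∀ z, inL M z ↔ inL L (c * z)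

/-- MODULE `Uni` (170 lines; uses `G_Exp`). THE INVARIANTS DETERMINE THE LATTICE. NEW.
PROOF. `ca`, `cb` agree, so (`G_Exp`, first part, for `L`, `M`) there is `ρ` analytic at `0` with
`wp L z - wp M z = z⁶ ρ z` for all `z ≠ 0` (`ρ = r - r'`). (a) `ρ = 0` near `0`. Otherwise
(`AnalyticAt.exists_eventuallyEq_pow_smul_nonzero_iff` for `φ z = z⁶ ρ z`, analytic at `0`, not eventually
`0`) `φ z = z ^ n g z` near `0`, `g` analytic at `0`, `g 0 ≠ 0`. For `z ≠ 0` near `0` (not in `L`, `M`):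
`φ = wp L - wp M` near `z`, so `φ'' = 6 (wp L + wp M) φ` (`G_Exp`, second part, `g₂` agree), i.e.
`n (n-1) z ^ (n-2) g + 2 n z ^ (n-1) g' + z ^ n g'' = 6 (wp L z + wp M z) z ^ n g`; multiply by `z² / z ^ n`
and let `z → 0` (`z² (wp L z + wp M z) → 2`): `n (n - 1) g 0 = 12 g 0`, so `n (n - 1) = 12`, `n = 4`. But then
`g z = z² ρ z` near `0`, `z ≠ 0`, so `g 0 = 0`, a contradiction. (To avoid natural subtraction: multiply by
`z²` from the start: `z² φ'' = 6 z² (wp L + wp M) φ`; the derivative of `z ^ n` is `n z ^ n / z` for `z ≠ 0`.)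
(b) So `wp L = wp M` on a punctured neighbourhood of `0`. Let `U` be the set of the `z` in neither lattice: the
complement of a countable set, so preconnected (see the proof of `preconn_notL`, `countable_L`), open; `wp L -
wp M` is analytic on `U` and zero near some point of `U`, so it is zero on `U`. (c) Let `l` be in `L`, not in
`M`. For small `h ≠ 0` the point `l + h` is in `U` (`ev_add`), so `wp L h = wp L (l + h) = wp M (l + h) →
wp M l`, and `h² wp L h → 1` (`G_Exp`): `0 = 1`. By symmetry the lattices agree. -/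
def G_Uni : Prop := ∀ L M : PeriodPair, L.g₂ = M.g₂ → L.g₃ = M.g₃ → ∀ z : ℂ, inL L z ↔ inL M z

/-! ## 4. The periodic zeta function -/

/-- MODULE `KS` (70 lines; PORT of `DI/B/KS`). The regularised series. -/
def G_KS : Prop := ∀ L : PeriodPair,
  (∀ t : ℝ, 0 < t → ∀ z : ℂ,
    Summable fun v : L.lattice => (z + v)⁻¹ * ((Real.exp (-t * ‖z + v‖ ^ 2) : ℝ) : ℂ)) ∧
  (∀ (t : ℝ) (z v : ℂ), inL L v → KK L t (z + v) = KK L t z) ∧
  ∀ (t : ℝ) (z : ℂ), KK L t (-z) = -KK L t z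

/-- MODULE `KD` (70 lines; uses `G_KS`; compare `DI/B/KD`). Distribution, `t > 0`.
PROOF. `R × L → M`, `(u, v) ↦ u + v`, is a bijection (`IsRp`); the terms of `KK M t z` and of
`∑ u ∈ R, KK L t (z + u)` are the same: `z + (u + v) = (z + u) + v`. The sum over `M` is summable (`G_KS`), so
`Equiv.tsum_eq`, `Summable.tsum_prod` (as in `DI/B/KD`), `tsum_fintype`, `Finset.sum_coe_sort`. -/
def G_KD : Prop := ∀ (L M : PeriodPair) (R : Finset ℂ), IsRp L M R → ∀ t : ℝ, 0 < t → ∀ z : ℂ,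
  KK M t z = ∑ u ∈ R, KK L t (z + u)

/-- MODULE `KA` (140 lines; uses `G_KS`, `DI.S_KQ`; PORT of `DI/B/KA`). The limit of the regularised series,
up to a linear function. `‖em v‖ ≥ 1` (`em_norm_ge`) is replaced by `‖v‖ ≥ δ` (`norm_ge`): the bounds change
by constants. -/
def G_KA : Prop := ∀ L : PeriodPair, ∃ A B : ℝ → ℂ, ∀ z : ℂ, ¬ inL L z →
  Tendsto (fun t : ℝ => KK L t z + A t * z + B t * (starRingEnd ℂ) z) (𝓝[>] 0) (𝓝 (zt L z))

/-- MODULE `KB` (100 lines; uses `G_Zet`, `G_KS`, `G_KA`; compare `DI/B/KB`). The periodic zeta function.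
PROOF. FIRST CLAIM. `z₀ = ω₁/2` (`notL_h1`). `G_KA` for `z₀ + v` minus `G_KA` for `z₀`, with `G_KS` and `G_Zet`
(third part): `A t v + B t conj v → al v + be conj v` for `v = ω₁, ω₂`. Multiply the first by `ω₂`, the second
by `ω₁` and subtract: `(B t - be) (conj ω₂ ω₁ - conj ω₁ ω₂) → 0`, so `B t → be` (`im_ne`); then
`(A t - al) ω₁ → 0`, `A t → al` (`o1_ne`). Subtract from `G_KA`. SECOND: the first with `G_KS` (uniqueness of
limits), or `G_Zet`. THIRD: `G_Zet`. FOURTH CLAIM (distribution): limits in `G_KD` for `t → 0+`: `z + u` is not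
in `L`, as `z` is not in `M`. (`G_KD` is the fourth hypothesis.) -/
def G_KB : Prop := ∀ L : PeriodPair,
  (∀ z : ℂ, ¬ inL L z → Tendsto (fun t : ℝ => KK L t z) (𝓝[>] 0) (𝓝 (kz L z))) ∧
  (∀ z v : ℂ, ¬ inL L z → inL L v → kz L (z + v) = kz L z) ∧
  (∀ z : ℂ, kz L (-z) = -kz L z) ∧
  ∀ (M : PeriodPair) (R : Finset ℂ), IsRp L M R → ∀ z : ℂ, ¬ inL M z →
    kz M z = ∑ u ∈ R, kz L (z + u)

/-! ## 5. Product formulas -/

/-- MODULE `Ord` (100 lines; uses `G_Exp`, `G_Dis`, `G_Inj`; PORT of `DI/B/Ord`, case `c = 1`). THE ORDER OF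
`℘ (u + a) - ℘ b`. (`order_weierstrassP` is in Mathlib; `DI.ind P` is `1` if `P`, else `0`.) -/
def G_Ord : Prop := ∀ (L : PeriodPair) (a b : ℂ), ¬ inL L b → ∀ z : ℂ,
  MeromorphicAt (fun u => wp L (u + a) - wp L b) z ∧
  meromorphicOrderAt (fun u => wp L (u + a) - wp L b) z =
    ((DI.ind (inL L (z + a - b)) + DI.ind (inL L (z + a + b)) - 2 * DI.ind (inL L (z + a)) : ℤ) : WithTop ℤ)

/-- MODULE `Quo` (70 lines; uses `G_Lio`; PORT of `DI/B/Quo`). Functions with the same divisor. -/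
def G_Quo : Prop := ∀ (L : PeriodPair) (F G : ℂ → ℂ), (∀ z, MeromorphicAt F z) → (∀ z, MeromorphicAt G z) →
  (∀ z, meromorphicOrderAt F z = meromorphicOrderAt G z ∧ meromorphicOrderAt F z ≠ ⊤) →
  (∀ v, inL L v → ∀ z : ℂ, F (z + v) = F z ∧ G (z + v) = G z) →
  ∃ c, c ≠ 0 ∧ ∀ z, ∀ᶠ u in 𝓝[≠] z, F u = c * G u

/-- MODULE `PrA` (110 lines; uses `G_Ord`, `G_Quo`; PORT of `DI/B/PrA`). THE PRODUCT FORMULA.
PROOF. `F z = ∏ u ∈ R, (wp L (z + u) - wp L b)`, `G z = wp M z - wp M b`. For all `y`: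
`∑ u ∈ R, ind (inL L (y + u)) = ind (inL M y)` (`IsRp`, for `-y`). So (`G_Ord`, `meromorphicOrderAt_fun_prod`)
both orders at `z` are `ind (inL M (z - b)) + ind (inL M (z + b)) - 2 ind (inL M z)` (`b` is not in `M`, so not in
`L`). `G_Quo` for the lattice `L` (both functions are periodic with respect to `L`). Then continuity at `z` not
in `M`. -/
def G_PrA : Prop := ∀ (L M : PeriodPair) (R : Finset ℂ), IsRp L M R → ∀ b : ℂ, ¬ inL M b →
  ∃ c : ℂ, c ≠ 0 ∧ ∀ z : ℂ, ¬ inL M z → ∏ u ∈ R, (wp L (z + u) - wp L b) = c * (wp M z - wp M b)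

open Classical in
/-- MODULE `PrB` (70 lines; uses `G_Exp`; PORT of `DI/B/PrB`). THE CONSTANT.
PROOF. Exactly one `u₀ ∈ R` is in `L` (`IsRp` for `0`). Multiply by `h²` and let `h → 0`: the left side tends to
`∏ (u ≠ u₀), (wp L u - wp L b)`, the right side to `c` (`h² wp h → 1` for both lattices). -/
def G_PrB : Prop := ∀ (L M : PeriodPair) (R : Finset ℂ), IsRp L M R → ∀ b c : ℂ, ¬ inL M b →
  (∀ z : ℂ, ¬ inL M z → ∏ u ∈ R, (wp L (z + u) - wp L b) = c * (wp M z - wp M b)) →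
  c = ∏ u ∈ R, (if inL L u then 1 else wp L u - wp L b)

/-- MODULE `PrC` (160 lines; uses `G_Ord`, `G_Quo`; PORT of `DI/B/PrC`). DISTRIBUTION OF THE THETA FUNCTION.
Four lattices: `L ⊆ M` with representatives `R`, `L ⊆ L'` with half system `S`, `M ⊆ M'` with half system `S'`.
PROOF. `F z = ∏ v ∈ R, ∏ u ∈ S, (wp L (z + v) - wp L u)`, `G z = ∏ u ∈ S', (wp M z - wp M u)`.
(a) For all `y`: `∑ u ∈ S, (ind (inL L (y - u)) + ind (inL L (y + u))) = ind (inL L' y) - ind (inL L y)`: if `y` is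
in `L'`, not in `L`, then there is exactly one `u`, and only one of the two signs, by the hypothesis on `u + u`
(as `PrC_a`). The same for `M`, `M'`, `S'`. (b) For all `y`: `∑ v ∈ R, ind (inL L (y + v)) = ind (inL M y)` (as
`PrC_b`), and `∑ v ∈ R, ind (inL L' (y + v)) = ind (inL M' y)`: at most one `v`, as `v - v'` in `L'` and in `M`
gives `v - v'` in `L`; existence: `y = x + x'`, `x` in `L'`, `x'` in `M`; take `v ∈ R` congruent to `- x'` modulo
`L`: `y + v = x + (x' + v)` is in `L'` (as `L ⊆ L'`); if `y` is not in `M'` there is none (`L' ⊆ M'`, `M ⊆ M'`: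
`hsum` with `x' = 0`, `x = 0`). So the order of `F` at `z` is
`ind (inL M' z) - ind (inL M z) - 2 |S| ind (inL M z)`, the order of `G` is the same with `|S'| = |S|`.
`G_Quo` for the lattice `L`, then continuity at `z` not in `M'`. -/
def G_PrC : Prop := ∀ (L L' M M' : PeriodPair) (R S S' : Finset ℂ), IsRp L M R → IsHf L L' S →
  IsHf M M' S' → S.card = S'.card → (∀ z, inL L z → inL L' z) →
  (∀ u, inL L' u → inL L (u + u) → inL L u) → (∀ u, inL M' u → inL M (u + u) → inL M u) →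
  (∀ z, inL L' z → inL M z → inL L z) →
  (∀ z, inL M' z ↔ ∃ x x' : ℂ, inL L' x ∧ inL M x' ∧ z = x + x') →
  ∃ c : ℂ, c ≠ 0 ∧ ∀ z : ℂ, ¬ inL M' z →
    ∏ v ∈ R, ∏ u ∈ S, (wp L (z + v) - wp L u) = c * ∏ u ∈ S', (wp M z - wp M u)

end Pool.Agent.DKB
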