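import Pool.Agent.Lib.DK.O.All
import Pool.Agent.Lib.DK.B.Spec

/-!
# Theorem DK, Part B: the lattices `Lam b` (complete; no task)

The dictionary between `DK/Defs.lean` and the general functions of `DK/B/Basic.lean` for `L = LP b`.
-/

set_option autoImplicit false

open scoped Pointwise Topology
open Filter

noncomputable section

namespace Pool.Agent.DK

open Pool.Agent.MuZ Pool.Agent.FW NumberField IsDedekindDomain
open Pool.Agent.DI (io ofC io_inj exists_io io_ofC ofC_io VP MP UP TP ex sqr sqr_sq kap)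
open Pool.Agent.DKB (inL wp wd zt kz KK IsRp IsHf)

variable {k : ℕ} [SqK k]

theorem inL_LP {b : Ideal (OO k)} (hb : b ≠ ⊥) {z : ℂ} : inL (LP b) z ↔ z ∈ Lam b := by
  have h := aL1 k b hb
  unfold inL
  rw [← h]
  exact Iff.rfl

theorem notL_LP {b : Ideal (OO k)} (hb : b ≠ ⊥) {z : ℂ} : ¬ inL (LP b) z ↔ z ∉ Lam b :=
  not_congr (inL_LP hb)

omit [SqK k] in
theorem wpC_eq (b : Ideal (OO k)) : wpC b = wp (LP b) := rfl

omit [SqK k] in
theorem wdC_eq (b : Ideal (OO k)) : wdC b = wd (LP b) := rfl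

omit [SqK k] in
theorem KtC_eq (b : Ideal (OO k)) : KtC b = KK (LP b) := rfl

theorem IsSys.rp {a b : Ideal (OO k)} (ha : a ≠ ⊥) (hb : b ≠ ⊥) {R : Finset ℂ} (h : IsSys a b R) :
    IsRp (LP b) (LP (a * b)) R := by
  have hab : a * b ≠ ⊥ := mul_ne_zero ha hb
  refine ⟨fun z hz => ?_, fun u hu => ?_, fun z hz => ?_, fun u hu u' hu' h1 => ?_⟩
  · rw [inL_LP hab]
    exact lam_mono ((inL_LP hb).1 hz)
  · rw [inL_LP hab]
    exact h.mem u hu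
  · obtain ⟨u, hu, h1⟩ := h.ex z ((inL_LP hab).1 hz)
    exact ⟨u, hu, (inL_LP hb).2 h1⟩
  · exact h.uni u hu u' hu' ((inL_LP hb).1 h1)

theorem IsHalf.hf {m b : Ideal (OO k)} (hm : m ≠ ⊥) (hb : b ≠ ⊥) {S : Finset ℂ} (h : IsHalf m b S) :
    IsHf (LP b) (LP (m * b)) S := by
  have hmb : m * b ≠ ⊥ := mul_ne_zero hm hb
  refine ⟨fun u hu => ?_, fun z hz hz' => ?_, fun u hu u' hu' h1 => ?_⟩
  · rw [inL_LP hmb, inL_LP hb]
    exact h.mem u hu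
  · rw [inL_LP hmb] at hz
    rw [inL_LP hb] at hz'
    obtain ⟨u, hu, h1⟩ := h.ex z hz hz'
    exact ⟨u, hu, by rw [inL_LP hb, inL_LP hb]; exact h1⟩
  · rw [inL_LP hb, inL_LP hb] at h1
    exact h.uni u hu u' hu' h1

theorem wpC_add {b : Ideal (OO k)} (hb : b ≠ ⊥) (z : ℂ) {l : ℂ} (hl : l ∈ Lam b) :
    wpC b (z + l) = wpC b z := DKB.wp_add z ((inL_LP hb).2 hl)

theorem wdC_add {b : Ideal (OO k)} (hb : b ≠ ⊥) (z : ℂ) {l : ℂ} (hl : l ∈ Lam b) :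
    wdC b (z + l) = wdC b z := DKB.wd_add z ((inL_LP hb).2 hl)

theorem wpC_congr {b : Ideal (OO k)} (hb : b ≠ ⊥) {z u : ℂ} (h : z - u ∈ Lam b) : wpC b z = wpC b u :=
  DKB.wp_congr ((inL_LP hb).2 h)

theorem wdC_congr {b : Ideal (OO k)} (hb : b ≠ ⊥) {z u : ℂ} (h : z - u ∈ Lam b) : wdC b z = wdC b u :=
  DKB.wd_congr ((inL_LP hb).2 h)

theorem XC_congr {b : Ideal (OO k)} (hb : b ≠ ⊥) {z u : ℂ} (h : z - u ∈ Lam b) : XC b z = XC b u := by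
  unfold XC
  rw [wpC_congr hb h]

omit [SqK k] in
theorem wpC_neg (b : Ideal (OO k)) (z : ℂ) : wpC b (-z) = wpC b z := DKB.wp_neg z

omit [SqK k] in
theorem wdC_neg (b : Ideal (OO k)) (z : ℂ) : wdC b (-z) = -wdC b z := DKB.wd_neg z

omit [SqK k] in
theorem XC_neg (b : Ideal (OO k)) (z : ℂ) : XC b (-z) = XC b z := by
  unfold XC
  rw [wpC_neg]

theorem wpC_lat {b : Ideal (OO k)} (hb : b ≠ ⊥) {z : ℂ} (h : z ∈ Lam b) : wpC b z = 0 :=
  DKB.wp_lat ((inL_LP hb).2 h)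

theorem wdC_lat {b : Ideal (OO k)} (hb : b ≠ ⊥) {z : ℂ} (h : z ∈ Lam b) : wdC b z = 0 :=
  DKB.wd_lat ((inL_LP hb).2 h)

theorem pp_ne : pp k ≠ ⊥ := (aO4 k).2.2.2.2.2.2.2.1

theorem ppb_ne : ppb k ≠ ⊥ := (aO4 k).2.2.2.2.2.2.2.2.1

omit [SqK k] in
theorem sp_ne {v : OO k} (h : v ≠ 0) : sp v ≠ ⊥ := by
  intro h1
  exact h (Ideal.span_singleton_eq_bot.1 h1)

theorem ppb_pp (b : Ideal (OO k)) : ppb k * (pp k * b) = sp (2 : OO k) * b := by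
  rw [← mul_assoc, mul_comm (ppb k) (pp k), (aO4 k).1]

/-! ### The points of order two -/

theorem ptT_mem {b : Ideal (OO k)} (hb : b ≠ ⊥) : ptT b ∉ Lam b := (aL6 k b hb).1.2.1

theorem ptS_mem {b : Ideal (OO k)} (hb : b ≠ ⊥) : ptS b ∉ Lam b := (aL6 k b hb).2.1.2.1

theorem two_ptT {b : Ideal (OO k)} (hb : b ≠ ⊥) : ptT b + ptT b ∈ Lam b := by
  have := (aL6 k b hb).2.2.1.1
  rwa [two_mul] at this

theorem two_ptS {b : Ideal (OO k)} (hb : b ≠ ⊥) : ptS b + ptS b ∈ Lam b := by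
  have := (aL6 k b hb).2.2.1.2.1
  rwa [two_mul] at this

theorem ptST_mem {b : Ideal (OO k)} (hb : b ≠ ⊥) : ptS b + ptT b ∉ Lam b := (aL6 k b hb).2.2.1.2.2.1

end Pool.Agent.DK
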