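import Pool.Agent.Lib.DK.B.Lat

/-!
# Theorem DK, Part B: statements of the modules, 2. the lattices `Lam b` (author helper42)

Every module `X` delivers the file `Pool/Agent/Lib/DK/B/X.lean` with the theorem named in its docstring
(namespace `Pool.Agent.DK`, `import Pool.Agent.Lib.DK.B.SpecK`), with the statements named in the docstring
(uses ..) as hypotheses, in that order. The targets `S_B1` - `S_B16` are in `DK/Iface.lean`; the general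
statements `G_..` (namespace `Pool.Agent.DKB`) in `DK/B/Spec.lean`. Read first: `DK/Defs.lean`, `DK/Base.lean`
(`lam_..`, `toC_..`), `DK/B/Basic.lean` and `DK/B/Lat.lean` (`inL_LP`, `wpC_eq`, `IsSys.rp`, `IsHalf.hf`,
`wpC_congr`, `XC_congr`, `ptT_mem`, `two_ptT`, `ptST_mem`, ..). Parts 0 and L are proved: `aO1` - `aO9`,
`aL1` - `aL6` (`DK/O/All.lean`, imported) may be used freely.

Notation in the proofs: `L = LP b`, `e_S, e_T, e_U` the values of `℘` at `S = ptS b`, `T = ptT b`, `S + T`;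
`s = s2 b`, `D = DC b`, `X = XC b z`, `f = X (X + 4 D)(4 X + 1)`. `℘ = s X + e_S`.
-/

set_option autoImplicit false

open scoped Pointwise Topology
open Filter

noncomputable section

namespace Pool.Agent.DK

open Pool.Agent.MuZ Pool.Agent.FW NumberField IsDedekindDomain
open Pool.Agent.DI (io ofC io_inj exists_io io_ofC ofC_io VP MP UP TP ex sqr sqr_sq kap)
open Pool.Agent.DKB (inL wp wd zt kz KK IsRp IsHf)

/-- MODULE `Cst` (70 lines): `theorem sCst (h1 : DKB.G_Dis) : K_Cst`. THE CONSTANTS.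
PROOF. Second claim of `G_Dis` for `S = ptS b`, `T = ptT b` (`two_ptS`, `two_ptT`, `ptS_mem`, `ptT_mem`,
`ptST_mem`). `s = 4 (e_S - e_T)` by definition, not `0`. `XC b (S + T) = (e_U - e_S)/s = - 4 D` by the definition
of `D`, so `e_U = e_S - 4 D s`, `e_T = e_S - s/4`; with `e_S + e_T + e_U = 0`: `12 e_S = (1 + 16 D) s`. `D ≠ 0`, as
`e_U ≠ e_S`; `e_U - e_T = s (1 - 16 D)/4`, not `0`. Insert in the formulas for `g₂`, `g₃`. -/
def K_Cst : Prop := ∀ (k : ℕ) [SqK k] (b : Ideal (OO k)), b ≠ ⊥ →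
  s2 b ≠ 0 ∧ DC b ≠ 0 ∧ 1 - 16 * DC b ≠ 0 ∧
  wpC b (ptS b) = s2 b * (1 + 16 * DC b) / 12 ∧
  wpC b (ptT b) = s2 b * (8 * DC b - 1) / 6 ∧
  wpC b (ptS b + ptT b) = s2 b * (1 - 32 * DC b) / 12 ∧
  (LP b).g₂ = s2 b ^ 2 * (256 * DC b ^ 2 - 16 * DC b + 1) / 12 ∧
  (LP b).g₃ = s2 b ^ 3 * ((1 + 16 * DC b) * (8 * DC b - 1) * (1 - 32 * DC b)) / 216

/-- MODULE `Pts` (120 lines): `theorem sPts : K_Pts`. THE POINTS `S`, `T`, `t`.
PROOF. (1) `IsSys (ppb k) b {0, ptS b}`: `aL6` (second part; `ptS b` is not in `Lam b`). The same for `pp`.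
(2) `ptT b` is not in `Lam (ppb b)`: otherwise (`aL6`) `T` or `T - S` is in `Lam b`. The same for `S`.
(3) If `z` is in `Lam (ppb ^ 2 * b)` and not in `Lam (ppb * b)` then `z - t` or `z + t` is in `Lam b`: `aL6` for
the ideal `ppb * b` (`Lam (ppb * (ppb * b))`, `mul_assoc`, `pow_two`): `z - ptS (ppb b)` and `t - ptS (ppb b)` are
in `Lam (ppb b)`, so `z - t` is in `Lam (ppb b)`, so `z - t` or `z - t - S` is in `Lam b`, and `t + S + t` is in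
`Lam b`: in the second case `z + t = (z - t - S) + (t + S + t)` is in `Lam b`. (4) `α ≠ 0`: `z` in
`Lam (sp α * b)` iff `toC α * z` in `Lam b` (`lam_sp`), also for `ppb * (sp α * b) = sp α * (ppb * b)` etc.; so
`toC α * ptS (sp α * b)` is in `Lam (ppb b)`, not in `Lam b`, and `aL6` gives the claim; the same for `T`, and for
`t` with (3). -/
def K_Pts : Prop := ∀ (k : ℕ) [SqK k] (b : Ideal (OO k)), b ≠ ⊥ →
  IsSys (ppb k) b {0, ptS b} ∧ IsSys (pp k) b {0, ptT b} ∧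
  ptT b ∉ Lam (ppb k * b) ∧ ptS b ∉ Lam (pp k * b) ∧
  (∀ z : ℂ, z ∈ Lam (ppb k ^ 2 * b) → z ∉ Lam (ppb k * b) → z - ptt b ∈ Lam b ∨ z + ptt b ∈ Lam b) ∧
  ∀ α : OO k, α ≠ 0 → toC α * ptS (sp α * b) - ptS b ∈ Lam b ∧ toC α * ptT (sp α * b) - ptT b ∈ Lam b ∧
    (toC α * ptt (sp α * b) - ptt b ∈ Lam b ∨ toC α * ptt (sp α * b) + ptt b ∈ Lam b)

/-- MODULE `Kz` (60 lines; uses `G_KS`, `G_KB`): `theorem sKz (h1 : DKB.G_KS) (h2 : DKB.G_KB) : K_Kz`.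
PROOF. `KtC b = KK (LP b)` (`KtC_eq`). For `z` not in the lattice: first part of `G_KB`, and
`KC b z = limUnder ..` is this limit (`Tendsto.limUnder_eq`). For `z` in the lattice: `KtC b t z = KtC b t 0 = 0`
for all `t` (`G_KS`, `z = 0 + z`, oddness: `KK t 0 = - KK t 0`), so the limit is `0`. -/
def K_Kz : Prop := ∀ (k : ℕ) [SqK k] (b : Ideal (OO k)), b ≠ ⊥ →
  (∀ z : ℂ, Tendsto (fun t => KtC b t z) (𝓝[>] 0) (𝓝 (KC b z))) ∧
  (∀ z : ℂ, z ∉ Lam b → KC b z = kz (LP b) z) ∧ ∀ z : ℂ, z ∈ Lam b → KC b z = 0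

/-- MODULE `B2` (70 lines; uses `K_Cst`, `G_Exp`): `theorem sB2 (h1 : K_Cst) (h2 : DKB.G_Exp) : S_B2`.
PROOF. `wd_sq`: `℘'² = 4 ℘³ - g₂ ℘ - g₃` with `℘ = s X + s (1 + 16 D)/12` and `K_Cst`: `ring` gives `s³ f`.
`6 ℘² - g₂/2 = s² (6 X² + (1 + 16 D) X + 2 D)` (`ring`): `G_Exp`, second part. `XC` is
`(wp L z - const)/s`. -/
abbrev M_B2 : Prop := S_B2

/-- MODULE `B3` (110 lines; uses `K_Cst`, `S_B2`, `G_Add`, `G_Inj`):
`theorem sB3 (h1 : K_Cst) (h2 : S_B2) (h3 : DKB.G_Add) (h4 : DKB.G_Inj) : S_B3`.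
PROOF. `X ≠ X'` by `G_Inj`. Let `X₊ = XC b (z + z')`, `X₋ = XC b (z - z')`, `w, w'` the values of `wdC`,
`c = 1 + 16 D`, `3 e_S = s c/4`. First two claims of `G_Add`:
`4 s² (s (X₊ + X + X') + s c/4) (X - X')² = (w - w')²`, `4 s² (s (X₋ + X + X') + s c/4) (X - X')² = (w + w')²`.
Difference: the third claim. Sum, with `w² = s³ f`, `w'² = s³ f'` (`S_B2`), divided by `2 s³`:
`2 (X₊ + X₋ + 2 X + 2 X' + c/2) (X - X')² = f + f'`: this is the first claim (`f = 4 X³ + c X² + 4 D X`; linear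
arithmetic). Second: let `P = (X₊ + X₋) (X - X')²`, `Q = (X₊ - X₋) (X - X')²`; `s³ Q = - w w'` gives `Q² = f f'`
(divide by `s⁶`), and `P² - f f' = 4 (X X' - D)² (X - X')²` (`ring` after inserting the first claim), so
`4 X₊ X₋ (X - X')⁴ = 4 (X X' - D)² (X - X')²`; cancel. DUPLICATION (`2 z` not in the lattice; `2 z = z + z`):
fourth claim of `G_Add`: `4 (s X₂ + 2 s X + s c/4) s³ f = s⁴ (6 X² + c X + 2 D)²`, `X₂ = XC b (2 z)`
(`6 ℘² - g₂/2 = s² (6 X² + c X + 2 D)` by `K_Cst`), so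
`4 f X₂ = (6 X² + c X + 2 D)² - (8 X + c) f = 4 (X² - D)²` (`ring`). -/
abbrev M_B3 : Prop := S_B3

/-- MODULE `B4` (60 lines; uses `K_Cst`, `G_MulB`): `theorem sB4 (h1 : K_Cst) (h2 : DKB.G_MulB) : S_B4`.
PROOF. `G_MulB` for `t = S`: `(℘(z + S) - e_S) (℘ z - e_S) = 3 e_S² - g₂/4`, i.e. `s X(z + S) s X = s² D`
(`K_Cst`, `ring`), so `X(z + S) X = D`, and `X ≠ 0` as `D ≠ 0`. `t = T`: `℘ - e_T = s (X + 1/4)`,
`3 e_T² - g₂/4 = s² (1 - 16 D)/16`: `(4 X(z + T) + 1)(4 X + 1) = 1 - 16 D`, not `0`, so `4 X + 1 ≠ 0` and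
`4 (X(z + T) (4 X + 1)) = 1 - 16 D - (4 X + 1) = - 4 (X + 4 D)`. -/
abbrev M_B4 : Prop := S_B4

/-- MODULE `B1` (80 lines; uses `K_Cst`, `G_Inj`, `S_B3`):
`theorem sB1 (h1 : K_Cst) (h2 : DKB.G_Inj) (h3 : S_B3) : S_B1`.
PROOF. Periods, parity: `wpC_add`, `wdC_add`, `wpC_neg`, ... Injectivity, zeros of `wdC`: `G_Inj`
(`XC b z = XC b z'` iff `wpC b z = wpC b z'`). At lattice points `wpC`, `wdC` are `0` (`wpC_lat`), so
`XC b z = - e_S/s = - (1 + 16 D)/12`. Values at `S`, `T`, `S + T`: definitions and `K_Cst`. `θ² = D`: `S_B3`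
(duplication) for `z = ptt b`: `2 ptt b - ptS b` is in `Lam b` (`aL6`), so `2 z` is not in `Lam b`,
`XC b (2 z) = XC b (ptS b) = 0`, so `(θ² - D)² = 0`. -/
abbrev M_B1 : Prop := S_B1

/-- MODULE `B5` (130 lines; uses `K_Cst`, `K_Pts`, `G_Sum`, `S_B1`, `S_B4`):
`theorem sB5 (h1 : K_Cst) (h2 : K_Pts) (h3 : DKB.G_Sum) (h4 : S_B1) (h5 : S_B4) : S_B5`.
PROOF. `M = LP (ppb b)`, `R = {0, S}` (`K_Pts`, `IsSys.rp`). `G_Sum` (`℘(0) = 0`, `0 ≠ S`): for `z` not in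
`Lam (ppb b)`: `wpC (ppb b) z = ℘ z + ℘(z + S) - e_S`, `wdC (ppb b) z = ℘'(z) + ℘'(z + S)` (last claim). `z` and
`z + S` are not in `Lam b`, so (`S_B4`) (*) `wpC (ppb b) z = s (X + X(z + S)) + e_S`, `X(z + S) X = D`.
`z = t = ptt b` (`aL6`: not in `Lam (ppb b)`): `X = θ`, `θ² = D ≠ 0` (`S_B1`), `X(z + S) = θ`. As
`ptS (ppb b) - t` is in `Lam (ppb b)` (`aL6`), `wpC (ppb b) (ptS (ppb b)) = 2 s θ + e_S`. `z = T` (not in
`Lam (ppb b)`, `K_Pts`): `X = -1/4`, `X(z + S) = - 4 D`; `ptT (ppb b) - T` is in `Lam (ppb b)`: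
`wpC (ppb b) (ptT (ppb b)) = s (-1/4 - 4 D) + e_S`. So `s2 (ppb b) = 4 s (2 θ + 1/4 + 4 θ²) = s (1 + 4 θ)²`, and
it is not `0` (`K_Cst` for `ppb b`), so `1 + 4 θ ≠ 0`. (*): `XC (ppb b) z (1 + 4 θ)² = X + X(z + S) - 2 θ`;
multiply by `X`: `= X² + D - 2 θ X = (X - θ)²`. LAST: `S' + T' - (t + T)` is in `Lam (ppb b)`
(`S' = ptS (ppb b)`, `T' = ptT (ppb b)`), `S' + T'` is not in `Lam (ppb b)` (`ptST_mem`), so `t + T` is not; `S_B4`
(translation by `T` of `t`): `X(t + T) (4 θ + 1) = - (θ + 4 θ²)`, so `X(t + T) = - θ`; the formula for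
`z = t + T`: `XC (ppb b) (t + T) (1 + 4 θ)² (-θ) = 4 θ²`, and `XC (ppb b) (t + T) = - 4 DC (ppb b)` (definition of
`DC`, `XC_congr`): `DC (ppb b) (1 + 4 θ)² = θ`. -/
abbrev M_B5 : Prop := S_B5

/-- MODULE `B6` (120 lines; uses `K_Cst`, `K_Pts`, `G_Sum`, `G_MulB`, `S_B1`, `S_B4`, `S_B5`, `S_B7`):
`theorem sB6 (h1 : K_Cst) (h2 : K_Pts) (h3 : DKB.G_Sum) (h4 : DKB.G_MulB) (h5 : S_B1) (h6 : S_B4) (h7 : S_B5)
(h8 : S_B7) : S_B6`.
PROOF. `M = LP (pp b)`, `R = {0, T}`: for `z` not in `Lam (pp b)`: `wpC (pp b) z = ℘ z + ℘(z + T) - e_T`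
`= s (X + X(z + T) + 1/4) + e_S` (`e_T = e_S - s/4`), `wdC (pp b) z = ℘'(z) + ℘'(z + T)`. `z = S` (not in
`Lam (pp b)`, `K_Pts`; `ptS (pp b) - S` is in `Lam (pp b)`, `aL6`):
`wpC (pp b) (ptS (pp b)) = s (0 - 4 D + 1/4) + e_S`. So
`s2 (pp b) XC (pp b) z = s (X + X(z + T) + 4 D)`, and with `X(z + T) (4 X + 1) = - (X + 4 D)`:
(*) `s2 (pp b) XC (pp b) z (4 X + 1) = 4 s X (X + 4 D)`. `S_B5` for the ideal `pp b`, `ppb (pp b) = sp 2 * b`
(`ppb_pp`), with `S_B7` (`DC (sp 2 * b) = DC b`, `s2 (sp 2 * b) = 4 s2 b`, `toC_two`): the first three claims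
(`θ' = ThC (pp b)`). Insert `s2 (pp b) (1 + 4 θ')² = 4 s` in (*) and cancel `s2 (pp b)`. LAST: `G_MulB` (second
claim, `t = T`): `℘'(z + T) s (X + 1/4) + s (X(z + T) + 1/4) ℘'(z) = 0`, multiply by `4 (4 X + 1)/s` and use
`(4 X(z + T) + 1)(4 X + 1) = 1 - 16 D`: `℘'(z + T) (4 X + 1)² = - (1 - 16 D) ℘'(z)`, so
`wdC (pp b) z (4 X + 1)² = ℘'(z) ((4 X + 1)² - (1 - 16 D)) = 8 (2 X² + X + 2 D) ℘'(z)`. -/
abbrev M_B6 : Prop := S_B6

/-- MODULE `B7` (130 lines; uses `K_Cst`, `K_Pts`, `K_Kz`, `G_Scl`):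
`theorem sB7 (h1 : K_Cst) (h2 : K_Pts) (h3 : K_Kz) (h4 : DKB.G_Scl) : S_B7`.
PROOF. (1) `α ≠ 0`, `c = toC α`, `M = LP (sp α * b)`: `inL M z` iff `inL (LP b) (c z)` (`inL_LP`, `lam_sp`).
`G_Scl`: `wpC (sp α * b) z = c² wpC b (c z)`, `wdC`: `c³`. By `K_Pts` `c ptS (sp α * b)` is congruent to `ptS b`
modulo `Lam b`, the same for `T`; so `s2 (sp α * b) = c² s2 b`, `XC (sp α * b) z = XC b (c z)`, `DC`, `ThC` (here
up to sign; `XC` is even). `KC`: `KtC (sp α * b) t z = c KtC b (t/‖c‖²) (c z)`, limits for `t → 0+` (`K_Kz`,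
`t/‖c‖² → 0+`, uniqueness of limits). (2) CONJUGATION: `M = LP (cjI b)`: `cjI b ≠ ⊥` (`aO3`: `cjI (cjI b) = b`),
`inL M z` iff `inL (LP b) (conj z)` (`aL2`, seventh claim). `G_Scl`, second part:
`conj (wpC b z) = wpC (cjI b) (conj z)`, the same for `wdC`, `KtC`. `conj S - ptT (cjI b)` and
`conj T - ptS (cjI b)` are in `Lam (cjI b)` (end of `aL6`). So `conj e_S(b) = e_T(cjI b)`, `conj e_T(b) =
e_S(cjI b)`, `conj (s2 b) = - s2 (cjI b)`, and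
`conj (XC b z) = (wpC (cjI b) (conj z) - e_T(cjI b))/(- s2 (cjI b)) = - XC (cjI b) (conj z) - 1/4`
(`e_T = e_S - s2/4`; true for all `z`). `conj (DC b) = - conj (XC b (S + T))/4 = (XC' (S' + T') + 1/4)/4
= (1 - 16 DC (cjI b))/16`. `KC`: limits (`K_Kz`, `Complex.continuous_conj`). -/
abbrev M_B7 : Prop := S_B7

/-- MODULE `B8` (80 lines; uses `K_Cst`, `G_PrA`, `G_PrB`, `G_Inj`):
`theorem sB8 (h1 : K_Cst) (h2 : DKB.G_PrA) (h3 : DKB.G_PrB) (h4 : DKB.G_Inj) : S_B8`.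
PROOF. `T` is not in `Lam (a b)`: `aL5` (`N = 2`). `G_PrA`, `G_PrB` for `L = LP b`, `M = LP (a b)`, `R`
(`IsSys.rp`): `∏ (wp L (z + u) - wp L T) = (∏ (if u ∈ L then 1 else wp L u - wp L T)) (wp M z - wp M T)`. Here
`wp L x - wp L y = s2 b (XC b x - XC b y)`; there is exactly one `u₀` in `R` with `u₀` in `Lam b`; divide by
`s2 b ^ card R` (`Finset.prod_mul_distrib`, `Finset.mul_prod_erase`): the left side has `card R` factors `s2 b`,
the product on the right `card R - 1`. Second claim: `XC b u = XC b T` gives `u - T` or `u + T` in `Lam b`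
(`G_Inj`), so `T` in `Lam (a b)`. -/
abbrev M_B8 : Prop := S_B8

/-- MODULE `B9` (60 lines; uses `K_Cst`, `K_Kz`, `G_Sum`, `G_KB`):
`theorem sB9 (h1 : K_Cst) (h2 : K_Kz) (h3 : DKB.G_Sum) (h4 : DKB.G_KB) : S_B9`.
PROOF. `IsSys.rp`. First claim: `s2 (a b) (XC (a b) z - XC (a b) z') = wp M z - wp M z'`, `G_Sum`. Third: `G_KB`,
fourth part, and `K_Kz` (`z + u` is not in `Lam b`: otherwise `z` is in `Lam (a b)`). -/
abbrev M_B9 : Prop := S_B9

/-- MODULE `B10` (60 lines; uses `K_Cst`, `K_Kz`, `G_KS`, `G_Add`):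
`theorem sB10 (h1 : K_Cst) (h2 : K_Kz) (h3 : DKB.G_KS) (h4 : DKB.G_Add) : S_B10`.
PROOF. Periods: `KtC b t (z + l) = KtC b t z` for all `t`, so the two `limUnder` agree. Parity: uniqueness of
limits (`K_Kz`). Last claim: `K_Kz`, in `kz z = zt z - al z - be conj z` the linear terms cancel; third claim of
`G_Add`; `wp L z - wp L u = s2 b (XC b z - XC b u)`. -/
abbrev M_B10 : Prop := S_B10

/-- MODULE `B14` (130 lines): `theorem sB14 : S_B14`. HALF SYSTEMS.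
PROOF. `aL3`: `R` with `IsSys m b R`, `card R = NI m`. For `u ∈ R` let `ν u ∈ R` be the representative of `-u`
(`- u - ν u` in `Lam b`); `ν (ν u) = u` (`uni`). If `ν u = u` then `2 u` is in `Lam b`, so `u` is in `Lam b`
(`aL5`, `N = 2`); there is exactly one such `u₀` in `R` (`ex` for `0`), and `ν u₀ = u₀`. Choose an injective
function `i : ℂ → ℕ` on `R` (`Finset.equivFin`), or any linear order on `R`, and let `S` be the set of the
`u ∈ R`, `u ≠ u₀`, `i u < i (ν u)`. `R` without `u₀` is the disjoint union of `S` and of the image of `S` under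
`ν` (`i u ≠ i (ν u)`), `ν` is injective: `card R = 2 card S + 1`. `IsHalf m b S`: `ex`: `z` is congruent to
`u ∈ R`, `u ≠ u₀`; `u` or `ν u` is in `S`. `uni`: `u - u'` in `Lam b` gives `u = u'`; `u + u'` in `Lam b` gives
`u' = ν u`, impossible. So `hs m b` is a half system (`Exists.choose_spec`). CARDINALITY of an arbitrary half
system `S'` (`hs m b` need not be the `S` above): the map `S' → S`, `u' ↦` the `u ∈ S` with `u' - u` or `u' + u`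
in `Lam b`, is a bijection: injective (if `u', u''` go to the same `u` then `u' - u''` or `u' + u''` is in
`Lam b`), and the same in the other direction: `card S' ≤ card S ≤ card S'` (`Finset.card_le_card_of_injOn`). -/
abbrev M_B14 : Prop := S_B14

/-- MODULE `B11` (90 lines; uses `K_Cst`, `K_Kz`, `S_B9`, `S_B10`, `S_B14`, `G_Inj`):
`theorem sB11 (h1 : K_Cst) (h2 : K_Kz) (h3 : S_B9) (h4 : S_B10) (h5 : S_B14) (h6 : DKB.G_Inj) : S_B11`.
PROOF. `S = hs m b`. `R = {0} ∪ S ∪ (-S)` (`Finset.image`) is a system `IsSys m b R`: `mem`: `lam_neg`; `ex`: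
`IsHalf.ex`; `uni`: `IsHalf.uni`, and `u + u'` in `Lam b` for `u, u' ∈ S` gives `u = u'`, `2 u` in `Lam b`, `u` in
`Lam b` (`aL5`, `N = 2`), a contradiction. The union is disjoint (same argument). So by `S_B9`:
`KC (m b) z = KC b z + ∑ u ∈ S, (KC b (z + u) + KC b (z - u))`, `NI m = 1 + 2 card S` (`S_B14`):
`KC (m b) z - NI m KC b z = ∑ u ∈ S, (KC b (z + u) + KC b (z - u) - 2 KC b z)`, and each term is
`wdC b z/(s2 b (XC b z - XC b u))` (`S_B10`; `XC b z ≠ XC b u` by `G_Inj` as `z ± u` are not in `Lam b`).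
Divide by `fr f b` (also if it is `0`). -/
abbrev M_B11 : Prop := S_B11

/-- MODULE `B12` (120 lines; uses `K_Cst`, `G_Inj`, `G_Scl`):
`theorem sB12 (h1 : K_Cst) (h2 : DKB.G_Inj) (h3 : DKB.G_Scl) : S_B12`.
PROOF. `2 (1/f)` is not in `Lam b`: `PrI b f` gives `v ∈ b`, `v = 1 - f u` (`aO6`, last claim, or
`O6_one` in `DK/O/O6.lean`); if `v (2/f)` is in `O` so is `2/f` (`v (2/f) = 2/f - 2 u`), so `2 = f x` in `O`,
`f` divides `2` (real parts, `re_mul`), false as `f` is odd and `≥ 3`. So `1/f` is not in `Lam b`, `wdC b (1/f) ≠ 0`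
(`G_Inj`). SECOND CLAIM: `6 ℘² - g₂/2 = s² (6 X² + (1 + 16 D) X + 2 D)` (`K_Cst`). THIRD, FOURTH: `sp α * b ≠ ⊥`
and is prime to `f` (`aO6`: `PrI (a * b)`, `PrI (sp α) f` iff `Cop α f`; `cop_congr`, `cop_one`, `cop_neg`).
`G_Scl` with `c = toC α` (`inL_LP`, `lam_sp`): `wpC (sp α * b) (1/f) = c² wpC b (c/f)`, `wdC`: `c³`, `g₂`: `c⁴`; and
`c/f - 1/f` (in the fourth claim `c/f + 1/f`) is in `Lam b`: it is `toC x` for an `x` in `O`, and `toC x` is in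
`Lam b` for every `x`. `wdC` is odd: the sign. FIFTH: `G_Scl`, second part, as in the module `B7`; `cjI b ≠ ⊥`,
`PrI (cjI b) f` iff `PrI b f` (`aO3`); `conj (1/f) = 1/f`; in the case `¬ (b ≠ ⊥ ∧ ..)` both are `0`, but here the
hypotheses hold anyway. -/
abbrev M_B12 : Prop := S_B12

/-- MODULE `B13` (110 lines; uses `K_Cst`, `G_Scl`, `G_Uni`):
`theorem sB13 (h1 : K_Cst) (h2 : DKB.G_Scl) (h3 : DKB.G_Uni) : S_B13`.
PROOF. Let `c` with `c² = s2 b/s2 b'` (`IsAlgClosed.exists_pow_nat_eq`), `c ≠ 0`. `G_Scl` (third part) gives `M`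
with `inL M z` iff `inL (LP b') (c z)`; first part and `K_Cst` (`DC b = DC b'`): `M.g₂ = c⁴ g₂(b') = g₂(b)`,
`M.g₃ = c⁶ g₃(b') = g₃(b)`. `G_Uni`: `z` in `Lam b` iff `c z` in `Lam b'`. `1` is in `Lam b`, so `c` is in
`Lam b'`, so `c = toC v / n`, `n > 0` (`tor_lam`), `v ≠ 0`. For all `z`: `z` in `Lam (sp v * b')` iff `toC v z` in
`Lam b'` (`lam_sp`), `toC v z = c (n z)`, iff `n z` in `Lam b` iff `z` in `Lam (sp n * b)`. So
`Lam (sp v * b') = Lam (sp n * b)`. LEMMA: `Lam a = Lam a'`, `a, a' ≠ ⊥` imply `a = a'`: `aL3` for `a`, `⊤`: there is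
`g` in `Lam (a * ⊤) = Lam a` with: `toC v * g` in `Lam ⊤` iff `v ∈ a`. If `v ∈ a'` then `toC v * g` is in `O`, as
`g` is in `Lam a'` (`lam_top`), so `v ∈ a`; symmetric. -/
abbrev M_B13 : Prop := S_B13

/-- MODULE `B15` (90 lines; uses `S_B1`, `S_B3`, `S_B4`):
`theorem sB15 (h1 : S_B1) (h2 : S_B3) (h3 : S_B4) : S_B15`.
PROOF. `z`, `z + S`, `z + T`, `z + (S + T)` are not in `Lam b` (`2 z` is not, `two_ptS`, `two_ptT`).
`X(z + S) X = D`, `X(z + T) (4 X + 1) = - (X + 4 D)`, `X(z + (S + T)) X(z + T) = D` (`S_B4` for `z + T`),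
`X ≠ 0`, `4 X + 1 ≠ 0`, `X + 4 D ≠ 0` (`X(z + T) ≠ 0`), `X(2 z) f(X) = (X² - D)²`, `f(X) = X (X + 4 D)(4 X + 1) ≠ 0`,
the same for `u` with `a = X(u)`. Multiply by `f(X)`: the left side is
`(X - a) (D - a X) (X + 4 D + a (4 X + 1)) (D (4 X + 1) + a (X + 4 D))`, the right side
`- (f(a) (X² - D)² - f(X) (a² - D)²)`; they are equal (`ring`). -/
abbrev M_B15 : Prop := S_B15

/-- MODULE `B16` (90 lines; uses `K_Cst`, `G_PrC`, `S_B14`):
`theorem sB16 (h1 : K_Cst) (h2 : DKB.G_PrC) (h3 : S_B14) : S_B16`.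
PROOF. `G_PrC` for `L = LP b`, `L' = LP (m b)`, `M = LP (l b)`, `M' = LP (m (l b))`, `R`, `S = hs m b`,
`S' = hs m (l b)` (`IsSys.rp`, `IsHalf.hf`, `S_B14`); `2 card S + 1 = NI m = 2 card S' + 1`; no points of order two:
`aL5`, `N = 2`; `Lam (l b) ∩ Lam (m b) = Lam b`, `Lam (l m b) = Lam (l b) + Lam (m b)`: `aL4`, `lam_mono`;
`m * (l * b) = l * m * b`. Then `wp L x - wp L y = s2 b (XC b x - XC b y)`, `wp M x - wp M y = s2 (l b) (..)`:
`c' = c s2 (l b) ^ card S' / s2 b ^ (card R * card S)`. -/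
abbrev M_B16 : Prop := S_B16

end Pool.Agent.DK
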