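import Pool.Agent.Lib.DK.B.Spec

/-!
# Theorem DK, Part B, module `Uni`: the invariants determine the lattice

Step (a) is done with the first order equation `℘'² = 4 ℘³ - g₂ ℘ - g₃` instead of the second order one:
`φ = ℘_L - ℘_M = z^n g` gives `z φ'/φ → n`, and `φ' (℘'_L + ℘'_M) = φ (4 (℘_L² + ℘_L ℘_M + ℘_M²) - g₂)` gives
`z φ'/φ → 12/(-4) = -3`.
-/

set_option autoImplicit false

noncomputable section

namespace Pool.Agent.DKB

open Complex Filter Topology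

private theorem Uni_lim (h1 : G_Exp) (L : PeriodPair) :
    Tendsto (fun z : ℂ => z ^ 2 * wp L z) (𝓝[≠] 0) (𝓝 1) ∧
    Tendsto (fun z : ℂ => z ^ 3 * wd L z) (𝓝[≠] 0) (𝓝 (-2)) := by
  obtain ⟨⟨r, r1, hr, hr1, hz⟩, -, -⟩ := h1 L
  constructor
  · have hc : ContinuousAt (fun z : ℂ => 1 + ca L * z ^ 4 + cb L * z ^ 6 + z ^ 8 * r z) 0 := by
      have := hr.continuousAt
      fun_prop
    have h2 := hc.tendsto.mono_left (nhdsWithin_le_nhds (s := {(0 : ℂ)}ᶜ))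
    have e0 : (1 : ℂ) + ca L * 0 ^ 4 + cb L * 0 ^ 6 + 0 ^ 8 * r 0 = 1 := by ring
    rw [e0] at h2
    refine h2.congr' ?_
    filter_upwards [self_mem_nhdsWithin] with z hz0
    have hz1 : z ≠ 0 := hz0
    rw [(hz z hz1).1]
    field_simp
  · have hc : ContinuousAt (fun z : ℂ => -2 + 2 * ca L * z ^ 4 + 4 * cb L * z ^ 6 + z ^ 8 * r1 z) 0 := by
      have := hr1.continuousAt
      fun_prop
    have h2 := hc.tendsto.mono_left (nhdsWithin_le_nhds (s := {(0 : ℂ)}ᶜ))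
    have e0 : (-2 : ℂ) + 2 * ca L * 0 ^ 4 + 4 * cb L * 0 ^ 6 + 0 ^ 8 * r1 0 = -2 := by ring
    rw [e0] at h2
    refine h2.congr' ?_
    filter_upwards [self_mem_nhdsWithin] with z hz0
    have hz1 : z ≠ 0 := hz0
    rw [(hz z hz1).2]
    field_simp

private theorem Uni_ev (h1 : G_Exp) (L M : PeriodPair) (hg2 : L.g₂ = M.g₂) (hg3 : L.g₃ = M.g₃) :
    ∀ᶠ z in 𝓝[≠] (0 : ℂ), wp L z = wp M z := by
  obtain ⟨⟨r, r1, hr, hr1, hrz⟩, -, -⟩ := h1 L
  obtain ⟨⟨s, s1, hs, hs1, hsz⟩, -, -⟩ := h1 M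
  have hca : ca L = ca M := by
    unfold ca
    rw [hg2]
  have hcb : cb L = cb M := by
    unfold cb
    rw [hg3]
  have hφ : ∀ z : ℂ, z ≠ 0 → wp L z - wp M z = z ^ 6 * (r z - s z) := by
    intro z hz
    rw [(hrz z hz).1, (hsz z hz).1, hca, hcb]
    ring
  by_cases h0 : ∀ᶠ z in 𝓝 (0 : ℂ), z ^ 6 * (r z - s z) = 0
  · filter_upwards [h0.filter_mono nhdsWithin_le_nhds, self_mem_nhdsWithin] with z hz hz0
    exact sub_eq_zero.1 (by rw [hφ z hz0, hz])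
  exfalso
  have han : AnalyticAt ℂ (fun z : ℂ => z ^ 6 * (r z - s z)) 0 :=
    (analyticAt_id.pow 6).mul (hr.sub hs)
  obtain ⟨n, g, hg, hg0, hgz⟩ := (han.exists_eventuallyEq_pow_smul_nonzero_iff).2 h0
  have hd : ∀ᶠ z in 𝓝[≠] (0 : ℂ),
      z * (wd L z - wd M z) = z ^ n * (n * g z + z * deriv g z) := by
    filter_upwards [ev_inL L 0, ev_inL M 0, self_mem_nhdsWithin,
      hgz.eventually_nhds.filter_mono nhdsWithin_le_nhds,
      hg.eventually_analyticAt.filter_mono nhdsWithin_le_nhds] with z hL hM hz0 hz hga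
    have hz1 : z ≠ 0 := hz0
    have e1 : (fun u => wp L u - wp M u) =ᶠ[𝓝 z] fun u => u ^ n * g u := by
      filter_upwards [hz, isOpen_ne.mem_nhds hz1] with u hu hu0
      rw [hφ u hu0, hu, sub_zero, smul_eq_mul]
    have e2 : HasDerivAt (fun u => u ^ n * g u) (wd L z - wd M z) z :=
      ((hasDerivAt_wp hL).sub (hasDerivAt_wp hM)).congr_of_eventuallyEq e1.symm
    have e3 : HasDerivAt (fun u : ℂ => u ^ n * g u) (n * z ^ (n - 1) * g z + z ^ n * deriv g z) z :=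
      (hasDerivAt_pow n z).mul hga.differentiableAt.hasDerivAt
    rw [e2.unique e3]
    cases n with
    | zero =>
      simp
    | succ m =>
      rw [Nat.add_sub_cancel]
      ring
  have key : ∀ᶠ z in 𝓝[≠] (0 : ℂ), (n * g z + z * deriv g z) * (z ^ 3 * wd L z + z ^ 3 * wd M z) =
      g z * (4 * ((z ^ 2 * wp L z) ^ 2 + z ^ 2 * wp L z * (z ^ 2 * wp M z) + (z ^ 2 * wp M z) ^ 2) -
        M.g₂ * z ^ 4) := by
    filter_upwards [ev_inL L 0, ev_inL M 0, self_mem_nhdsWithin,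
      hgz.filter_mono nhdsWithin_le_nhds, hd] with z hL hM hz0 hz hdz
    have hz1 : z ≠ 0 := hz0
    have s1 := wd_sq hL
    have s2 := wd_sq hM
    rw [hg2, hg3] at s1
    have hz2 : wp L z - wp M z = z ^ n * g z := by
      rw [hφ z hz1, hz, sub_zero, smul_eq_mul]
    apply mul_left_cancel₀ (pow_ne_zero n hz1)
    have e1 : z ^ n * ((n * g z + z * deriv g z) * (z ^ 3 * wd L z + z ^ 3 * wd M z)) =
        z ^ 4 * (wd L z ^ 2 - wd M z ^ 2) := by
      linear_combination (-(z ^ 3 * wd L z + z ^ 3 * wd M z)) * hdz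
    have e2 : z ^ n * (g z * (4 * ((z ^ 2 * wp L z) ^ 2 + z ^ 2 * wp L z * (z ^ 2 * wp M z) +
        (z ^ 2 * wp M z) ^ 2) - M.g₂ * z ^ 4)) = (wp L z - wp M z) * (z ^ 4 *
        (4 * (wp L z ^ 2 + wp L z * wp M z + wp M z ^ 2) - M.g₂)) := by
      rw [hz2]
      ring
    rw [e1, e2, s1, s2]
    ring
  obtain ⟨hLp, hLd⟩ := Uni_lim h1 L
  obtain ⟨hMp, hMd⟩ := Uni_lim h1 M
  have hgt : Tendsto g (𝓝[≠] 0) (𝓝 (g 0)) := hg.continuousAt.tendsto.mono_left nhdsWithin_le_nhds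
  have hgd : Tendsto (deriv g) (𝓝[≠] 0) (𝓝 (deriv g 0)) :=
    hg.deriv.continuousAt.tendsto.mono_left nhdsWithin_le_nhds
  have hid : Tendsto (fun z : ℂ => z) (𝓝[≠] 0) (𝓝 0) :=
    (continuous_id.tendsto (0 : ℂ)).mono_left nhdsWithin_le_nhds
  have t1 := ((hgt.const_mul (n : ℂ)).add (hid.mul hgd)).mul (hLd.add hMd)
  have t2 := hgt.mul (((((hLp.pow 2).add (hLp.mul hMp)).add (hMp.pow 2)).const_mul (4 : ℂ)).sub
    ((hid.pow 4).const_mul M.g₂))
  have h5 := tendsto_nhds_unique (t1.congr' key) t2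
  have h6 : g 0 * ((n : ℂ) + 3) = 0 := by linear_combination (-1 / 4 : ℂ) * h5
  rcases mul_eq_zero.1 h6 with h7 | h7
  · exact hg0 h7
  · have h8 : ((n + 3 : ℕ) : ℂ) = 0 := by
      push_cast
      exact h7
    rw [Nat.cast_eq_zero] at h8
    omega

private theorem Uni_eqOn (L M : PeriodPair) (h : ∀ᶠ z in 𝓝[≠] (0 : ℂ), wp L z = wp M z) :
    ∀ z : ℂ, ¬ inL L z → ¬ inL M z → wp L z = wp M z := by
  have hpre : IsPreconnected {z : ℂ | ¬ inL L z ∧ ¬ inL M z} := by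
    have h2 := (((countable_L L).union (countable_L M)).isConnected_compl_of_one_lt_rank
      (by rw [Complex.rank_real_complex]; norm_num)).2
    have e : ((L.lattice : Set ℂ) ∪ (M.lattice : Set ℂ))ᶜ = {z : ℂ | ¬ inL L z ∧ ¬ inL M z} := by
      ext z
      simp only [Set.mem_compl_iff, Set.mem_union, SetLike.mem_coe, not_or, Set.mem_ofPred_eq]
      exact Iff.rfl
    rwa [e] at h2
  have hL : AnalyticOnNhd ℂ (wp L) {z : ℂ | ¬ inL L z ∧ ¬ inL M z} := fun z hz => analyticAt_wp hz.1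
  have hM : AnalyticOnNhd ℂ (wp M) {z : ℂ | ¬ inL L z ∧ ¬ inL M z} := fun z hz => analyticAt_wp hz.2
  have h1 := eventually_eventually_nhdsWithin.2 h
  obtain ⟨z₀, h2, h3, h4, h5⟩ := (h1.and ((ev_inL L 0).and ((ev_inL M 0).and
    (self_mem_nhdsWithin (a := (0 : ℂ)) (s := {(0 : ℂ)}ᶜ))))).exists
  have h6 : wp L =ᶠ[𝓝 z₀] wp M := by
    rw [IsOpen.nhdsWithin_eq isOpen_compl_singleton h5] at h2
    exact h2
  intro z hz1 hz2
  exact hL.eqOn_of_preconnected_of_eventuallyEq hM hpre ⟨h3, h4⟩ h6 ⟨hz1, hz2⟩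

private theorem Uni_le (h1 : G_Exp) (L M : PeriodPair)
    (h : ∀ z : ℂ, ¬ inL L z → ¬ inL M z → wp L z = wp M z) {l : ℂ} (hl : inL L l) : inL M l := by
  by_contra hM
  have hc : Tendsto (fun u : ℂ => wp M (u + l)) (𝓝[≠] 0) (𝓝 (wp M l)) := by
    have h2 : ContinuousAt (fun u : ℂ => wp M (u + l)) 0 := by
      have h3 : ContinuousAt (wp M) ((fun u : ℂ => u + l) 0) := by
        simp only [zero_add]
        exact (analyticAt_wp hM).continuousAt
      exact ContinuousAt.comp (f := fun u : ℂ => u + l) h3 (by fun_prop)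
    have h3 := h2.tendsto.mono_left (nhdsWithin_le_nhds (s := {(0 : ℂ)}ᶜ))
    simp only [zero_add] at h3
    exact h3
  have hid : Tendsto (fun z : ℂ => z) (𝓝[≠] 0) (𝓝 0) :=
    (continuous_id.tendsto (0 : ℂ)).mono_left nhdsWithin_le_nhds
  have h3 := (hid.pow 2).mul hc
  have h4 : (fun z : ℂ => z ^ 2 * wp M (z + l)) =ᶠ[𝓝[≠] 0] fun z => z ^ 2 * wp L z := by
    filter_upwards [ev_add L l 0, ev_add M l 0] with z hz1 hz2
    rw [← h _ hz1 hz2, wp_add z hl]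
  have h5 := tendsto_nhds_unique (h3.congr' h4) (Uni_lim h1 L).1
  norm_num at h5

theorem tUni (h1 : G_Exp) : G_Uni := by
  intro L M hg2 hg3 z
  have h := Uni_eqOn L M (Uni_ev h1 L M hg2 hg3)
  exact ⟨fun hz => Uni_le h1 L M h hz, fun hz => Uni_le h1 M L (fun z h2 h3 => (h z h3 h2).symm) hz⟩

end Pool.Agent.DKB
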